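import Pool.Agent.Run7.h667.NG.Rm
import Pool.Agent.Y280.HFin

/-!
# Typical operators with prescribed power growth: assembly
-/

set_option autoImplicit false
open Finset Filter Topology TopologicalSpace
open Pool.Agent.Y280 Run7.h667.TC Run7.h667.PC

namespace Run7.h667.NG

variable {E : Type} [NormedAddCommGroup E] [NormedSpace ℂ E]

/-- scalar multiplication is continuous for the strong* topologies -/
lemma continuous_smul_sotStar (C C' : Set (E →L[ℂ] E)) (f : C → C') (r : ℂ)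
    (hf : ∀ T : C, ((f T : C') : E →L[ℂ] E) = r • (T : E →L[ℂ] E)) :
    @Continuous C C' (SOTStar C) (SOTStar C') f := by
  letI := SOTStar C
  rw [continuous_induced_rng]
  have h0 : Continuous fun T : C => ((fun x : E => (T : E →L[ℂ] E) x),
    (fun y : StrongDual ℂ E => y.comp (T : E →L[ℂ] E))) := continuous_induced_dom
  have h1 : Continuous fun T : C => (fun x : E => (T : E →L[ℂ] E) x) := continuous_fst.comp h0
  have h2 : Continuous fun T : C => (fun y : StrongDual ℂ E => y.comp (T : E →L[ℂ] E)) :=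
    continuous_snd.comp h0
  refine Continuous.prodMk ?_ ?_
  · refine continuous_pi fun x => ?_
    have h3 : Continuous fun T : C => r • (T : E →L[ℂ] E) x :=
      ((continuous_apply x).comp h1).const_smul r
    refine h3.congr fun T => ?_
    rw [hf]
    rfl
  · refine continuous_pi fun y => ?_
    have h3 : Continuous fun T : C => r • y.comp (T : E →L[ℂ] E) :=
      ((continuous_apply y).comp h2).const_smul r
    refine h3.congr fun T => ?_
    rw [hf, ContinuousLinearMap.comp_smul]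

/-- closed under strong limits of sequences -/
def SClosed (K : Set (E →L[ℂ] E)) : Prop :=
  ∀ (w : ℕ → E →L[ℂ] E) (T0 : E →L[ℂ] E), (∀ m, w m ∈ K) →
    (∀ x, Tendsto (fun m => w m x) atTop (𝓝 (T0 x))) → T0 ∈ K

theorem typ_PG1 [CompleteSpace E] [SeparableSpace E] [Nontrivial E] {p q : ℝ}
    (hpq : p.HolderConjugate q) (hE : Refl E) {K : Set (E →L[ℂ] E)} (hK : KC K)
    (hKc : SClosed K) (hB : Bin p q K) (hR : RoomD p K) {g : ℕ → ℝ}
    (hg : ∀ k, 0 < g k) (hg1 : g 1 ≤ 1) (t : TopologicalSpace (PG g ∩ K : Set (E →L[ℂ] E)))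
    (ht : t = SOTStar (PG g ∩ K)) :
    (PG g ∩ K : Set (E →L[ℂ] E)).Nonempty ∧
      @IsCompletelyMetrizableSpace (PG g ∩ K : Set (E →L[ℂ] E)) t ∧
      @BaireSpace (PG g ∩ K : Set (E →L[ℂ] E)) t ∧
      {T : (PG g ∩ K : Set (E →L[ℂ] E)) | DenselyHyperinvariant (T : E →L[ℂ] E)} ∈
        @residual (PG g ∩ K : Set (E →L[ℂ] E)) t := by
  have := separable_dual hE
  have hn : ∀ T ∈ (PG g ∩ K : Set (E →L[ℂ] E)), ‖T‖ ≤ 1 := fun T hT => by
    have h1 := hT.1 1 one_pos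
    rw [pow_one] at h1
    exact h1.trans hg1
  have hcm : @IsCompletelyMetrizableSpace (PG g ∩ K : Set (E →L[ℂ] E)) (sotStar (PG g ∩ K)) :=
    cm_sotStar hn fun w T0 hw hl =>
      ⟨PG_closed hg1 w T0 (fun m => (hw m).1) hl, hKc w T0 (fun m => (hw m).2) hl⟩
  have hres : {w : (PG g ∩ K : Set (E →L[ℂ] E)) | GoodH (w : E →L[ℂ] E)} ∈
      @residual (PG g ∩ K : Set (E →L[ℂ] E)) (sotStar (PG g ∩ K)) := by
    letI : TopologicalSpace (PG g ∩ K : Set (E →L[ℂ] E)) := sotStar (PG g ∩ K)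
    exact typ_nil hpq hE (nhdS_sotStar (PG g ∩ K)) (semiS_sotStar hE (PG g ∩ K) hn)
      (densN_PG hK hpq hB hR hg hg1)
  subst ht
  refine ⟨⟨0, fun n hn => ?_, hK.zero⟩, hcm, ?_, ?_⟩
  · rw [zero_pow hn.ne', norm_zero]
    exact (hg n).le
  · exact @BaireSpace.of_completelyPseudoMetrizable _ (SOTStar _)
      (@IsCompletelyMetrizableSpace.toIsCompletelyPseudoMetrizableSpace _ (SOTStar _) hcm)
  · exact Filter.mem_of_superset hres fun T hT => hyp_of_goodH hT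

lemma hyp_smul {T : E →L[ℂ] E} {r : ℂ} (h : DenselyHyperinvariant (r • T)) :
    DenselyHyperinvariant T := by
  intro x₀ ε hε
  obtain ⟨M, h1, h2, h3, h4, h5⟩ := h x₀ ε hε
  refine ⟨M, h1, h2, h3, fun S hS => h4 S ?_, h5⟩
  rw [mul_smul_comm, smul_mul_assoc, hS]

/-- arbitrary bounds, by scaling -/
theorem typ_PG [CompleteSpace E] [SeparableSpace E] [Nontrivial E] {p q : ℝ}
    (hpq : p.HolderConjugate q) (hE : Refl E) {K : Set (E →L[ℂ] E)} (hK : KC K)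
    (hKc : SClosed K) (hB : Bin p q K) (hR : RoomD p K) {g : ℕ → ℝ}
    (hg : ∀ k, 0 < g k) (t : TopologicalSpace (PG g ∩ K : Set (E →L[ℂ] E)))
    (ht : t = SOTStar (PG g ∩ K)) :
    (PG g ∩ K : Set (E →L[ℂ] E)).Nonempty ∧
      @IsCompletelyMetrizableSpace (PG g ∩ K : Set (E →L[ℂ] E)) t ∧
      @BaireSpace (PG g ∩ K : Set (E →L[ℂ] E)) t ∧
      {T : (PG g ∩ K : Set (E →L[ℂ] E)) | DenselyHyperinvariant (T : E →L[ℂ] E)} ∈
        @residual (PG g ∩ K : Set (E →L[ℂ] E)) t := by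
  set l : ℝ := g 1 with hl
  have hl0 : 0 < l := hg 1
  set g' : ℕ → ℝ := fun n => g n / l ^ n with hg'
  have hg'0 : ∀ k, 0 < g' k := fun k => div_pos (hg k) (pow_pos hl0 k)
  have hg'1 : g' 1 ≤ 1 := by
    simp only [hg']
    rw [pow_one, div_self hl0.ne']
  have hlC : (l : ℂ) ≠ 0 := Complex.ofReal_ne_zero.2 hl0.ne'
  have hnl : ‖(l : ℂ)‖ = l := by rw [Complex.norm_real, Real.norm_of_nonneg hl0.le]
  have hli : ((l⁻¹ : ℝ) : ℂ) = (l : ℂ)⁻¹ := Complex.ofReal_inv l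
  have h1 : ∀ T ∈ (PG g ∩ K : Set (E →L[ℂ] E)),
      (l : ℂ)⁻¹ • T ∈ (PG g' ∩ K : Set (E →L[ℂ] E)) := by
    intro T hT
    refine ⟨fun n hn => ?_, ?_⟩
    · rw [smul_pow, norm_smul, norm_pow, norm_inv, hnl, inv_pow, ← div_eq_inv_mul]
      exact div_le_div_of_nonneg_right (hT.1 n hn) (pow_pos hl0 n).le
    · rw [← hli]
      exact hK.smul (inv_pos.2 hl0).le hT.2
  have h2 : ∀ T ∈ (PG g' ∩ K : Set (E →L[ℂ] E)), (l : ℂ) • T ∈ (PG g ∩ K : Set (E →L[ℂ] E)) := by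
    intro T hT
    refine ⟨fun n hn => ?_, hK.smul hl0.le hT.2⟩
    rw [smul_pow, norm_smul, norm_pow, hnl]
    have h3 := hT.1 n hn
    simp only [hg'] at h3
    rwa [le_div_iff₀' (pow_pos hl0 n)] at h3
  let f : (PG g ∩ K : Set (E →L[ℂ] E)) ≃ (PG g' ∩ K : Set (E →L[ℂ] E)) :=
    { toFun := fun T => ⟨(l : ℂ)⁻¹ • T.1, h1 _ T.2⟩
      invFun := fun T => ⟨(l : ℂ) • T.1, h2 _ T.2⟩
      left_inv := fun T => Subtype.ext (by
        show (l : ℂ) • (l : ℂ)⁻¹ • T.1 = T.1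
        rw [smul_smul, mul_inv_cancel₀ hlC, one_smul])
      right_inv := fun T => Subtype.ext (by
        show (l : ℂ)⁻¹ • (l : ℂ) • T.1 = T.1
        rw [smul_smul, inv_mul_cancel₀ hlC, one_smul]) }
  obtain ⟨hne, hcm, hb, hr⟩ := typ_PG1 hpq hE hK hKc hB hR hg'0 hg'1 (SOTStar (PG g' ∩ K)) rfl
  subst ht
  let _ : TopologicalSpace (PG g ∩ K : Set (E →L[ℂ] E)) := SOTStar (PG g ∩ K)
  let _ : TopologicalSpace (PG g' ∩ K : Set (E →L[ℂ] E)) := SOTStar (PG g' ∩ K)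
  let φ : (PG g ∩ K : Set (E →L[ℂ] E)) ≃ₜ (PG g' ∩ K : Set (E →L[ℂ] E)) :=
    ⟨f, continuous_smul_sotStar _ _ f (l : ℂ)⁻¹ fun _ => rfl,
      continuous_smul_sotStar _ _ f.symm (l : ℂ) fun _ => rfl⟩
  have hcm' : IsCompletelyMetrizableSpace (PG g' ∩ K : Set (E →L[ℂ] E)) := hcm
  have hcmC : IsCompletelyMetrizableSpace (PG g ∩ K : Set (E →L[ℂ] E)) :=
    φ.isClosedEmbedding.IsCompletelyMetrizableSpace
  refine ⟨⟨0, fun n hn => ?_, hK.zero⟩, hcmC, ?_, ?_⟩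
  · rw [zero_pow hn.ne', norm_zero]
    exact (hg n).le
  · exact BaireSpace.of_completelyPseudoMetrizable
  · have h3 : φ ⁻¹' {T : (PG g' ∩ K : Set (E →L[ℂ] E)) |
        DenselyHyperinvariant (T : E →L[ℂ] E)} ∈ residual (PG g ∩ K : Set (E →L[ℂ] E)) := by
      have h4 := φ.symm.residual_map_eq
      rw [← h4, Filter.mem_map, ← Set.preimage_comp]
      simpa using hr
    refine Filter.mem_of_superset h3 fun T hT => ?_
    have h5 : DenselyHyperinvariant ((l : ℂ)⁻¹ • (T : E →L[ℂ] E)) := hT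
    exact hyp_smul h5

end Run7.h667.NG
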