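import Pool.Agent.Run7.h667.NG.Chain
import Pool.Agent.Run7.h667.PC.Refl

/-!
# Coupled copies with arbitrary small weights
-/

set_option autoImplicit false
open Finset Filter Topology TopologicalSpace
open Pool.Agent.Y280 Run7.h667.TC Run7.h667.PC

namespace Run7.h667.NG

variable {E : Type*} [NormedAddCommGroup E] [NormedSpace ℂ E]

/-- the operator with the couplings `w` -/
noncomputable def bigW (A : E →L[ℂ] E) (U V : ℕ → E →L[ℂ] E) (m : ℕ) (w : ℕ → ℝ) : E →L[ℂ] E :=
  ∑ j ∈ range (m + 1), U j * A * V j + ∑ j ∈ range m, (w j : ℂ) • (U (j + 1) * V j)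

section

variable {p q : ℝ} {P A : E →L[ℂ] E} {U V : ℕ → E →L[ℂ] E} {n m : ℕ} {w : ℕ → ℝ}

lemma cop_mono (h : Cop p P U V n) (hp : 0 < p) {n' : ℕ} (hn : n' ≤ n) : Cop p P U V n' := by
  refine ⟨h.U0, h.V0, h.PP, fun i hi j hj => h.VU i (hi.trans_le hn) j (hj.trans_le hn),
    fun i hi => h.PV i (hi.trans_le hn), fun i hi => h.UP i (hi.trans_le hn), fun z => ?_,
    fun x => ?_⟩
  · have h1 := h.up fun i => if i < n' then z i else 0
    have e1 : ∑ i ∈ range n, U i (if i < n' then z i else 0) = ∑ i ∈ range n', U i (z i) := by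
      rw [← sum_subset (range_mono hn)]
      · refine sum_congr rfl fun i hi => ?_
        rw [mem_range] at hi
        rw [if_pos hi]
      · intro i _ hi
        rw [mem_range] at hi
        rw [if_neg hi, map_zero]
    have e2 : ∑ i ∈ range n, ‖if i < n' then z i else 0‖ ^ p = ∑ i ∈ range n', ‖z i‖ ^ p := by
      rw [← sum_subset (range_mono hn)]
      · refine sum_congr rfl fun i hi => ?_
        rw [mem_range] at hi
        rw [if_pos hi]
      · intro i _ hi
        rw [mem_range] at hi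
        rw [if_neg hi, norm_zero, Real.zero_rpow hp.ne']
    rwa [e1, e2] at h1
  · refine le_trans ?_ (h.lo x)
    exact sum_le_sum_of_subset_of_nonneg (range_mono hn) fun _ _ _ => by positivity

lemma V_bigW (h : Cop p P U V (m + 1)) (hPA : P * A = A) {a : ℕ} (ha : a ≤ m) :
    V a * bigW A U V m w =
      A * V a + if a = 0 then 0 else (w (a - 1) : ℂ) • V (a - 1) := by
  unfold bigW
  rw [mul_add, mul_sum, mul_sum]
  congr 1
  · rw [sum_eq_single a]
    · rw [← mul_assoc, ← mul_assoc, h.VU a (by omega) a (by omega), if_pos rfl, hPA]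
    · intro b hb hba
      rw [mem_range] at hb
      rw [← mul_assoc, ← mul_assoc, h.VU a (by omega) b hb, if_neg hba.symm, zero_mul, zero_mul]
    · intro h'
      exact absurd (mem_range.2 (by omega)) h'
  · split_ifs with h0
    · apply sum_eq_zero
      intro b hb
      rw [mem_range] at hb
      rw [mul_smul_comm, ← mul_assoc, h.VU a (by omega) (b + 1) (by omega),
        if_neg (by omega), zero_mul, smul_zero]
    · rw [sum_eq_single (a - 1)]
      · rw [mul_smul_comm, ← mul_assoc, Nat.sub_add_cancel (by omega),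
          h.VU a (by omega) a (by omega), if_pos rfl, h.PV _ (by omega)]
      · intro b hb hba
        rw [mem_range] at hb
        rw [mul_smul_comm, ← mul_assoc, h.VU a (by omega) (b + 1) (by omega),
          if_neg (by omega), zero_mul, smul_zero]
      · intro h'
        exact absurd (mem_range.2 (by omega)) h'

lemma bigW_U (h : Cop p P U V (m + 1)) (hAP : A * P = A) {b : ℕ} (hb : b ≤ m) :
    bigW A U V m w * U b =
      U b * A + if b < m then (w b : ℂ) • U (b + 1) else 0 := by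
  unfold bigW
  rw [add_mul, sum_mul, sum_mul]
  congr 1
  · rw [sum_eq_single b]
    · rw [mul_assoc, h.VU b (by omega) b (by omega), if_pos rfl, mul_assoc, hAP]
    · intro a ha hab
      rw [mem_range] at ha
      rw [mul_assoc, h.VU a ha b (by omega), if_neg hab, mul_zero]
    · intro h'
      exact absurd (mem_range.2 (by omega)) h'
  · split_ifs with h0
    · rw [sum_eq_single b]
      · rw [smul_mul_assoc, mul_assoc, h.VU b (by omega) b (by omega), if_pos rfl,
          h.UP _ (by omega)]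
      · intro a ha hab
        rw [mem_range] at ha
        rw [smul_mul_assoc, mul_assoc, h.VU a (by omega) b (by omega), if_neg hab, mul_zero,
          smul_zero]
      · intro h'
        exact absurd (mem_range.2 h0) h'
    · apply sum_eq_zero
      intro a ha
      rw [mem_range] at ha
      rw [smul_mul_assoc, mul_assoc, h.VU a (by omega) b (by omega), if_neg (by omega), mul_zero,
        smul_zero]

lemma rel_bigW (h : Cop p P U V (m + 1)) (hPA : P * A = A) (hAP : A * P = A)
    {S : E →L[ℂ] E} (hS : S * bigW A U V m w = bigW A U V m w * S) :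
    Rel A w m fun i j => if i ≤ m ∧ j ≤ m then V i * S * U j else 0 := by
  intro a b ha hb
  beta_reduce
  rw [if_pos (show a ≤ m ∧ b ≤ m from ⟨ha, hb.le⟩), if_pos (show a ≤ m ∧ b + 1 ≤ m from
    ⟨ha, by omega⟩), if_pos (show a - 1 ≤ m ∧ b ≤ m from ⟨by omega, hb.le⟩)]
  have h1 : V a * S * (bigW A U V m w * U b) = V a * bigW A U V m w * S * U b := by
    rw [← mul_assoc, mul_assoc (V a) S, hS, ← mul_assoc]
  rw [V_bigW h hPA ha, bigW_U h hAP hb.le, mul_add, add_mul, add_mul, if_pos hb,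
    mul_smul_comm] at h1
  have h3 : (if a = 0 then 0 else (w (a - 1) : ℂ) • V (a - 1)) * S * U b =
      if a = 0 then 0 else (w (a - 1) : ℂ) • (V (a - 1) * S * U b) := by
    split_ifs
    · rw [zero_mul, zero_mul]
    · rw [smul_mul_assoc, smul_mul_assoc]
  rw [h3] at h1
  have h4 : V a * S * (U b * A) = V a * S * U b * A := by rw [mul_assoc, mul_assoc, mul_assoc]
  have h5 : A * V a * S * U b = A * (V a * S * U b) := by rw [mul_assoc, mul_assoc, mul_assoc]
  rw [h4, h5] at h1
  rw [ad_apply]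
  have h6 : A * (V a * S * U b) = V a * S * U b * A +
      (w b : ℂ) • (V a * S * U (b + 1)) -
      (if a = 0 then 0 else (w (a - 1) : ℂ) • (V (a - 1) * S * U b)) := by
    rw [h1]
    abel
  rw [h6]
  abel

lemma norm_blkW_le (h : Cop p P U V (m + 1)) (hp : 0 < p) {S : E →L[ℂ] E} (hS : ‖S‖ ≤ 1)
    (a b : ℕ) : ‖if a ≤ m ∧ b ≤ m then V a * S * U b else 0‖ ≤ 1 := by
  split_ifs with hab
  · refine (norm_mul_le _ _).trans ?_
    have h1 : ‖V a * S‖ ≤ 1 := (norm_mul_le _ _).trans
      (mul_le_one₀ (h.norm_V' hp (by omega)) (norm_nonneg _) hS)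
    exact mul_le_one₀ h1 (norm_nonneg _) (h.norm_U' hp (by omega))
  · rw [norm_zero]
    exact zero_le_one

/-- **The coupled copies kill the pair of vectors.** -/
theorem bigW_HC (h : Cop p P U V (m + 1)) (hp : 0 < p) (hPA : P * A = A)
    (hAP : A * P = A) {K : ℕ} (hK : K ≤ m) {u : ℕ → E} {f : ℕ → StrongDual ℂ E} {η : ℝ}
    (hch : ∀ T : ℕ → ℕ → E →L[ℂ] E, (∀ i j, ‖T i j‖ ≤ 1) → Rel A w m T →
        ‖∑ a ∈ range (K + 1), ∑ b ∈ range (K + 1), f a (T a b (u b))‖ ≤ η) :
    HC (bigW A U V m w) (∑ b ∈ range (K + 1), U b (u b))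
      (∑ a ∈ range (K + 1), (f a).comp (V a)) η := by
  intro S hS hS1
  have h1 := hch (fun i j => if i ≤ m ∧ j ≤ m then V i * S * U j else 0)
    (fun i j => norm_blkW_le h hp hS1 i j) (rel_bigW h hPA hAP hS)
  refine le_trans (le_of_eq ?_) h1
  congr 1
  rw [_root_.sum_apply]
  refine sum_congr rfl fun a ha => ?_
  rw [mem_range] at ha
  rw [ContinuousLinearMap.comp_apply, map_sum, map_sum, map_sum]
  refine sum_congr rfl fun b hb => ?_
  rw [mem_range] at hb
  rw [if_pos ⟨by omega, by omega⟩]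
  rfl

lemma closeW_x (h : Cop p P U V (m + 1)) (hp : 0 < p) (hPA : P * A = A) (hAP : A * P = A)
    (hA : ‖A‖ ≤ 1) (hm : 0 < m) (hw0 : ∀ j, 0 ≤ w j) (hw1 : ∀ j, w j ≤ 1) {z : E} {ε : ℝ}
    (hV : ∀ i < m + 1, 0 < i → ‖V i z‖ ≤ ε) :
    ‖bigW A U V m w z - A z‖ ≤ 2 * (m + 1) * ε + w 0 * ‖z‖ := by
  obtain ⟨l, rfl⟩ : ∃ l, m = l + 1 := ⟨m - 1, by omega⟩
  have hε : 0 ≤ ε := (norm_nonneg _).trans (hV 1 (by omega) one_pos)
  have e1 : bigW A U V (l + 1) w z - A z = ∑ j ∈ range (l + 1), U (j + 1) (A (V (j + 1) z)) +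
      (∑ j ∈ range l, (w (j + 1) : ℂ) • U (j + 2) (V (j + 1) z) +
        (w 0 : ℂ) • U 1 (V 0 z)) := by
    have s2 : ∑ j ∈ range (l + 1), ((w j : ℂ) • (U (j + 1) * V j)) z =
        ∑ j ∈ range l, (w (j + 1) : ℂ) • U (j + 2) (V (j + 1) z) +
          (w 0 : ℂ) • U 1 (V 0 z) := by
      rw [sum_range_succ' _ l]
      rfl
    have s1 : ∑ j ∈ range (l + 1 + 1), (U j * A * V j) z =
        ∑ j ∈ range (l + 1), U (j + 1) (A (V (j + 1) z)) + A z := by
      have e2 : (U 0 * A * V 0) z = A z := by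
        rw [h.U0, h.V0, hPA, hAP]
      rw [sum_range_succ' _ (l + 1), e2]
      rfl
    unfold bigW
    rw [_root_.add_apply, _root_.sum_apply, _root_.sum_apply, s1, s2]
    abel
  have hnw : ∀ j, ‖(w j : ℂ)‖ = w j := fun j => by
    rw [Complex.norm_real, Real.norm_of_nonneg (hw0 j)]
  have h1 : ‖∑ j ∈ range (l + 1), U (j + 1) (A (V (j + 1) z))‖ ≤ (l + 1) * ε := by
    refine (norm_sum_le _ _).trans ?_
    refine (sum_le_sum (g := fun _ => ε) fun j hj => ?_).trans (le_of_eq (by simp))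
    rw [mem_range] at hj
    refine (h.norm_U hp (by omega) _).trans ?_
    refine (A.le_opNorm _).trans ((mul_le_of_le_one_left (norm_nonneg _) hA).trans ?_)
    exact hV _ (by omega) (by omega)
  have h2 : ‖∑ j ∈ range l, (w (j + 1) : ℂ) • U (j + 2) (V (j + 1) z)‖ ≤ (l + 1) * ε := by
    refine (norm_sum_le _ _).trans ?_
    refine (sum_le_sum (g := fun _ => ε) fun j hj => ?_).trans (le_of_eq_of_le (b := l * ε)
      (by simp) (by nlinarith))
    rw [mem_range] at hj
    rw [norm_smul, hnw]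
    refine (mul_le_of_le_one_left (norm_nonneg _) (hw1 _)).trans ?_
    exact (h.norm_U hp (by omega) _).trans (hV _ (by omega) (by omega))
  have h3 : ‖(w 0 : ℂ) • U 1 (V 0 z)‖ ≤ w 0 * ‖z‖ := by
    rw [norm_smul, hnw]
    exact mul_le_mul_of_nonneg_left
      ((h.norm_U hp (by omega) _).trans (h.norm_V hp (by omega) _)) (hw0 0)
  rw [e1]
  refine (norm_add_le _ _).trans ((add_le_add h1 ((norm_add_le _ _).trans
    (add_le_add h2 h3))).trans ?_)
  push_cast
  nlinarith

lemma closeW_y (h : Cop p P U V (m + 1)) (hp : 0 < p) (hPA : P * A = A) (hAP : A * P = A)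
    (hA : ‖A‖ ≤ 1) (hm : 0 < m) (hw0 : ∀ j, 0 ≤ w j) (hw1 : ∀ j, w j ≤ 1)
    {y : StrongDual ℂ E} {ε : ℝ}
    (hU : ∀ i < m + 1, 0 < i → ‖y.comp (U i)‖ ≤ ε) :
    ‖y.comp (bigW A U V m w) - y.comp A‖ ≤ 2 * (m + 1) * ε := by
  have hε : 0 ≤ ε := (norm_nonneg _).trans (hU 1 (by omega) one_pos)
  have e1 : y.comp (bigW A U V m w) - y.comp A =
      ∑ j ∈ range m, (y.comp (U (j + 1))).comp (A * V (j + 1)) +
      ∑ j ∈ range m, (w j : ℂ) • (y.comp (U (j + 1))).comp (V j) := by
    have e2 : (U 0 * A * V 0) = A := by rw [h.U0, h.V0, hPA, hAP]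
    unfold bigW
    rw [sum_range_succ' _ m, e2]
    ext z
    simp only [_root_.sub_apply, _root_.add_apply, _root_.sum_apply, _root_.smul_apply,
      ContinuousLinearMap.comp_apply, map_add, map_sum, map_smul]
    have e3 : ∀ k, (U (k + 1) * A * V (k + 1)) z = U (k + 1) ((A * V (k + 1)) z) := fun _ => rfl
    have e4 : ∀ k, (U (k + 1) * V k) z = U (k + 1) (V k z) := fun _ => rfl
    simp only [e3, e4]
    ring
  have hnw : ∀ j, ‖(w j : ℂ)‖ = w j := fun j => by
    rw [Complex.norm_real, Real.norm_of_nonneg (hw0 j)]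
  have h1 : ‖∑ j ∈ range m, (y.comp (U (j + 1))).comp (A * V (j + 1))‖ ≤ m * ε := by
    refine (norm_sum_le _ _).trans ?_
    refine (sum_le_sum (g := fun _ => ε) fun j hj => ?_).trans (le_of_eq (by simp))
    rw [mem_range] at hj
    refine (ContinuousLinearMap.opNorm_comp_le _ _).trans ?_
    have a1 : ‖A * V (j + 1)‖ ≤ 1 := (norm_mul_le _ _).trans
      (mul_le_one₀ hA (norm_nonneg _) (h.norm_V' hp (by omega)))
    exact (mul_le_of_le_one_right (norm_nonneg _) a1).trans (hU _ (by omega) (by omega))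
  have h2 : ‖∑ j ∈ range m, (w j : ℂ) • (y.comp (U (j + 1))).comp (V j)‖ ≤ m * ε := by
    refine (norm_sum_le _ _).trans ?_
    refine (sum_le_sum (g := fun _ => ε) fun j hj => ?_).trans (le_of_eq (by simp))
    rw [mem_range] at hj
    rw [norm_smul, hnw]
    refine (mul_le_of_le_one_left (norm_nonneg _) (hw1 _)).trans ?_
    refine (ContinuousLinearMap.opNorm_comp_le _ _).trans ?_
    exact (mul_le_of_le_one_right (norm_nonneg _) (h.norm_V' hp (by omega))).trans
      (hU _ (by omega) (by omega))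
  rw [e1]
  refine (norm_add_le _ _).trans ((add_le_add h1 h2).trans ?_)
  nlinarith

end

end Run7.h667.NG
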