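import Pool.Agent.Run7.h667.NG.Diff

/-!
# Chains of coupled copies of a nilpotent operator
-/

set_option autoImplicit false
open Finset Filter Topology
open Run7.h667.TC

namespace Run7.h667.NG

variable {E : Type*} [NormedAddCommGroup E] [NormedSpace ℂ E]

/-- the derivation `X ↦ A X - X A` -/
noncomputable def ad (A : E →L[ℂ] E) : Module.End ℂ (E →L[ℂ] E) :=
  LinearMap.mulLeft ℂ A - LinearMap.mulRight ℂ A

lemma ad_apply (A X : E →L[ℂ] E) : ad A X = A * X - X * A := rfl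

lemma exists_ad_pow {A : E →L[ℂ] E} {n : ℕ} (hA : A ^ n = 0) : ∃ D : ℕ, (ad A) ^ D = 0 := by
  have hc : Commute (LinearMap.mulLeft ℂ A) (LinearMap.mulRight ℂ A) :=
    LinearMap.commute_mulLeft_right A A
  have h1 : IsNilpotent (LinearMap.mulLeft ℂ A) := by
    refine ⟨n, ?_⟩
    rw [LinearMap.pow_mulLeft, hA, LinearMap.mulLeft_zero_eq_zero]
  have h2 : IsNilpotent (LinearMap.mulRight ℂ A) := by
    refine ⟨n, ?_⟩
    rw [LinearMap.pow_mulRight, hA, LinearMap.mulRight_zero_eq_zero]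
  exact hc.isNilpotent_sub h1 h2

section

variable {a : Module.End ℂ (E →L[ℂ] E)} {m : ℕ} {F : ℕ → ℕ → E →L[ℂ] E}

lemma diag_dif (hrel : ∀ i j, i ≤ m → j < m → a (F i j) = F i (j + 1) -
    (if i = 0 then 0 else F (i - 1) j)) (r : ℕ) : ∀ k j, j + k + r ≤ m →
      (dif^[r] (fun j => F (j + k) j)) j = (a ^ r) (F (j + k + r) j) := by
  induction r with
  | zero => intro k j _; rfl
  | succ r ih =>
    intro k j h
    rw [dif_succ, ih k (j + 1) (by omega), ih k j (by omega), ← map_sub]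
    have h1 := hrel (j + k + r + 1) j (by omega) (by omega)
    rw [if_neg (by omega), Nat.add_sub_cancel] at h1
    have e : j + 1 + k + r = j + k + r + 1 := by ring
    rw [e, ← h1, pow_succ]
    rfl

lemma up_dif (hrel : ∀ i j, i ≤ m → j < m → a (F i j) = F i (j + 1) -
    (if i = 0 then 0 else F (i - 1) j)) (k r : ℕ) : ∀ i, i + r ≤ m → i + r + k < m →
      (dif^[r + 1] (fun i => if i = 0 then 0 else F (i - 1) (i + k))) i =
        (a ^ (r + 1)) (F (i + r) (i + k)) := by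
  induction r with
  | zero =>
    intro i h1 h2
    have h3 := hrel i (i + k) (by omega) (by omega)
    rw [zero_add, pow_one, add_zero, h3]
    show (if i + 1 = 0 then 0 else F (i + 1 - 1) (i + 1 + k)) - _ = _
    rw [if_neg (Nat.succ_ne_zero i), Nat.add_sub_cancel, show i + 1 + k = i + k + 1 by ring]
  | succ r ih =>
    intro i h1 h2
    rw [dif_succ, ih (i + 1) (by omega) (by omega), ih i (by omega) (by omega), ← map_sub]
    have h3 := hrel (i + r + 1) (i + k) (by omega) (by omega)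
    rw [if_neg (by omega), Nat.add_sub_cancel] at h3
    have e : i + 1 + r = i + r + 1 := by ring
    have e2 : i + 1 + k = i + k + 1 := by ring
    have e3 : i + (r + 1) = i + r + 1 := by ring
    rw [e, e2, ← h3, e3, pow_succ a (r + 1)]
    rfl

end

/-- the weights -/
noncomputable def wl (L : ℕ) (δ ω : ℝ) (j : ℕ) : ℝ := if j < L then δ else ω

/-- the products of the weights -/
noncomputable def lam (w : ℕ → ℝ) (j : ℕ) : ℝ := ∏ l ∈ range j, w l

lemma lam_pos {w : ℕ → ℝ} (hw : ∀ j, 0 < w j) (j : ℕ) : 0 < lam w j := prod_pos fun i _ => hw i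

lemma lam_succ (w : ℕ → ℝ) (j : ℕ) : lam w (j + 1) = lam w j * w j := prod_range_succ _ _

/-- the relations for the blocks of an operator which commutes with the big operator -/
def Rel (A : E →L[ℂ] E) (w : ℕ → ℝ) (m : ℕ) (T : ℕ → ℕ → E →L[ℂ] E) : Prop :=
  ∀ i j, i ≤ m → j < m → ad A (T i j) = (w j : ℂ) • T i (j + 1) -
    (if i = 0 then 0 else (w (i - 1) : ℂ) • T (i - 1) j)

lemma Rel.unit {A : E →L[ℂ] E} {w : ℕ → ℝ} {m : ℕ} {T : ℕ → ℕ → E →L[ℂ] E} (h : Rel A w m T)
    (hw : ∀ j, 0 < w j) : ∀ i j, i ≤ m → j < m →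
      ad A (((lam w j / lam w i : ℝ) : ℂ) • T i j) = ((lam w (j + 1) / lam w i : ℝ) : ℂ) •
        T i (j + 1) - (if i = 0 then 0 else ((lam w j / lam w (i - 1) : ℝ) : ℂ) • T (i - 1) j) := by
  intro i j hi hj
  rw [map_smul, h i j hi hj, smul_sub, smul_smul, ← Complex.ofReal_mul]
  have h1 : lam w j / lam w i * w j = lam w (j + 1) / lam w i := by
    rw [lam_succ]; ring
  rw [h1]
  congr 1
  rcases i with _ | i
  · rw [if_pos rfl, if_pos rfl, smul_zero]
  · rw [if_neg (Nat.succ_ne_zero i), if_neg (Nat.succ_ne_zero i), Nat.add_sub_cancel, smul_smul,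
      ← Complex.ofReal_mul]
    have h2 : lam w j / lam w (i + 1) * w i = lam w j / lam w i := by
      rw [lam_succ]
      have := (hw i).ne'
      have := (lam_pos hw i).ne'
      field_simp
    rw [h2]

lemma dif_congr {V : Type*} [AddCommGroup V] {g g' : ℕ → V} (r : ℕ) : ∀ i,
    (∀ j, i ≤ j → j ≤ i + r → g j = g' j) → (dif^[r] g) i = (dif^[r] g') i := by
  induction r with
  | zero => intro i h; exact h i le_rfl le_rfl
  | succ r ih =>
    intro i h
    rw [dif_succ, dif_succ, ih (i + 1) fun j hj hj' => h j (by omega) (by omega),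
      ih i fun j hj hj' => h j hj (by omega)]

lemma dif_smul {V : Type*} [AddCommGroup V] [Module ℂ V] (c : ℂ) (g : ℕ → V) (r i : ℕ) :
    (dif^[r] fun j => c • g j) i = c • (dif^[r] g) i := by
  induction r generalizing i with
  | zero => rfl
  | succ r ih => rw [dif_succ, dif_succ, ih, ih, smul_sub]

section lam

variable {L : ℕ} {δ ω : ℝ}

lemma lam_le {j : ℕ} (hj : j ≤ L) : lam (wl L δ ω) j = δ ^ j := by
  induction j with
  | zero => simp [lam]
  | succ j ih =>
    rw [lam_succ, ih (by omega), wl, if_pos (by omega), pow_succ]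

lemma lam_ge (i : ℕ) : lam (wl L δ ω) (L + i) = δ ^ L * ω ^ i := by
  induction i with
  | zero => rw [add_zero, lam_le le_rfl, pow_zero, mul_one]
  | succ i ih =>
    rw [← add_assoc, lam_succ, ih, wl, if_neg (by omega), pow_succ, mul_assoc]

lemma wl_pos (hδ : 0 < δ) (hω : 0 < ω) (j : ℕ) : 0 < wl L δ ω j := by
  unfold wl
  split_ifs <;> assumption

end lam

/-- the lower blocks are small -/
lemma low_small {A : E →L[ℂ] E} {D : ℕ} (hD : (ad A) ^ D = 0) {K L m : ℕ} {δ ω : ℝ} (hδ : 0 < δ)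
    (hω : 0 < ω) (hδω : δ ≤ ω) (hm : L + D + K ≤ m) {T : ℕ → ℕ → E →L[ℂ] E}
    (hT : ∀ i j, ‖T i j‖ ≤ 1) (hrel : Rel A (wl L δ ω) m T) {j k : ℕ} (hk : 0 < k)
    (hkK : k ≤ K) (hjL : j + k ≤ L) : ‖T (j + k) j‖ ≤ δ / ω * (2 ^ D) ^ L := by
  set w := wl L δ ω with hw
  have hwp : ∀ j, 0 < w j := wl_pos hδ hω
  have hunit := hrel.unit hwp
  set F : ℕ → ℕ → E →L[ℂ] E := fun i j => ((lam w j / lam w i : ℝ) : ℂ) • T i j with hF
  have hFn : ∀ i j, ‖F i j‖ ≤ lam w j / lam w i := by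
    intro i j
    have h1 := lam_pos hwp i
    have h2 := lam_pos hwp j
    simp only [hF]
    rw [norm_smul, Complex.norm_real, Real.norm_of_nonneg (by positivity)]
    exact mul_le_of_le_one_right (by positivity) (hT i j)
  have h1 : ∀ j < L, (dif^[D] (fun j => F (j + k) j)) j = 0 := by
    intro j hj
    rw [diag_dif (a := ad A) (m := m) (F := F) hunit D k j (by omega), hD]
    rfl
  have h2 : ∀ j, L ≤ j → j < L + D → ‖F (j + k) j‖ ≤ (ω ^ k)⁻¹ := by
    intro j hj _
    refine (hFn _ _).trans (le_of_eq ?_)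
    obtain ⟨i, rfl⟩ := Nat.exists_eq_add_of_le hj
    rw [hw, lam_ge, add_assoc, lam_ge, pow_add]
    field_simp
  have h3 := back (D := D) (L := L) (by positivity) h1 h2 L j (by omega) (by omega)
  have h4 : T (j + k) j = ((δ ^ k : ℝ) : ℂ) • F (j + k) j := by
    simp only [hF]
    rw [smul_smul, ← Complex.ofReal_mul, hw, lam_le (by omega), lam_le hjL, pow_add]
    have : δ ^ k * (δ ^ j / (δ ^ j * δ ^ k)) = 1 := by field_simp
    rw [this, Complex.ofReal_one, one_smul]
  rw [h4, norm_smul, Complex.norm_real, Real.norm_of_nonneg (by positivity)]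
  have h5 : (δ / ω) ^ k ≤ δ / ω := by
    have h6 : δ / ω ≤ 1 := by rw [div_le_one hω]; exact hδω
    calc (δ / ω) ^ k ≤ (δ / ω) ^ 1 := pow_le_pow_of_le_one (by positivity) h6 hk
      _ = δ / ω := pow_one _
  calc δ ^ k * ‖F (j + k) j‖ ≤ δ ^ k * ((2 ^ D) ^ L * (ω ^ k)⁻¹) :=
        mul_le_mul_of_nonneg_left h3 (by positivity)
    _ = (δ / ω) ^ k * (2 ^ D) ^ L := by rw [div_pow]; field_simp
    _ ≤ _ := mul_le_mul_of_nonneg_right h5 (by positivity)

/-- **Chains.** -/
theorem chain (hE : Refl E) {A : E →L[ℂ] E} {D : ℕ} (hD : (ad A) ^ D = 0) (K : ℕ) (u : ℕ → E)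
    (f : ℕ → StrongDual ℂ E) {η η' : ℝ} (hη : η < η')
    (h : ∀ R : E →L[ℂ] E, R * A = A * R → ‖R‖ ≤ 1 → ‖∑ a ∈ range (K + 1), f a (R (u a))‖ ≤ η) :
    ∃ L m : ℕ, K < L ∧ L ≤ m ∧ ∀ ω : ℝ, 0 < ω → ω ≤ 1 → ∃ δ0 : ℝ, 0 < δ0 ∧ δ0 ≤ ω ∧
      ∀ δ : ℝ, 0 < δ → δ ≤ δ0 → ∀ T : ℕ → ℕ → E →L[ℂ] E, (∀ i j, ‖T i j‖ ≤ 1) →
        Rel A (wl L δ ω) m T →
        ‖∑ a ∈ range (K + 1), ∑ b ∈ range (K + 1), f a (T a b (u b))‖ ≤ η' := by
  by_contra hcon
  push Not at hcon
  have h1 : ∀ n : ℕ, ∃ (ω δ : ℝ) (T : ℕ → ℕ → E →L[ℂ] E), 0 < ω ∧ ω ≤ 1 ∧ 0 < δ ∧ δ ≤ ω ∧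
      δ / ω * (2 ^ D) ^ (K + 1 + n) ≤ 1 / ((n : ℝ) + 1) ∧ (∀ i j, ‖T i j‖ ≤ 1) ∧
      Rel A (wl (K + 1 + n) δ ω) (K + 1 + n + D + K) T ∧
      η' < ‖∑ a ∈ range (K + 1), ∑ b ∈ range (K + 1), f a (T a b (u b))‖ := by
    intro n
    obtain ⟨ω, hω, hω1, h2⟩ := hcon (K + 1 + n) (K + 1 + n + D + K) (by omega) (by omega)
    have h2D : (1 : ℝ) ≤ (2 ^ D) ^ (K + 1 + n) := one_le_pow₀ (one_le_pow₀ one_le_two)
    set δ0 : ℝ := ω * (((2 ^ D) ^ (K + 1 + n))⁻¹ * (1 / ((n : ℝ) + 1))) with hδ0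
    have hn : (0 : ℝ) < (n : ℝ) + 1 := by positivity
    have h3 : 1 / ((n : ℝ) + 1) ≤ 1 := by
      rw [div_le_one hn]
      have : (0 : ℝ) ≤ n := Nat.cast_nonneg n
      linarith
    have h4 : (((2 : ℝ) ^ D) ^ (K + 1 + n))⁻¹ ≤ 1 := inv_le_one_of_one_le₀ h2D
    have h5 : δ0 ≤ ω := by
      rw [hδ0]
      refine mul_le_of_le_one_right hω.le ?_
      exact mul_le_one₀ h4 (by positivity) h3
    obtain ⟨δ, hδ, hδ', T, hT, hrel, hbig⟩ := h2 δ0 (by positivity) h5
    refine ⟨ω, δ, T, hω, hω1, hδ, hδ'.trans h5, ?_, hT, hrel, hbig⟩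
    calc δ / ω * (2 ^ D) ^ (K + 1 + n) ≤ δ0 / ω * (2 ^ D) ^ (K + 1 + n) := by gcongr
      _ = 1 / ((n : ℝ) + 1) := by
          rw [hδ0]
          field_simp
  choose ω δ T hω hω1 hδ hδω hsmall hT hrel hbig using h1
  choose R hR1 hR2 using fun a b => exists_limit_op hE (fun n => T n a b) (fun n => hT n a b)
    (hyperfilter ℕ)
  have hU : (hyperfilter ℕ : Filter ℕ) ≤ atTop := Nat.hyperfilter_le_atTop
  have hone : Tendsto (fun n : ℕ => 1 / ((n : ℝ) + 1)) (hyperfilter ℕ) (𝓝 0) :=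
    tendsto_one_div_add_atTop_nhds_zero_nat.mono_left hU
  have hδ1 : ∀ n, δ n ≤ 1 / ((n : ℝ) + 1) := by
    intro n
    have h2D : (1 : ℝ) ≤ (2 ^ D) ^ (K + 1 + n) := one_le_pow₀ (one_le_pow₀ one_le_two)
    refine le_trans ?_ (hsmall n)
    have h2 : δ n ≤ δ n / ω n := by
      rw [le_div_iff₀ (hω n)]
      exact mul_le_of_le_one_right (hδ n).le (hω1 n)
    have h3 : 0 < δ n / ω n := div_pos (hδ n) (hω n)
    nlinarith
  have hδt : Tendsto δ (hyperfilter ℕ) (𝓝 0) :=
    squeeze_zero (fun n => (hδ n).le) hδ1 hone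
  -- the matrix elements
  let φ : StrongDual ℂ E → E → (E →L[ℂ] E) →+ ℂ := fun f0 u0 =>
    AddMonoidHom.mk' (fun X => f0 (X u0)) fun X Y => by rw [_root_.add_apply, map_add]
  have hφ : ∀ f0 u0 X, φ f0 u0 X = f0 (X u0) := fun _ _ _ => rfl
  have hφn : ∀ f0 u0 X, ‖X‖ ≤ 1 → ‖φ f0 u0 X‖ ≤ ‖f0‖ * ‖u0‖ := by
    intro f0 u0 X hX
    rw [hφ]
    refine (f0.le_opNorm _).trans (mul_le_mul_of_nonneg_left ?_ (norm_nonneg _))
    exact (X.le_opNorm _).trans (mul_le_of_le_one_left (norm_nonneg _) hX)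
  have hφl : ∀ f0 u0 a b, Tendsto (fun n => φ f0 u0 (T n a b)) (hyperfilter ℕ)
      (𝓝 (φ f0 u0 (R a b))) := fun f0 u0 a b => hR2 a b u0 f0
  have hev : ∀ N : ℕ, ∀ᶠ n in (hyperfilter ℕ : Filter ℕ), N ≤ n := fun N =>
    hU (eventually_ge_atTop N)
  -- unit weights
  have hwp : ∀ n j, 0 < wl (K + 1 + n) (δ n) (ω n) j := fun n => wl_pos (hδ n) (hω n)
  let F : ℕ → ℕ → ℕ → E →L[ℂ] E := fun n i j => ((lam (wl (K + 1 + n) (δ n) (ω n)) j /
    lam (wl (K + 1 + n) (δ n) (ω n)) i : ℝ) : ℂ) • T n i j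
  have hF : ∀ n i j, i ≤ K + 1 + n + D + K → j < K + 1 + n + D + K → ad A (F n i j) =
      F n i (j + 1) - (if i = 0 then 0 else F n (i - 1) j) := fun n => (hrel n).unit (hwp n)
  -- the diagonal
  have hdiag : ∀ f0 u0 j, φ f0 u0 (R j j) = φ f0 u0 (R 0 0) := by
    intro f0 u0
    refine const_of_dif D (fun j => φ f0 u0 (R j j)) (‖f0‖ * ‖u0‖)
      (fun j => hφn _ _ _ (hR1 j j)) fun j => ?_
    have h2 := dif_tendsto (l := (hyperfilter ℕ : Filter ℕ))
      (s := fun n j => φ f0 u0 (T n j j)) (s0 := fun j => φ f0 u0 (R j j))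
      (fun j => hφl f0 u0 j j) D j
    refine tendsto_nhds_unique h2 (tendsto_const_nhds.congr' ?_)
    filter_upwards [hev j] with n hn
    have h3 := diag_dif (a := ad A) (m := K + 1 + n + D + K) (F := F n) (hF n) D 0 j (by omega)
    rw [hD] at h3
    have h4 : (fun j => F n (j + 0) j) = fun j => T n j j := by
      funext j
      show ((lam _ j / lam _ (j + 0) : ℝ) : ℂ) • T n (j + 0) j = T n j j
      rw [add_zero, div_self (lam_pos (hwp n) j).ne', Complex.ofReal_one, one_smul]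
    rw [h4] at h3
    have h5 := dif_map (φ f0 u0) (fun j => T n j j) D j
    rw [h5, h3]
    exact (map_zero (φ f0 u0)).symm
  -- above the diagonal
  have hup : ∀ f0 u0 i k, φ f0 u0 (R i (i + 1 + k)) = 0 := by
    intro f0 u0 i k
    have hc := const_of_dif (D + 1) (fun i => φ f0 u0 (if i = 0 then 0 else R (i - 1) (i + k)))
      (‖f0‖ * ‖u0‖) (fun i => by
        refine hφn _ _ _ ?_
        split_ifs
        · rw [norm_zero]; exact zero_le_one
        · exact hR1 _ _) (fun i => by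
      have h2 := dif_tendsto (l := (hyperfilter ℕ : Filter ℕ))
        (s := fun n i => φ f0 u0 (if i = 0 then 0 else T n (i - 1) (i + k)))
        (s0 := fun i => φ f0 u0 (if i = 0 then 0 else R (i - 1) (i + k)))
        (fun i => by
          by_cases hi : i = 0
          · simp only [if_pos hi]; exact tendsto_const_nhds
          · simp only [if_neg hi]; exact hφl f0 u0 _ _) (D + 1) i
      refine tendsto_nhds_unique h2 (tendsto_const_nhds.congr' ?_)
      filter_upwards [hev (i + D + k + 1)] with n hn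
      have h3 := up_dif (a := ad A) (m := K + 1 + n + D + K) (F := F n) (hF n) k D i (by omega)
        (by omega)
      rw [pow_succ, hD, zero_mul] at h3
      have h4 : (dif^[D + 1] (fun i => if i = 0 then 0 else F n (i - 1) (i + k))) i =
          (((δ n) ^ (k + 1) : ℝ) : ℂ) • (dif^[D + 1] (fun i => if i = 0 then 0 else
            T n (i - 1) (i + k))) i := by
        rw [← dif_smul]
        refine dif_congr (D + 1) i fun j hj hj' => ?_
        by_cases hj0 : j = 0
        · rw [if_pos hj0, if_pos hj0, smul_zero]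
        · rw [if_neg hj0, if_neg hj0]
          show ((lam _ (j + k) / lam _ (j - 1) : ℝ) : ℂ) • T n (j - 1) (j + k) = _
          rw [lam_le (by omega), lam_le (by omega)]
          congr 2
          have e : j + k = (j - 1) + (k + 1) := by omega
          have hp := (pow_pos (hδ n) (j - 1)).ne'
          rw [e, pow_add]
          field_simp
      rw [h4] at h3
      have hδk : (((δ n) ^ (k + 1) : ℝ) : ℂ) ≠ 0 := by
        rw [Ne, Complex.ofReal_eq_zero]
        exact (pow_pos (hδ n) _).ne'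
      have h5 : (dif^[D + 1] (fun i => if i = 0 then 0 else T n (i - 1) (i + k))) i = 0 := by
        rcases smul_eq_zero.1 h3 with h6 | h6
        · exact absurd h6 hδk
        · exact h6
      have h6 := dif_map (φ f0 u0) (fun i => if i = 0 then 0 else T n (i - 1) (i + k)) (D + 1) i
      rw [h6, h5]
      exact (map_zero (φ f0 u0)).symm) (i + 1)
    simp only [Nat.succ_ne_zero, if_false, if_true, Nat.add_sub_cancel] at hc
    rw [hc]
    exact map_zero (φ f0 u0)
  -- below the diagonal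
  have hlow : ∀ f0 u0 j k, 0 < k → j + k ≤ K → φ f0 u0 (R (j + k) j) = 0 := by
    intro f0 u0 j k hk hjk
    refine tendsto_nhds_unique (hφl f0 u0 (j + k) j) ?_
    refine squeeze_zero_norm (a := fun n : ℕ => ‖f0‖ * ‖u0‖ * (1 / ((n : ℝ) + 1))) ?_ ?_
    · intro n
      rw [hφ]
      have h2 : ‖T n (j + k) j‖ ≤ 1 / ((n : ℝ) + 1) :=
        (low_small hD (K := K) (hδ n) (hω n) (hδω n) le_rfl (hT n) (hrel n) hk (by omega)
          (by omega)).trans (hsmall n)
      have h3 : ‖T n (j + k) j u0‖ ≤ 1 / ((n : ℝ) + 1) * ‖u0‖ :=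
        ((T n (j + k) j).le_opNorm _).trans (mul_le_mul_of_nonneg_right h2 (norm_nonneg _))
      refine (f0.le_opNorm _).trans ((mul_le_mul_of_nonneg_left h3 (norm_nonneg _)).trans
        (le_of_eq ?_))
      ring
    · have := hone.const_mul (‖f0‖ * ‖u0‖)
      rwa [mul_zero] at this
  -- the limit commutes with `A`
  have hcomm : R 0 0 * A = A * R 0 0 := by
    have h4 : ∀ (u0 : E) (f0 : StrongDual ℂ E), f0 ((ad A (R 0 0)) u0) = 0 := by
      intro u0 f0
      have h5 : Tendsto (fun n => f0 ((ad A (T n 0 0)) u0)) (hyperfilter ℕ)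
          (𝓝 (f0 ((ad A (R 0 0)) u0))) := by
        have h6 := hR2 0 0 u0 (f0.comp A)
        have h7 := hR2 0 0 (A u0) f0
        have h8 := h6.sub h7
        have e : ∀ X : E →L[ℂ] E, f0 ((ad A X) u0) = (f0.comp A) (X u0) - f0 (X (A u0)) := by
          intro X
          rw [ad_apply, _root_.sub_apply, map_sub]
          rfl
        simp only [e]
        exact h8
      refine tendsto_nhds_unique h5 ?_
      refine squeeze_zero_norm (a := fun n : ℕ => ‖f0‖ * ‖u0‖ * δ n) ?_ ?_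
      · intro n
        have h6 := hrel n 0 0 (Nat.zero_le _) (by omega)
        rw [if_pos rfl, sub_zero, wl, if_pos (by omega)] at h6
        rw [h6]
        have h7 : ‖((δ n : ℂ) • T n 0 (0 + 1)) u0‖ ≤ δ n * ‖u0‖ := by
          rw [_root_.smul_apply, norm_smul, Complex.norm_real, Real.norm_of_nonneg (hδ n).le]
          refine mul_le_mul_of_nonneg_left ?_ (hδ n).le
          exact ((T n 0 (0 + 1)).le_opNorm _).trans
            (mul_le_of_le_one_left (norm_nonneg _) (hT n _ _))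
        refine (f0.le_opNorm _).trans ((mul_le_mul_of_nonneg_left h7 (norm_nonneg _)).trans
          (le_of_eq ?_))
        ring
      · have := hδt.const_mul (‖f0‖ * ‖u0‖)
        rwa [mul_zero] at this
    have h5 : ad A (R 0 0) = 0 := by
      ext u0
      by_contra hne
      obtain ⟨g, hg⟩ := SeparatingDual.exists_ne_zero (R := ℂ) hne
      exact hg (h4 u0 g)
    rw [ad_apply, sub_eq_zero] at h5
    exact h5.symm
  -- conclusion
  have hlim : Tendsto (fun n => ∑ a ∈ range (K + 1), ∑ b ∈ range (K + 1), f a (T n a b (u b)))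
      (hyperfilter ℕ) (𝓝 (∑ a ∈ range (K + 1), f a (R 0 0 (u a)))) := by
    have h2 : ∑ a ∈ range (K + 1), f a (R 0 0 (u a)) =
        ∑ a ∈ range (K + 1), ∑ b ∈ range (K + 1), f a (R a b (u b)) := by
      refine sum_congr rfl fun a ha => ?_
      rw [mem_range] at ha
      rw [sum_eq_single a]
      · exact (hdiag (f a) (u a) a).symm
      · intro b hb hba
        rw [mem_range] at hb
        rcases lt_or_gt_of_ne hba with hlt | hlt
        · obtain ⟨k, rfl⟩ := Nat.exists_eq_add_of_lt hlt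
          exact hlow (f _) (u b) b (k + 1) (by omega) (by omega)
        · obtain ⟨k, rfl⟩ := Nat.exists_eq_add_of_lt hlt
          have := hup (f a) (u (a + k + 1)) a k
          rwa [show a + 1 + k = a + k + 1 by ring] at this
      · intro h'
        exact absurd (mem_range.2 ha) h'
    rw [h2]
    exact tendsto_finsetSum _ fun a _ => tendsto_finsetSum _ fun b _ => hφl (f a) (u b) a b
  have h2 := ge_of_tendsto hlim.norm (Eventually.of_forall fun n => (hbig n).le)
  have h3 := h (R 0 0) hcomm (hR1 0 0)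
  linarith

end Run7.h667.NG
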