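import Pool.Agent.Run7.h667.NG.LpDy

/-!
# Operators on `L_p([0,1]; Y)` which preserve a cone
-/

set_option autoImplicit false
open Finset Filter Topology TopologicalSpace MeasureTheory
open scoped ENNReal

namespace Run7.h667.NG

variable {P : ℝ≥0∞} [hP : Fact (1 ≤ P)] {Y : Type} [NormedAddCommGroup Y] [NormedSpace ℂ Y]

/-- closed convex cones -/
structure CCone (C : Set Y) : Prop where
  closed : IsClosed C
  zero : (0 : Y) ∈ C
  add : ∀ a ∈ C, ∀ b ∈ C, a + b ∈ C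
  smul : ∀ r : ℝ, 0 ≤ r → ∀ a ∈ C, (r : ℂ) • a ∈ C

/-- the operators which preserve the functions with values in the cone -/
def PosC (P : ℝ≥0∞) [Fact (1 ≤ P)] (C : Set Y) : Set (Lp Y P mu →L[ℂ] Lp Y P mu) :=
  {T | ∀ x : Lp Y P mu, (∀ᵐ t ∂mu, x t ∈ C) → ∀ᵐ t ∂mu, T x t ∈ C}

lemma CCone.kc {C : Set Y} (hC : CCone C) : KC (PosC P C) := by
  refine ⟨?_, ?_, ?_, ?_, ?_⟩
  · intro x _
    filter_upwards [Lp.coeFn_zero Y P mu] with t ht
    show (0 : Lp Y P mu) t ∈ C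
    rw [ht]
    exact hC.zero
  · intro x hx
    exact hx
  · intro S T hS hT x hx
    filter_upwards [hS x hx, hT x hx, Lp.coeFn_add (S x) (T x)] with t h1 h2 h3
    show (S x + T x : Lp Y P mu) t ∈ C
    rw [h3]
    exact hC.add _ h1 _ h2
  · intro S T hS hT x hx
    exact hS _ (hT x hx)
  · intro r T hr hT x hx
    filter_upwards [hT x hx, Lp.coeFn_smul (r : ℂ) (T x)] with t h1 h3
    show ((r : ℂ) • T x : Lp Y P mu) t ∈ C
    rw [h3]
    exact hC.smul r hr _ h1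

omit [NormedSpace ℂ Y] in
lemma cone_lim {C : Set Y} (hC : IsClosed C) {u : ℕ → Lp Y P mu} {v : Lp Y P mu}
    (hu : ∀ n, ∀ᵐ t ∂mu, u n t ∈ C) (h : Tendsto u atTop (𝓝 v)) : ∀ᵐ t ∂mu, v t ∈ C := by
  obtain ⟨ns, -, hns⟩ := (tendstoInMeasure_of_tendsto_Lp h).exists_seq_tendsto_ae
  have h1 : ∀ᵐ t ∂mu, ∀ n, u n t ∈ C := ae_all_iff.2 hu
  filter_upwards [hns, h1] with t h2 h3
  exact hC.mem_of_tendsto h2 (Eventually.of_forall fun n => h3 _)

lemma CCone.sclosed {C : Set Y} (hC : CCone C) (w : ℕ → Lp Y P mu →L[ℂ] Lp Y P mu)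
    (T0 : Lp Y P mu →L[ℂ] Lp Y P mu) (hw : ∀ m, w m ∈ PosC P C)
    (h : ∀ x, Tendsto (fun m => w m x) atTop (𝓝 (T0 x))) : T0 ∈ PosC P C :=
  fun x hx => cone_lim hC.closed (fun n => hw n x hx) (h x)

lemma pos_Vl {C : Set Y} (hC : CCone C) {b : ℕ} (hb : b < 2) (x : Lp Y P mu)
    (hx : ∀ᵐ t ∂mu, x t ∈ C) : ∀ᵐ t ∂mu, Vl P Y b hb x t ∈ C := by
  have h1 := (qmp_sg hb).ae hx
  filter_upwards [Vl_ae hb x, h1] with t h2 h3
  rw [h2]
  exact hC.smul _ cc_pos.le _ h3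

lemma pos_of_Vl {C : Set Y} (hC : CCone C) (x : Lp Y P mu)
    (h0 : ∀ᵐ t ∂mu, Vl P Y 0 two_pos x t ∈ C) (h1 : ∀ᵐ t ∂mu, Vl P Y 1 one_lt_two x t ∈ C) :
    ∀ᵐ t ∂mu, x t ∈ C := by
  borelize Y
  have key : ∀ (b : ℕ) (hb : b < 2), (∀ᵐ t ∂mu, Vl P Y b hb x t ∈ C) →
      ∀ᵐ t ∂(volume.restrict (Jb b)), x t ∈ C := by
    intro b hb h
    have hm : MeasurableSet {t | x t ∈ C} :=
      (Lp.stronglyMeasurable x).measurable hC.closed.measurableSet
    have h2 : ∀ᵐ s ∂mu, x (sg b s) ∈ C := by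
      filter_upwards [Vl_ae hb x, h] with s h3 h4
      rw [h3] at h4
      have h5 := hC.smul (cc P)⁻¹ (inv_pos.2 cc_pos).le _ h4
      rwa [smul_smul, ← Complex.ofReal_mul, inv_mul_cancel₀ cc_pos.ne', Complex.ofReal_one,
        one_smul] at h5
    have h3 : ∀ᵐ t ∂(Measure.map (sg b) mu), x t ∈ C :=
      (ae_map_iff (measurable_sg b).aemeasurable hm).2 h2
    rw [(mp_sg b).map_eq] at h3
    have h4 : (volume.restrict (Jb b)) ≪ ((2 : ℝ≥0∞) • volume.restrict (Jb b)) :=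
      Measure.absolutelyContinuous_smul (by norm_num)
    exact h4.ae_le h3
  have h2 : mu = volume.restrict (Jb 0 ∪ Jb 1) := by rw [Jb_union]; rfl
  have h3 : ∀ p : ℝ → Prop, (∀ᵐ t ∂(volume.restrict (Jb 0 ∪ Jb 1)), p t) → ∀ᵐ t ∂mu, p t :=
    fun p hp => by rwa [h2]
  refine h3 _ ?_
  rw [ae_restrict_union_iff]
  exact ⟨key 0 two_pos h0, key 1 one_lt_two h1⟩

lemma CCone.VL_mem {C : Set Y} (hC : CCone C) (hPt : P ≠ ∞) (i : ℕ) : VL hPt i ∈ PosC P C := by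
  intro x hx
  by_cases hi : i = 0
  · rw [hi]
    exact pos_Vl hC two_pos x hx
  · have e : VL hPt i x = Vl P Y 1 one_lt_two x := by
      unfold VL
      rw [if_neg hi]
      rfl
    rw [e]
    exact pos_Vl hC one_lt_two x hx

lemma CCone.UL_mem {C : Set Y} (hC : CCone C) (hPt : P ≠ ∞) (i : ℕ) : UL hPt i ∈ PosC P C := by
  intro x hx
  have hz : ∀ᵐ t ∂mu, (0 : Lp Y P mu) t ∈ C := by
    filter_upwards [Lp.coeFn_zero Y P mu] with t ht
    rw [ht]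
    exact hC.zero
  by_cases hi : i = 0
  · rw [hi, UL0]
    refine pos_of_Vl hC _ ?_ ?_
    · rw [V0_We]; exact hx
    · rw [V1_We]; exact hz
  · have e : UL hPt i x = (We hPt).symm (0, x) := by
      unfold UL
      rw [if_neg hi]
      rfl
    rw [e]
    refine pos_of_Vl hC _ ?_ ?_
    · rw [V0_We]; exact hz
    · rw [V1_We]; exact hx

end Run7.h667.NG
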