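import Pool.Agent.Run7.h667.NG.Dens

/-!
# Spaces with a dyadic structure
-/

set_option autoImplicit false
open Finset Filter Topology TopologicalSpace
open Pool.Agent.Y280 Run7.h667.TC Run7.h667.PC

namespace Run7.h667.NG

variable {E : Type*} [NormedAddCommGroup E] [NormedSpace ℂ E]

/-- the space is the `ℓ_p` sum of two copies of itself -/
structure Cz (p : ℝ) (U V : ℕ → E →L[ℂ] E) : Prop where
  v00 : V 0 * U 0 = 1
  v01 : V 0 * U 1 = 0
  v10 : V 1 * U 0 = 0
  v11 : V 1 * U 1 = 1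
  full : U 0 * V 0 + U 1 * V 1 = 1
  norm : ∀ x y, ‖U 0 x + U 1 y‖ ^ p = ‖x‖ ^ p + ‖y‖ ^ p

section

variable {p q : ℝ} {U V : ℕ → E →L[ℂ] E}

lemma Cz.split (h : Cz p U V) (x : E) : U 0 (V 0 x) + U 1 (V 1 x) = x :=
  congrArg (fun T : E →L[ℂ] E => T x) h.full

lemma Cz.a00 (h : Cz p U V) (x : E) : V 0 (U 0 x) = x :=
  congrArg (fun T : E →L[ℂ] E => T x) h.v00

lemma Cz.a01 (h : Cz p U V) (x : E) : V 0 (U 1 x) = 0 :=
  congrArg (fun T : E →L[ℂ] E => T x) h.v01

lemma Cz.a10 (h : Cz p U V) (x : E) : V 1 (U 0 x) = 0 :=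
  congrArg (fun T : E →L[ℂ] E => T x) h.v10

lemma Cz.a11 (h : Cz p U V) (x : E) : V 1 (U 1 x) = x :=
  congrArg (fun T : E →L[ℂ] E => T x) h.v11

lemma Cz.normV (h : Cz p U V) (x : E) : ‖x‖ ^ p = ‖V 0 x‖ ^ p + ‖V 1 x‖ ^ p := by
  rw [← h.norm, h.split]

lemma Cz.norm_U1 (h : Cz p U V) (hp : 0 < p) (x : E) : ‖U 1 x‖ = ‖x‖ := by
  have h1 := h.norm 0 x
  rw [map_zero, zero_add, norm_zero, Real.zero_rpow hp.ne', zero_add] at h1
  exact (Real.rpow_left_inj (norm_nonneg _) (norm_nonneg _) hp.ne').1 h1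

lemma Cz.norm_U0 (h : Cz p U V) (hp : 0 < p) (x : E) : ‖U 0 x‖ = ‖x‖ := by
  have h1 := h.norm x 0
  rw [map_zero, add_zero, norm_zero, Real.zero_rpow hp.ne', add_zero] at h1
  exact (Real.rpow_left_inj (norm_nonneg _) (norm_nonneg _) hp.ne').1 h1

lemma Cz.norm_V1 (h : Cz p U V) (hp : 0 < p) (x : E) : ‖V 1 x‖ ≤ ‖x‖ := by
  refine (Real.rpow_le_rpow_iff (norm_nonneg _) (norm_nonneg _) hp).1 ?_
  have h1 := h.normV x
  have : 0 ≤ ‖V 0 x‖ ^ p := by positivity
  linarith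

lemma Cz.norm_V0 (h : Cz p U V) (hp : 0 < p) (x : E) : ‖V 0 x‖ ≤ ‖x‖ := by
  refine (Real.rpow_le_rpow_iff (norm_nonneg _) (norm_nonneg _) hp).1 ?_
  have h1 := h.normV x
  have : 0 ≤ ‖V 1 x‖ ^ p := by positivity
  linarith

lemma Cz.spl (h : Cz p U V) : Spl p 2 U V := by
  refine ⟨?_, fun z => ?_, fun x => ?_⟩
  · intro i hi j hj
    have hi' : i = 0 ∨ i = 1 := by omega
    have hj' : j = 0 ∨ j = 1 := by omega
    rcases hi' with rfl | rfl <;> rcases hj' with rfl | rfl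
    · rw [if_pos rfl, h.v00]
    · rw [if_neg (by omega), h.v01]
    · rw [if_neg (by omega), h.v10]
    · rw [if_pos rfl, h.v11]
  · rw [sum_range_succ, sum_range_one, sum_range_succ, sum_range_one, h.norm]
  · rw [sum_range_succ, sum_range_one, h.normV x]

/-- the operators on the two halves -/
noncomputable def lv (U V : ℕ → E →L[ℂ] E) (T : E →L[ℂ] E) : E →L[ℂ] E :=
  U 0 * T * V 0 + U 1 * T * V 1

lemma Cz.lv_mul (h : Cz p U V) (T S : E →L[ℂ] E) : lv U V T * lv U V S = lv U V (T * S) := by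
  unfold lv
  have e : (U 0 * T * V 0 + U 1 * T * V 1) * (U 0 * S * V 0 + U 1 * S * V 1) =
      U 0 * T * (V 0 * U 0) * S * V 0 + U 0 * T * (V 0 * U 1) * S * V 1 +
      (U 1 * T * (V 1 * U 0) * S * V 0 + U 1 * T * (V 1 * U 1) * S * V 1) := by
    simp only [add_mul, mul_add, mul_assoc]
    abel
  rw [e, h.v00, h.v01, h.v10, h.v11]
  simp only [mul_zero, zero_mul, mul_one, add_zero, zero_add, mul_assoc]

lemma Cz.lv_one (h : Cz p U V) : lv U V 1 = 1 := by
  unfold lv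
  rw [mul_one, mul_one, h.full]

lemma Cz.norm_lv_sum (h : Cz p U V) {n : ℕ} {A : ℕ → E →L[ℂ] E}
    (hA : ∀ z : ℕ → E, ‖∑ i ∈ range n, A i (z i)‖ ^ p ≤ ∑ i ∈ range n, ‖z i‖ ^ p) (z : ℕ → E) :
    ‖∑ i ∈ range n, lv U V (A i) (z i)‖ ^ p ≤ ∑ i ∈ range n, ‖z i‖ ^ p := by
  have e : ∑ i ∈ range n, lv U V (A i) (z i) = U 0 (∑ i ∈ range n, A i (V 0 (z i))) +
      U 1 (∑ i ∈ range n, A i (V 1 (z i))) := by
    rw [map_sum, map_sum, ← sum_add_distrib]
    rfl
  rw [e, h.norm]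
  refine (add_le_add (hA _) (hA _)).trans (le_of_eq ?_)
  rw [← sum_add_distrib]
  exact sum_congr rfl fun i _ => (h.normV (z i)).symm

lemma Cz.spl_lv (h : Cz p U V) {n : ℕ} {A B : ℕ → E →L[ℂ] E} (hA : Spl p n A B) :
    Spl p n (fun i => lv U V (A i)) (fun i => lv U V (B i)) := by
  refine ⟨?_, h.norm_lv_sum hA.up, fun x => ?_⟩
  · intro i hi j hj
    rw [h.lv_mul, hA.VU i hi j hj]
    split_ifs
    · exact h.lv_one
    · simp [lv]
  · have e : ∀ i, ‖lv U V (B i) x‖ ^ p = ‖B i (V 0 x)‖ ^ p + ‖B i (V 1 x)‖ ^ p := by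
      intro i
      have e1 : lv U V (B i) x = U 0 (B i (V 0 x)) + U 1 (B i (V 1 x)) := rfl
      rw [e1, h.norm]
    simp only [e]
    rw [sum_add_distrib, h.normV x]
    exact add_le_add (hA.lo _) (hA.lo _)

lemma avU_lv (s : ℝ) (n : ℕ) (A : ℕ → E →L[ℂ] E) :
    avU s n (fun i => lv U V (A i)) = lv U V (avU s n A) := by
  unfold avU lv
  rw [sum_add_distrib, ← sum_mul, ← sum_mul, ← mul_sum, ← mul_sum, mul_smul_comm, mul_smul_comm,
    smul_mul_assoc, smul_mul_assoc, smul_add]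

lemma avU_lv_iter (s : ℝ) (n : ℕ) (A : ℕ → E →L[ℂ] E) (N : ℕ) :
    avU s n (fun i => (lv U V)^[N] (A i)) = (lv U V)^[N] (avU s n A) := by
  induction N with
  | zero => rfl
  | succ N ih =>
    rw [Function.iterate_succ_apply', ← ih, ← avU_lv]
    congr 1
    funext i
    rw [Function.iterate_succ_apply']

lemma Cz.spl_iter (h : Cz p U V) {n : ℕ} {A B : ℕ → E →L[ℂ] E} (hA : Spl p n A B) (N : ℕ) :
    Spl p n (fun i => (lv U V)^[N] (A i)) (fun i => (lv U V)^[N] (B i)) := by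
  induction N with
  | zero => exact hA
  | succ N ih =>
    have := h.spl_lv ih
    simp only [Function.iterate_succ_apply']
    exact this

lemma Cz.iter_mul (h : Cz p U V) (N : ℕ) : ∀ T S : E →L[ℂ] E,
    (lv U V)^[N] T * (lv U V)^[N] S = (lv U V)^[N] (T * S) := by
  induction N with
  | zero => intro T S; rfl
  | succ N ih =>
    intro T S
    rw [Function.iterate_succ_apply', Function.iterate_succ_apply', h.lv_mul, ih,
      ← Function.iterate_succ_apply' (lv U V)]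

lemma Cz.norm_lv_le (h : Cz p U V) (hp : 0 < p) {T : E →L[ℂ] E} (hT : ∀ x, ‖T x‖ ≤ ‖x‖) (x : E) :
    ‖lv U V T x‖ ≤ ‖x‖ := by
  refine (Real.rpow_le_rpow_iff (norm_nonneg _) (norm_nonneg _) hp).1 ?_
  have e1 : lv U V T x = U 0 (T (V 0 x)) + U 1 (T (V 1 x)) := rfl
  rw [e1, h.norm, h.normV x]
  exact add_le_add (Real.rpow_le_rpow (norm_nonneg _) (hT _) hp.le)
    (Real.rpow_le_rpow (norm_nonneg _) (hT _) hp.le)

lemma Cz.norm_iter_le (h : Cz p U V) (hp : 0 < p) {T : E →L[ℂ] E} (hT : ∀ x, ‖T x‖ ≤ ‖x‖)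
    (N : ℕ) : ∀ x, ‖((lv U V)^[N] T) x‖ ≤ ‖x‖ := by
  induction N with
  | zero => exact hT
  | succ N ih =>
    rw [Function.iterate_succ_apply']
    exact h.norm_lv_le hp ih

lemma Cz.V1_lv (h : Cz p U V) (T : E →L[ℂ] E) : V 1 * lv U V T = T * V 1 := by
  unfold lv
  have e : V 1 * (U 0 * T * V 0 + U 1 * T * V 1) =
      (V 1 * U 0) * T * V 0 + (V 1 * U 1) * T * V 1 := by
    simp only [mul_add, mul_assoc]
  rw [e, h.v10, h.v11, zero_mul, zero_mul, zero_add, one_mul]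

lemma Cz.lv_U1 (h : Cz p U V) (T : E →L[ℂ] E) : lv U V T * U 1 = U 1 * T := by
  unfold lv
  have e : (U 0 * T * V 0 + U 1 * T * V 1) * U 1 =
      U 0 * T * (V 0 * U 1) + U 1 * T * (V 1 * U 1) := by
    simp only [add_mul, mul_assoc]
  rw [e, h.v01, h.v11, mul_zero, mul_one, zero_add]

lemma Cz.V1_iter (h : Cz p U V) (T : E →L[ℂ] E) (N : ℕ) :
    V 1 ^ N * (lv U V)^[N] T = T * V 1 ^ N := by
  induction N with
  | zero => rw [pow_zero, one_mul, mul_one]; rfl
  | succ N ih =>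
    rw [Function.iterate_succ_apply', pow_succ, mul_assoc, h.V1_lv, ← mul_assoc, ih, mul_assoc]

lemma Cz.iter_U1 (h : Cz p U V) (T : E →L[ℂ] E) (N : ℕ) :
    (lv U V)^[N] T * U 1 ^ N = U 1 ^ N * T := by
  induction N with
  | zero => rw [pow_zero, one_mul, mul_one]; rfl
  | succ N ih =>
    rw [Function.iterate_succ_apply', pow_succ', ← mul_assoc, h.lv_U1, mul_assoc, ih, ← mul_assoc]

end

/-- A space with a dyadic structure: `J` is a projection onto the constants, and the conditional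
expectations given by `J` tend to the identity. -/
structure PreDy (p q : ℝ) (U V : ℕ → E →L[ℂ] E) (J : E →L[ℂ] E) : Prop where
  cz : Cz p U V
  J_norm : ∀ x, ‖J x‖ ≤ ‖x‖
  JJ : J * J = J
  UJ : avU p 2 U * J = J
  JV : J * avU q 2 V = J
  tend : ∀ x, Tendsto (fun N => ((lv U V)^[N] J) x) atTop (𝓝 x)

/-- The same, with convergence in the dual. -/
structure Dy (p q : ℝ) (U V : ℕ → E →L[ℂ] E) (J : E →L[ℂ] E) : Prop extends
    PreDy p q U V J where
  tend' : ∀ y : StrongDual ℂ E, Tendsto (fun N => y.comp ((lv U V)^[N] J)) atTop (𝓝 y)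

section

variable {p q : ℝ} {U V : ℕ → E →L[ℂ] E} {J : E →L[ℂ] E}

lemma PreDy.V1J (h : PreDy p q U V J) : V 1 * J = (((2 : ℝ) ^ (-1 / p) : ℝ) : ℂ) • J := by
  have e : V 1 * avU p 2 U = (((2 : ℝ) ^ (-1 / p) : ℝ) : ℂ) • 1 := by
    unfold avU
    rw [mul_smul_comm, sum_range_succ, sum_range_one, mul_add, h.cz.v10, h.cz.v11, zero_add]
    norm_num
  conv_lhs => rw [← h.UJ, ← mul_assoc, e, smul_mul_assoc, one_mul]

lemma PreDy.V0J (h : PreDy p q U V J) : V 0 * J = (((2 : ℝ) ^ (-1 / p) : ℝ) : ℂ) • J := by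
  have e : V 0 * avU p 2 U = (((2 : ℝ) ^ (-1 / p) : ℝ) : ℂ) • 1 := by
    unfold avU
    rw [mul_smul_comm, sum_range_succ, sum_range_one, mul_add, h.cz.v00, h.cz.v01, add_zero]
    norm_num
  conv_lhs => rw [← h.UJ, ← mul_assoc, e, smul_mul_assoc, one_mul]

lemma PreDy.JU1 (h : PreDy p q U V J) : J * U 1 = (((2 : ℝ) ^ (-1 / q) : ℝ) : ℂ) • J := by
  have e : avU q 2 V * U 1 = (((2 : ℝ) ^ (-1 / q) : ℝ) : ℂ) • 1 := by
    unfold avU
    rw [smul_mul_assoc, sum_range_succ, sum_range_one, add_mul, h.cz.v01, h.cz.v11, zero_add]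
    norm_num
  conv_lhs => rw [← h.JV, mul_assoc, e, mul_smul_comm, mul_one]

lemma PreDy.JU0 (h : PreDy p q U V J) : J * U 0 = (((2 : ℝ) ^ (-1 / q) : ℝ) : ℂ) • J := by
  have e : avU q 2 V * U 0 = (((2 : ℝ) ^ (-1 / q) : ℝ) : ℂ) • 1 := by
    unfold avU
    rw [smul_mul_assoc, sum_range_succ, sum_range_one, add_mul, h.cz.v00, h.cz.v10, add_zero]
    norm_num
  conv_lhs => rw [← h.JV, mul_assoc, e, mul_smul_comm, mul_one]

/-- the tower property -/
lemma PreDy.tower (h : PreDy p q U V J) : J * lv U V J = J := by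
  have e1 : J * lv U V J = (((2 : ℝ) ^ (-1 / q) : ℝ) : ℂ) • (J * J * (V 0 + V 1)) := by
    unfold lv
    rw [mul_add, ← mul_assoc, ← mul_assoc, ← mul_assoc, ← mul_assoc, h.JU0, h.JU1]
    simp only [smul_mul_assoc]
    rw [← smul_add, ← mul_add]
  rw [e1, h.JJ]
  have e2 : J * avU q 2 V = (((2 : ℝ) ^ (-1 / q) : ℝ) : ℂ) • (J * (V 0 + V 1)) := by
    unfold avU
    rw [mul_smul_comm, sum_range_succ, sum_range_one]
    norm_num
  rw [← e2, h.JV]

lemma PreDy.tower_iter (h : PreDy p q U V J) (N k : ℕ) :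
    (lv U V)^[N] J * (lv U V)^[N + k] J = (lv U V)^[N] J := by
  induction k with
  | zero => rw [add_zero, h.cz.iter_mul, h.JJ]
  | succ k ih =>
    have e : (lv U V)^[N + k] J * (lv U V)^[N + (k + 1)] J = (lv U V)^[N + k] J := by
      rw [← add_assoc, Function.iterate_succ_apply, h.cz.iter_mul, h.tower]
    rw [← ih, mul_assoc, e]

lemma PreDy.norm_iter (h : PreDy p q U V J) (hp : 0 < p) (N : ℕ) : ‖(lv U V)^[N] J‖ ≤ 1 :=
  ContinuousLinearMap.opNorm_le_bound _ zero_le_one fun x => by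
    rw [one_mul]
    exact h.cz.norm_iter_le hp h.J_norm N x

/-- **Convergence in the dual follows from reflexivity.** -/
theorem PreDy.dy (h : PreDy p q U V J) (hp : 0 < p) (hE : Refl E) : Dy p q U V J := by
  refine ⟨h, ?_⟩
  let M : Submodule ℂ (StrongDual ℂ E) :=
    { carrier := {y | Tendsto (fun N => y.comp ((lv U V)^[N] J)) atTop (𝓝 y)}
      add_mem' := fun {a b} ha hb => by
        simp only [Set.mem_ofPred_eq, ContinuousLinearMap.add_comp] at *
        exact ha.add hb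
      zero_mem' := by
        simp only [Set.mem_ofPred_eq, ContinuousLinearMap.zero_comp]
        exact tendsto_const_nhds
      smul_mem' := fun c a ha => by
        simp only [Set.mem_ofPred_eq, ContinuousLinearMap.smul_comp] at *
        exact ha.const_smul c }
  have hM : ∀ y, y ∈ M ↔ Tendsto (fun N => y.comp ((lv U V)^[N] J)) atTop (𝓝 y) :=
    fun _ => Iff.rfl
  have hcl : IsClosed (M : Set (StrongDual ℂ E)) := by
    rw [← isSeqClosed_iff_isClosed]
    intro u y hu hy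
    show Tendsto (fun N => y.comp ((lv U V)^[N] J)) atTop (𝓝 y)
    rw [Metric.tendsto_atTop]
    intro ε hε
    rw [Metric.tendsto_atTop] at hy
    obtain ⟨n, hn⟩ := hy (ε / 4) (by positivity)
    have h1 := hn n le_rfl
    have h2 : Tendsto (fun N => (u n).comp ((lv U V)^[N] J)) atTop (𝓝 (u n)) := hu n
    rw [Metric.tendsto_atTop] at h2
    obtain ⟨N0, hN0⟩ := h2 (ε / 4) (by positivity)
    refine ⟨N0, fun N hN => ?_⟩
    have h3 := hN0 N hN
    rw [dist_eq_norm] at h1 h3 ⊢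
    have e : y.comp ((lv U V)^[N] J) - y = -((u n - y).comp ((lv U V)^[N] J)) +
        ((u n).comp ((lv U V)^[N] J) - u n) + (u n - y) := by
      rw [ContinuousLinearMap.sub_comp]
      abel
    rw [e]
    have h4 : ‖(u n - y).comp ((lv U V)^[N] J)‖ ≤ ‖u n - y‖ :=
      (ContinuousLinearMap.opNorm_comp_le _ _).trans
        (mul_le_of_le_one_right (norm_nonneg _) (h.norm_iter hp N))
    have t1 := norm_add_le (-((u n - y).comp ((lv U V)^[N] J)) +
        ((u n).comp ((lv U V)^[N] J) - u n)) (u n - y)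
    have t2 := norm_add_le (-((u n - y).comp ((lv U V)^[N] J)))
        ((u n).comp ((lv U V)^[N] J) - u n)
    rw [norm_neg] at t2
    linarith
  intro y
  by_contra hy
  obtain ⟨F, hF1, hF2⟩ := exists_fun_of_notMem M hcl (z := y) hy
  obtain ⟨x, hx⟩ := hE F
  have hFx : ∀ y, F y = y x := fun y => by rw [← hx]; rfl
  have h1 : ∀ N, ((lv U V)^[N] J) x = 0 := by
    intro N
    refine SeparatingDual.eq_zero_of_forall_dual_eq_zero (R := ℂ) fun z => ?_
    have h2 : z.comp ((lv U V)^[N] J) ∈ M := by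
      rw [hM]
      refine tendsto_atTop_of_eventually_const (i₀ := N) fun K hK => ?_
      obtain ⟨k, rfl⟩ := Nat.exists_eq_add_of_le hK
      have e := h.tower_iter N k
      calc (z.comp ((lv U V)^[N] J)).comp ((lv U V)^[N + k] J) =
          z.comp ((lv U V)^[N] J * (lv U V)^[N + k] J) := rfl
        _ = z.comp ((lv U V)^[N] J) := by rw [e]
    have h3 := hF1 _ h2
    rw [hFx] at h3
    exact h3
  have h2 : x = 0 := by
    refine tendsto_nhds_unique (h.tend x) ?_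
    simp only [h1]
    exact tendsto_const_nhds
  rw [hFx, h2, map_zero] at hF2
  exact hF2 rfl

/-- uniform approximation by step functions of one level -/
lemma Dy.exists_level (h : Dy p q U V J) (X : Finset E) (Y : Finset (StrongDual ℂ E)) {ε : ℝ}
    (hε : 0 < ε) : ∃ N, (∀ x ∈ X, ‖((lv U V)^[N] J) x - x‖ ≤ ε) ∧
      ∀ y ∈ Y, ‖y.comp ((lv U V)^[N] J) - y‖ ≤ ε := by
  have h1 : ∀ᶠ N in atTop, ∀ x ∈ X, ‖((lv U V)^[N] J) x - x‖ ≤ ε := by
    rw [Filter.eventually_all_finset]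
    intro x _
    have h2 := ((h.tend x).sub_const x).norm
    rw [sub_self, norm_zero] at h2
    exact h2.eventually (ge_mem_nhds hε)
  have h2 : ∀ᶠ N in atTop, ∀ y ∈ Y, ‖y.comp ((lv U V)^[N] J) - y‖ ≤ ε := by
    rw [Filter.eventually_all_finset]
    intro y _
    have h2 := ((h.tend' y).sub_const y).norm
    rw [sub_self, norm_zero] at h2
    exact h2.eventually (ge_mem_nhds hε)
  exact (h1.and h2).exists

lemma iter_mem {K : Set (E →L[ℂ] E)} (hK : KC K) (hU : ∀ i, U i ∈ K) (hV : ∀ i, V i ∈ K)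
    {T : E →L[ℂ] E} (hT : T ∈ K) (N : ℕ) : (lv U V)^[N] T ∈ K := by
  induction N with
  | zero => exact hT
  | succ N ih =>
    rw [Function.iterate_succ_apply']
    exact hK.add (hK.mul (hK.mul (hU _) ih) (hV _)) (hK.mul (hK.mul (hU _) ih) (hV _))

/-- **Binary splittings close to the identity.** -/
theorem Dy.bin (h : Dy p q U V J) {K : Set (E →L[ℂ] E)} (hK : KC K) (hU : ∀ i, U i ∈ K)
    (hV : ∀ i, V i ∈ K) (hpq : p.HolderConjugate q) : Bin p q K := by
  intro X Y ε hε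
  obtain ⟨N, hX, hY⟩ := h.exists_level X Y (show 0 < ε / 2 by positivity)
  have hS := h.cz.spl_iter h.cz.spl N
  refine ⟨_, _, fun i => iter_mem hK hU hV (hU i) N, fun i => iter_mem hK hU hV (hV i) N, hS,
    fun x hx => ?_, fun y hy => ?_⟩
  · set D := avU p 2 (fun i => (lv U V)^[N] (U i)) with hD
    have h1 : D (((lv U V)^[N] J) x) = ((lv U V)^[N] J) x := by
      rw [hD, avU_lv_iter]
      have := h.cz.iter_mul N (avU p 2 U) J
      rw [h.UJ] at this
      exact congrArg (fun T : E →L[ℂ] E => T x) this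
    have e : D x - x = (((lv U V)^[N] J) x - x) - D (((lv U V)^[N] J) x - x) := by
      rw [map_sub, h1]
      abel
    rw [e]
    refine (norm_sub_le _ _).trans ?_
    have := hS.norm_avU hpq.pos two_pos (((lv U V)^[N] J) x - x)
    have := hX x hx
    linarith
  · set D := avU q 2 (fun i => (lv U V)^[N] (V i)) with hD
    have h1 : (y.comp ((lv U V)^[N] J)).comp D = y.comp ((lv U V)^[N] J) := by
      rw [hD, avU_lv_iter]
      have := h.cz.iter_mul N J (avU q 2 V)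
      rw [h.JV] at this
      exact congrArg (fun T : E →L[ℂ] E => y.comp T) this
    have e : y.comp D - y = (y.comp ((lv U V)^[N] J) - y) -
        (y.comp ((lv U V)^[N] J) - y).comp D := by
      rw [ContinuousLinearMap.sub_comp, h1]
      abel
    rw [e]
    refine (norm_sub_le _ _).trans ?_
    have h2 : ‖(y.comp ((lv U V)^[N] J) - y).comp D‖ ≤ ‖y.comp ((lv U V)^[N] J) - y‖ := by
      refine (ContinuousLinearMap.opNorm_comp_le _ _).trans ?_
      refine mul_le_of_le_one_right (norm_nonneg _) ?_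
      refine ContinuousLinearMap.opNorm_le_bound _ zero_le_one fun x => ?_
      rw [one_mul]
      exact hS.norm_avV hpq two_pos x
    have := hY y hy
    linarith

end

end Run7.h667.NG
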