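import Pool.Agent.Run7.h667.NG.Spl

/-!
# Iterated splittings
-/

set_option autoImplicit false
open Finset Filter Topology TopologicalSpace
open Pool.Agent.Y280 Run7.h667.TC Run7.h667.PC

namespace Run7.h667.NG

variable {E : Type*} [NormedAddCommGroup E] [NormedSpace ℂ E]

section

variable {p q : ℝ} {m : ℕ} {U V U' V' : ℕ → E →L[ℂ] E}

lemma Spl.dbl (h2 : Spl p 2 U V) (h : Spl p m U' V') :
    Spl p (2 * m) (fun k => if k < m then U 0 * U' k else U 1 * U' (k - m))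
      (fun k => if k < m then V' k * V 0 else V' (k - m) * V 1) := by
  have v00 : V 0 * U 0 = 1 := by rw [h2.VU 0 (by omega) 0 (by omega), if_pos rfl]
  have v01 : V 0 * U 1 = 0 := by rw [h2.VU 0 (by omega) 1 (by omega), if_neg (by omega)]
  have v10 : V 1 * U 0 = 0 := by rw [h2.VU 1 (by omega) 0 (by omega), if_neg (by omega)]
  have v11 : V 1 * U 1 = 1 := by rw [h2.VU 1 (by omega) 1 (by omega), if_pos rfl]
  refine ⟨?_, ?_, ?_⟩
  · intro i hi j hj
    have key : ∀ X Y A B : E →L[ℂ] E, X * A * (B * Y) = X * (A * B) * Y := by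
      intro X Y A B
      simp only [mul_assoc]
    by_cases h1 : i < m
    · by_cases h3 : j < m
      · rw [if_pos h1, if_pos h3, key, v00, mul_one, h.VU i h1 j h3]
      · rw [if_pos h1, if_neg h3, key, v01, mul_zero, zero_mul, if_neg (by omega)]
    · by_cases h3 : j < m
      · rw [if_neg h1, if_pos h3, key, v10, mul_zero, zero_mul, if_neg (by omega)]
      · rw [if_neg h1, if_neg h3, key, v11, mul_one, h.VU _ (by omega) _ (by omega)]
        by_cases hij : i = j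
        · rw [if_pos hij, if_pos (by rw [hij])]
        · rw [if_neg hij, if_neg (by omega)]
  · intro z
    rw [two_mul, sum_range_add, sum_range_add]
    have e1 : ∑ k ∈ range m, (if k < m then U 0 * U' k else U 1 * U' (k - m)) (z k) =
        U 0 (∑ k ∈ range m, U' k (z k)) := by
      rw [map_sum]
      refine sum_congr rfl fun k hk => ?_
      rw [mem_range] at hk
      rw [if_pos hk]
      rfl
    have e2 : ∑ k ∈ range m, (if m + k < m then U 0 * U' (m + k) else U 1 * U' (m + k - m))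
        (z (m + k)) = U 1 (∑ k ∈ range m, U' k (z (m + k))) := by
      rw [map_sum]
      refine sum_congr rfl fun k hk => ?_
      rw [if_neg (by omega), Nat.add_sub_cancel_left]
      rfl
    rw [e1, e2]
    have h3 := h2.up fun i => if i = 0 then ∑ k ∈ range m, U' k (z k) else
      ∑ k ∈ range m, U' k (z (m + k))
    rw [sum_range_succ, sum_range_one, sum_range_succ, sum_range_one] at h3
    simp only [if_true, one_ne_zero, if_false] at h3
    exact h3.trans (add_le_add (h.up _) (h.up _))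
  · intro x
    rw [two_mul, sum_range_add]
    have e1 : ∑ k ∈ range m, ‖(if k < m then V' k * V 0 else V' (k - m) * V 1) x‖ ^ p =
        ∑ k ∈ range m, ‖V' k (V 0 x)‖ ^ p := by
      refine sum_congr rfl fun k hk => ?_
      rw [mem_range] at hk
      rw [if_pos hk]
      rfl
    have e2 : ∑ k ∈ range m, ‖(if m + k < m then V' (m + k) * V 0 else V' (m + k - m) * V 1)
        x‖ ^ p = ∑ k ∈ range m, ‖V' k (V 1 x)‖ ^ p := by
      refine sum_congr rfl fun k hk => ?_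
      rw [if_neg (by omega), Nat.add_sub_cancel_left]
      rfl
    rw [e1, e2]
    have h3 := h2.lo x
    rw [sum_range_succ, sum_range_one] at h3
    exact (add_le_add (h.lo _) (h.lo _)).trans h3

lemma avU_dbl_U : avU p (2 * m) (fun k => if k < m then U 0 * U' k else U 1 * U' (k - m)) =
    avU p 2 U * avU p m U' := by
  unfold avU
  rw [two_mul, sum_range_add]
  have e1 : ∑ k ∈ range m, (if k < m then U 0 * U' k else U 1 * U' (k - m)) =
      U 0 * ∑ k ∈ range m, U' k := by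
    rw [mul_sum]
    refine sum_congr rfl fun k hk => ?_
    rw [mem_range] at hk
    rw [if_pos hk]
  have e2 : ∑ k ∈ range m, (if m + k < m then U 0 * U' (m + k) else U 1 * U' (m + k - m)) =
      U 1 * ∑ k ∈ range m, U' k := by
    rw [mul_sum]
    refine sum_congr rfl fun k hk => ?_
    rw [if_neg (by omega), Nat.add_sub_cancel_left]
  rw [e1, e2, sum_range_succ, sum_range_one, smul_mul_smul_comm, ← add_mul, ← Complex.ofReal_mul,
    ← Real.mul_rpow (by positivity) (by positivity)]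
  congr 3
  push_cast
  ring

lemma avU_dbl_V : avU q (2 * m) (fun k => if k < m then V' k * V 0 else V' (k - m) * V 1) =
    avU q m V' * avU q 2 V := by
  unfold avU
  rw [two_mul, sum_range_add]
  have e1 : ∑ k ∈ range m, (if k < m then V' k * V 0 else V' (k - m) * V 1) =
      (∑ k ∈ range m, V' k) * V 0 := by
    rw [sum_mul]
    refine sum_congr rfl fun k hk => ?_
    rw [mem_range] at hk
    rw [if_pos hk]
  have e2 : ∑ k ∈ range m, (if m + k < m then V' (m + k) * V 0 else V' (m + k - m) * V 1) =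
      (∑ k ∈ range m, V' k) * V 1 := by
    rw [sum_mul]
    refine sum_congr rfl fun k hk => ?_
    rw [if_neg (by omega), Nat.add_sub_cancel_left]
  rw [e1, e2, sum_range_succ _ 1, sum_range_one, smul_mul_smul_comm, ← mul_add,
    ← Complex.ofReal_mul, ← Real.mul_rpow (by positivity) (by positivity)]
  congr 3
  push_cast
  ring

lemma Spl.multi (h2 : Spl p 2 U V) {K : Set (E →L[ℂ] E)} (hK : KC K) (hU : ∀ i, U i ∈ K)
    (hV : ∀ i, V i ∈ K) (r : ℕ) : ∃ U' V' : ℕ → E →L[ℂ] E,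
    (∀ i, U' i ∈ K) ∧ (∀ i, V' i ∈ K) ∧ Spl p (2 ^ r) U' V' ∧ avU p (2 ^ r) U' = avU p 2 U ^ r ∧
      avU q (2 ^ r) V' = avU q 2 V ^ r := by
  induction r with
  | zero =>
    refine ⟨fun _ => 1, fun _ => 1, fun _ => hK.one, fun _ => hK.one, ⟨?_, ?_, ?_⟩, ?_, ?_⟩
    · intro i hi j hj
      rw [pow_zero] at hi hj
      rw [if_pos (by omega), mul_one]
    · intro z
      rw [pow_zero, sum_range_one, sum_range_one]
      exact le_rfl
    · intro x
      rw [pow_zero, sum_range_one]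
      exact le_rfl
    · simp [avU]
    · simp [avU]
  | succ r ih =>
    obtain ⟨U', V', hU', hV', h, h3, h4⟩ := ih
    rw [show 2 ^ (r + 1) = 2 * 2 ^ r by ring]
    refine ⟨_, _, fun i => ?_, fun i => ?_, h2.dbl h, ?_, ?_⟩
    · beta_reduce
      split_ifs
      · exact hK.mul (hU 0) (hU' _)
      · exact hK.mul (hU 1) (hU' _)
    · beta_reduce
      split_ifs
      · exact hK.mul (hV' _) (hV 0)
      · exact hK.mul (hV' _) (hV 1)
    · rw [avU_dbl_U, h3, pow_succ']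
    · rw [avU_dbl_V, h4, pow_succ]

/-- There are binary splittings whose averages are close to the identity. -/
def Bin (p q : ℝ) (K : Set (E →L[ℂ] E)) : Prop :=
  ∀ (X : Finset E) (Y : Finset (StrongDual ℂ E)) (ε : ℝ), 0 < ε →
    ∃ U V : ℕ → E →L[ℂ] E, (∀ i, U i ∈ K) ∧ (∀ i, V i ∈ K) ∧ Spl p 2 U V ∧ (∀ x ∈ X, ‖avU p 2 U x - x‖ ≤ ε) ∧
      ∀ y ∈ Y, ‖y.comp (avU q 2 V) - y‖ ≤ ε

lemma Bin.multi {K : Set (E →L[ℂ] E)} (hK : KC K) (hpq : p.HolderConjugate q)
    (h : Bin p q K) (r : ℕ) (X : Finset E)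
    (Y : Finset (StrongDual ℂ E)) {ε : ℝ} (hε : 0 < ε) :
    ∃ U V : ℕ → E →L[ℂ] E, (∀ i, U i ∈ K) ∧ (∀ i, V i ∈ K) ∧ Spl p (2 ^ r) U V ∧ (∀ x ∈ X, ‖avU p (2 ^ r) U x - x‖ ≤ ε) ∧
      ∀ y ∈ Y, ‖y.comp (avU q (2 ^ r) V) - y‖ ≤ ε := by
  have hp := hpq.pos
  obtain ⟨U, V, hU, hV, h2, hx, hy⟩ := h X Y (ε / (r + 1)) (by positivity)
  obtain ⟨U', V', hU', hV', h', h3, h4⟩ := h2.multi (q := q) hK hU hV r
  have hr : (r : ℝ) * (ε / (r + 1)) ≤ ε := by
    rw [mul_div_assoc', div_le_iff₀ (by positivity)]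
    nlinarith
  refine ⟨U', V', hU', hV', h', ?_, ?_⟩
  · intro x hxX
    rw [h3]
    refine le_trans ?_ hr
    clear h3 h4 h' hr
    generalize ε / (r + 1) = ε' at hx hy
    induction r with
    | zero => simp
    | succ r ih =>
      have e : (avU p 2 U ^ (r + 1)) x - x = avU p 2 U ((avU p 2 U ^ r) x - x) +
          (avU p 2 U x - x) := by
        rw [pow_succ', map_sub]
        show avU p 2 U ((avU p 2 U ^ r) x) - x = _
        abel
      rw [e]
      refine (norm_add_le _ _).trans ?_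
      have h5 := h2.norm_avU hp two_pos ((avU p 2 U ^ r) x - x)
      have h6 := hx x hxX
      rw [Nat.cast_add, Nat.cast_one]
      linarith
  · intro y hyY
    rw [h4]
    refine le_trans ?_ hr
    clear h3 h4 h' hr
    generalize ε / (r + 1) = ε' at hx hy
    induction r with
    | zero => simp [ContinuousLinearMap.one_def]
    | succ r ih =>
      have e : y.comp (avU q 2 V ^ (r + 1)) - y = (y.comp (avU q 2 V ^ r) - y).comp (avU q 2 V) +
          (y.comp (avU q 2 V) - y) := by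
        rw [pow_succ, ContinuousLinearMap.sub_comp]
        show y.comp (avU q 2 V ^ r * avU q 2 V) - y = _
        rw [ContinuousLinearMap.comp_assoc]
        show y.comp (avU q 2 V ^ r * avU q 2 V) - y =
          y.comp (avU q 2 V ^ r * avU q 2 V) - y.comp (avU q 2 V) + _
        abel
      rw [e]
      refine (norm_add_le _ _).trans ?_
      have h5 : ‖(y.comp (avU q 2 V ^ r) - y).comp (avU q 2 V)‖ ≤
          ‖y.comp (avU q 2 V ^ r) - y‖ := by
        refine (ContinuousLinearMap.opNorm_comp_le _ _).trans ?_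
        refine mul_le_of_le_one_right (norm_nonneg _) ?_
        refine ContinuousLinearMap.opNorm_le_bound _ zero_le_one fun x => ?_
        rw [one_mul]
        exact h2.norm_avV hpq two_pos x
      have h6 := hy y hyY
      rw [Nat.cast_add, Nat.cast_one]
      linarith

/-- `n^{-1/p}` tends to zero -/
lemma exists_pow_small (hp : 0 < p) (hq : 0 < q) {ε : ℝ} (hε : 0 < ε) :
    ∃ r : ℕ, (((2 ^ r : ℕ) : ℝ)) ^ (-1 / p) ≤ ε ∧ (((2 ^ r : ℕ) : ℝ)) ^ (-1 / q) ≤ ε := by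
  have h : ∀ s : ℝ, 0 < s → Tendsto (fun r : ℕ => (((2 ^ r : ℕ) : ℝ)) ^ (-1 / s)) atTop
      (𝓝 0) := by
    intro s hs
    have h1 : Tendsto (fun x : ℝ => x ^ (-(1 / s))) atTop (𝓝 0) :=
      tendsto_rpow_neg_atTop (by positivity)
    have h2 : Tendsto (fun r : ℕ => ((2 ^ r : ℕ) : ℝ)) atTop atTop := by
      refine tendsto_natCast_atTop_atTop.comp ?_
      exact tendsto_pow_atTop_atTop_of_one_lt one_lt_two
    have h3 := h1.comp h2
    refine h3.congr fun r => ?_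
    rw [Function.comp_apply, neg_div]
  obtain ⟨r, hr1, hr2⟩ := (((h p hp).eventually (ge_mem_nhds hε)).and
    ((h q hq).eventually (ge_mem_nhds hε))).exists
  exact ⟨r, hr1, hr2⟩

/-- **Nilpotent approximants.** -/
theorem Bin.nil {K : Set (E →L[ℂ] E)} (hK : KC K) (hpq : p.HolderConjugate q)
    (h : Bin p q K) (T : E →L[ℂ] E) (hTK : T ∈ K) (X : Finset E)
    (Y : Finset (StrongDual ℂ E)) {ε : ℝ} (hε : 0 < ε) :
    ∃ (c : ℝ) (n : ℕ) (B : E →L[ℂ] E), B ∈ K ∧ 0 ≤ c ∧ c < 1 ∧ 0 < n ∧ B ^ n = 0 ∧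
      (∀ k, 0 < k → ‖B ^ k‖ ≤ c ^ k * ‖T ^ k‖) ∧
      (∀ x ∈ X, ‖B x - T x‖ ≤ ε) ∧ ∀ y ∈ Y, ‖y.comp B - y.comp T‖ ≤ ε := by
  classical
  have hp := hpq.pos
  have hq := hpq.symm.pos
  set M : ℝ := ‖T‖ * (∑ x ∈ X, ‖x‖ + ∑ y ∈ Y, ‖y‖) + ‖T‖ + 1 with hM
  have hsX : 0 ≤ ∑ x ∈ X, ‖x‖ := sum_nonneg fun _ _ => norm_nonneg _
  have hsY : 0 ≤ ∑ y ∈ Y, ‖y‖ := sum_nonneg fun _ _ => norm_nonneg _
  have hT0 := norm_nonneg T
  have hM0 : 0 < M := by positivity
  have hMT : ‖T‖ + 1 ≤ M := by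
    have : 0 ≤ ‖T‖ * (∑ x ∈ X, ‖x‖ + ∑ y ∈ Y, ‖y‖) := by positivity
    linarith
  have hMX : ∀ x ∈ X, ‖T x‖ ≤ M := fun x hx => by
    have h1 := le_sum_norm X hx
    have h2 : ‖T‖ * ‖x‖ ≤ ‖T‖ * (∑ x ∈ X, ‖x‖ + ∑ y ∈ Y, ‖y‖) :=
      mul_le_mul_of_nonneg_left (by linarith) hT0
    have h3 := T.le_opNorm x
    linarith
  have hMY : ∀ y ∈ Y, ‖y.comp T‖ ≤ M := fun y hy => by
    have h1 := le_sum_norm Y hy
    have h2 : ‖T‖ * ‖y‖ ≤ ‖T‖ * (∑ x ∈ X, ‖x‖ + ∑ y ∈ Y, ‖y‖) :=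
      mul_le_mul_of_nonneg_left (by linarith) hT0
    have h3 := ContinuousLinearMap.opNorm_comp_le y T
    rw [mul_comm] at h3
    linarith
  obtain ⟨ε1, hε10, hε11, hε12⟩ := exists_small (a := M) (b := ε / 4) hM0.le (by positivity)
  obtain ⟨r, hr1, hr2⟩ := exists_pow_small hp hq hε10
  obtain ⟨U, V, hU, hV, hS, hx, hy⟩ := h.multi hK hpq r (X ∪ X.image T) (Y ∪ Y.image fun y => y.comp T)
    hε10
  set c : ℝ := max 0 (1 - ε1) with hc
  have hc0 : 0 ≤ c := le_max_left _ _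
  have hc1 : c < 1 := max_lt one_pos (by linarith)
  have hc2 : 1 - c ≤ ε1 := by
    have := le_max_right 0 (1 - ε1)
    linarith
  obtain ⟨B, hB0, hB1, hB2, hB3, hB4⟩ := hS.nil hpq (by positivity) T hc0 hc1.le
  refine ⟨c, 2 ^ r, B, hB0 K hK hU hV hTK, hc0, hc1, by positivity, hB1, hB2, ?_, ?_⟩
  · intro x hxX
    refine (hB3 x).trans ?_
    have h1 := hx x (mem_union_left _ hxX)
    have h2 := hx (T x) (mem_union_right _ (mem_image_of_mem _ hxX))
    have h3 : ‖T‖ * ‖avU p (2 ^ r) U x - x‖ ≤ ‖T‖ * ε1 := mul_le_mul_of_nonneg_left h1 hT0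
    have h4 : ((((2 ^ r : ℕ) : ℝ)) ^ (-1 / p) + (1 - c)) * ‖T x‖ ≤ (ε1 + ε1) * M :=
      mul_le_mul (add_le_add hr1 hc2) (hMX x hxX) (norm_nonneg _) (by positivity)
    have h5 : (‖T‖ + 1) * ε1 ≤ M * ε1 := mul_le_mul_of_nonneg_right hMT hε10.le
    linarith
  · intro y hyY
    refine (hB4 y).trans ?_
    have h1 := hy y (mem_union_left _ hyY)
    have h2 := hy (y.comp T) (mem_union_right _
      (mem_image_of_mem (fun y : StrongDual ℂ E => y.comp T) hyY))
    have h3 : ‖T‖ * ‖y.comp (avU q (2 ^ r) V) - y‖ ≤ ‖T‖ * ε1 := mul_le_mul_of_nonneg_left h1 hT0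
    have h4 : ((((2 ^ r : ℕ) : ℝ)) ^ (-1 / q) + (1 - c)) * ‖y.comp T‖ ≤ (ε1 + ε1) * M :=
      mul_le_mul (add_le_add hr2 hc2) (hMY y hyY) (norm_nonneg _) (by positivity)
    have h5 : (‖T‖ + 1) * ε1 ≤ M * ε1 := mul_le_mul_of_nonneg_right hMT hε10.le
    linarith

end

end Run7.h667.NG
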