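import Pool.Agent.Run7.h667.NG.Dbl

/-!
# Operators with prescribed power growth: the density of the nilpotent operators
-/

set_option autoImplicit false
open Finset Filter Topology TopologicalSpace
open Pool.Agent.Y280 Run7.h667.TC Run7.h667.PC

namespace Run7.h667.NG

variable {E : Type*} [NormedAddCommGroup E] [NormedSpace ℂ E]

/-- The space is isometric to subspaces with room around, by maps close to the identity. -/
def RoomD (p : ℝ) (K : Set (E →L[ℂ] E)) : Prop :=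
  ∀ (X : Finset E) (Y : Finset (StrongDual ℂ E)) (ε : ℝ), 0 < ε → ∃ Ψ Φ : E →L[ℂ] E,
    Ψ ∈ K ∧ Φ ∈ K ∧ Φ * Ψ = 1 ∧ ‖Ψ‖ ≤ 1 ∧ ‖Φ‖ ≤ 1 ∧ (∀ x ∈ X, ‖Ψ x - x‖ ≤ ε ∧ ‖Φ x - x‖ ≤ ε) ∧
    (∀ y ∈ Y, ‖y.comp Ψ - y‖ ≤ ε ∧ ‖y.comp Φ - y‖ ≤ ε) ∧
    ∀ (n : ℕ) (X' : Finset E) (Y' : Finset (StrongDual ℂ E)) (ε' : ℝ), 0 < ε' →
      ∃ U V : ℕ → E →L[ℂ] E, (∀ i, U i ∈ K) ∧ (∀ i, V i ∈ K) ∧
        Cop p (Ψ * Φ) U V (n + 1) ∧ ∀ i < n + 1, 0 < i →
        (∀ x ∈ X', ‖V i x‖ ≤ ε') ∧ ∀ y ∈ Y', ‖y.comp (U i)‖ ≤ ε'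

/-- The operators with prescribed growth of the powers. -/
def PG (w : ℕ → ℝ) : Set (E →L[ℂ] E) := {T | ∀ n, 0 < n → ‖T ^ n‖ ≤ w n}

section

variable {p q : ℝ} {P A : E →L[ℂ] E} {U V : ℕ → E →L[ℂ] E} {n m : ℕ} {w : ℕ → ℝ}

/-- the direct sum of copies of `A` -/
noncomputable def blk (U V : ℕ → E →L[ℂ] E) (m : ℕ) (A : E →L[ℂ] E) : E →L[ℂ] E :=
  ∑ j ∈ range (m + 1), U j * A * V j

/-- the coupling -/
noncomputable def cpl (U V : ℕ → E →L[ℂ] E) (m : ℕ) (w : ℕ → ℝ) : E →L[ℂ] E :=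
  ∑ j ∈ range m, (w j : ℂ) • (U (j + 1) * V j)

lemma bigW_eq : bigW A U V m w = blk U V m A + cpl U V m w := rfl

lemma blk_mul (h : Cop p P U V (m + 1)) {B : E →L[ℂ] E} (hB : P * B = B) :
    blk U V m A * blk U V m B = blk U V m (A * B) := by
  unfold blk
  rw [sum_mul_sum]
  refine sum_congr rfl fun i hi => ?_
  rw [mem_range] at hi
  rw [sum_eq_single i]
  · have e : U i * A * V i * (U i * B * V i) = U i * A * (V i * U i) * B * V i := by
      simp only [mul_assoc]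
    rw [e, h.VU i hi i hi, if_pos rfl]
    simp only [mul_assoc]
    rw [← mul_assoc P B, hB]
  · intro j hj hji
    rw [mem_range] at hj
    have e : U i * A * V i * (U j * B * V j) = U i * A * (V i * U j) * B * V j := by
      simp only [mul_assoc]
    rw [e, h.VU i hi j hj, if_neg hji.symm, mul_zero, zero_mul, zero_mul]
  · intro h'
    exact absurd (mem_range.2 hi) h'

lemma P_pow (hPA : P * A = A) (k : ℕ) : P * A ^ (k + 1) = A ^ (k + 1) := by
  rw [pow_succ', ← mul_assoc, hPA]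

lemma blk_pow (h : Cop p P U V (m + 1)) (hPA : P * A = A) (k : ℕ) :
    blk U V m A ^ (k + 1) = blk U V m (A ^ (k + 1)) := by
  induction k with
  | zero => rw [zero_add, pow_one, pow_one]
  | succ k ih => rw [pow_succ', ih, blk_mul h (P_pow hPA k), ← pow_succ']

lemma norm_blk (h : Cop p P U V (m + 1)) (hp : 0 < p) (T : E →L[ℂ] E) :
    ‖blk U V m T‖ ≤ ‖T‖ := by
  refine ContinuousLinearMap.opNorm_le_bound _ (norm_nonneg _) fun x => ?_
  have e1 : blk U V m T x = ∑ j ∈ range (m + 1), U j (T (V j x)) := by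
    unfold blk
    rw [_root_.sum_apply]
    rfl
  rw [e1]
  refine h.norm_sum hp (norm_nonneg _) ?_
  refine le_trans ?_ (mul_le_mul_of_nonneg_left (h.lo x) (by positivity))
  rw [mul_sum]
  refine sum_le_sum fun j _ => ?_
  rw [← Real.mul_rpow (norm_nonneg _) (norm_nonneg _)]
  exact Real.rpow_le_rpow (norm_nonneg _) (T.le_opNorm _) hp.le

lemma norm_cpl (h : Cop p P U V (m + 1)) (hp : 0 < p) (hw0 : ∀ j, 0 ≤ w j) {ω : ℝ}
    (hw : ∀ j, w j ≤ ω) : ‖cpl U V m w‖ ≤ ω := by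
  have hω : 0 ≤ ω := (hw0 0).trans (hw 0)
  refine ContinuousLinearMap.opNorm_le_bound _ hω fun x => ?_
  have e2 : cpl U V m w x =
      ∑ i ∈ range (m + 1), U i (if i = 0 then 0 else (w (i - 1) : ℂ) • V (i - 1) x) := by
    unfold cpl
    rw [_root_.sum_apply, sum_range_succ' _ m]
    simp
  rw [e2]
  refine h.norm_sum hp hω ?_
  rw [sum_range_succ' _ m]
  simp only [Nat.add_eq_zero_iff, one_ne_zero, and_false, if_false, if_true, norm_zero,
    Real.zero_rpow hp.ne', add_zero, Nat.add_sub_cancel]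
  have h3 : ∑ j ∈ range m, ‖V j x‖ ^ p ≤ ‖x‖ ^ p := by
    refine le_trans ?_ (h.lo x)
    exact sum_le_sum_of_subset_of_nonneg (range_mono (by omega)) fun _ _ _ => by positivity
  refine le_trans ?_ (mul_le_mul_of_nonneg_left h3 (by positivity))
  rw [mul_sum]
  refine sum_le_sum fun j _ => ?_
  rw [norm_smul, ← Real.mul_rpow hω (norm_nonneg _), Complex.norm_real,
    Real.norm_of_nonneg (hw0 j)]
  refine Real.rpow_le_rpow (by have := hw0 j; positivity) ?_ hp.le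
  exact mul_le_mul_of_nonneg_right (hw j) (norm_nonneg _)

lemma V_cpl (h : Cop p P U V (m + 1)) {a : ℕ} (ha : a ≤ m) :
    V a * cpl U V m w = if a = 0 then 0 else (w (a - 1) : ℂ) • V (a - 1) := by
  unfold cpl
  rw [mul_sum]
  split_ifs with h0
  · apply sum_eq_zero
    intro b hb
    rw [mem_range] at hb
    rw [mul_smul_comm, ← mul_assoc, h.VU a (by omega) (b + 1) (by omega),
      if_neg (by omega), zero_mul, smul_zero]
  · rw [sum_eq_single (a - 1)]
    · rw [mul_smul_comm, ← mul_assoc, Nat.sub_add_cancel (by omega),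
        h.VU a (by omega) a (by omega), if_pos rfl, h.PV _ (by omega)]
    · intro b hb hba
      rw [mem_range] at hb
      rw [mul_smul_comm, ← mul_assoc, h.VU a (by omega) (b + 1) (by omega),
        if_neg (by omega), zero_mul, smul_zero]
    · intro h'
      exact absurd (mem_range.2 (by omega)) h'

lemma cpl_nil (h : Cop p P U V (m + 1)) : cpl U V m w ^ (m + 1) = 0 := by
  have h1 : ∀ a, a ≤ m → ∀ k, a < k → V a * cpl U V m w ^ k = 0 := by
    intro a
    induction a with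
    | zero =>
      intro _ k hk
      obtain ⟨l, rfl⟩ : ∃ l, k = l + 1 := ⟨k - 1, by omega⟩
      rw [pow_succ', ← mul_assoc, V_cpl h (Nat.zero_le _), if_pos rfl, zero_mul]
    | succ a ih =>
      intro ha k hk
      obtain ⟨l, rfl⟩ : ∃ l, k = l + 1 := ⟨k - 1, by omega⟩
      rw [pow_succ', ← mul_assoc, V_cpl h ha, if_neg (Nat.succ_ne_zero a), Nat.add_sub_cancel,
        smul_mul_assoc, ih (by omega) l (by omega), smul_zero]
  have h2 : ∀ X : E →L[ℂ] E, cpl U V m w * X =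
      ∑ j ∈ range m, (w j : ℂ) • (U (j + 1) * V j) * X := fun X => by
    unfold cpl
    rw [sum_mul]
  rw [pow_succ', h2]
  apply sum_eq_zero
  intro j hj
  rw [mem_range] at hj
  rw [smul_mul_assoc, mul_assoc, h1 j hj.le m hj, mul_zero, smul_zero]

lemma blk_comm_cpl (h : Cop p P U V (m + 1)) (hPA : P * A = A) (hAP : A * P = A) :
    Commute (blk U V m A) (cpl U V m w) := by
  have h1 : blk U V m A * cpl U V m w = ∑ j ∈ range m, (w j : ℂ) • (U (j + 1) * A * V j) := by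
    unfold cpl
    rw [mul_sum]
    refine sum_congr rfl fun j hj => ?_
    rw [mem_range] at hj
    rw [mul_smul_comm]
    congr 1
    unfold blk
    rw [sum_mul, sum_eq_single (j + 1)]
    · have e : U (j + 1) * A * V (j + 1) * (U (j + 1) * V j) =
          U (j + 1) * A * (V (j + 1) * U (j + 1)) * V j := by simp only [mul_assoc]
      rw [e, h.VU _ (by omega) _ (by omega), if_pos rfl, mul_assoc (U (j + 1)), hAP]
    · intro i hi hij
      rw [mem_range] at hi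
      have e : U i * A * V i * (U (j + 1) * V j) = U i * A * (V i * U (j + 1)) * V j := by
        simp only [mul_assoc]
      rw [e, h.VU _ (by omega) _ (by omega), if_neg hij, mul_zero, zero_mul]
    · intro h'
      exact absurd (mem_range.2 (by omega)) h'
  have h2 : cpl U V m w * blk U V m A = ∑ j ∈ range m, (w j : ℂ) • (U (j + 1) * A * V j) := by
    unfold cpl
    rw [sum_mul]
    refine sum_congr rfl fun j hj => ?_
    rw [mem_range] at hj
    rw [smul_mul_assoc]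
    congr 1
    unfold blk
    rw [mul_sum, sum_eq_single j]
    · have e : U (j + 1) * V j * (U j * A * V j) = U (j + 1) * (V j * U j) * A * V j := by
        simp only [mul_assoc]
      rw [e, h.VU _ (by omega) _ (by omega), if_pos rfl, mul_assoc (U (j + 1)), hPA]
    · intro i hi hij
      rw [mem_range] at hi
      have e : U (j + 1) * V j * (U i * A * V i) = U (j + 1) * (V j * U i) * A * V i := by
        simp only [mul_assoc]
      rw [e, h.VU _ (by omega) _ (by omega), if_neg hij.symm, mul_zero, zero_mul, zero_mul]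
    · intro h'
      exact absurd (mem_range.2 (by omega)) h'
  rw [Commute, SemiconjBy, h1, h2]

lemma norm_pow_sub_le {X Y : E →L[ℂ] E} (hX : ‖X‖ ≤ 1) {ω : ℝ} (hY : ‖Y‖ ≤ ω)
    (k : ℕ) : ‖(X + Y) ^ k - X ^ k‖ ≤ (1 + ω) ^ k - 1 := by
  have hω : 0 ≤ ω := (norm_nonneg _).trans hY
  have hXk : ∀ k : ℕ, ‖X ^ k‖ ≤ 1 := by
    intro k
    induction k with
    | zero =>
      rw [pow_zero]
      exact ContinuousLinearMap.norm_id_le
    | succ k ih =>
      rw [pow_succ]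
      exact (norm_mul_le _ _).trans (mul_le_one₀ ih (norm_nonneg _) hX)
  induction k with
  | zero => simp
  | succ k ih =>
    have e : (X + Y) ^ (k + 1) - X ^ (k + 1) = ((X + Y) ^ k - X ^ k) * (X + Y) + X ^ k * Y := by
      rw [pow_succ, pow_succ, sub_mul, mul_add (X ^ k)]
      abel
    rw [e]
    have h1 : ‖X + Y‖ ≤ 1 + ω := (norm_add_le _ _).trans (add_le_add hX hY)
    have h2 : ‖((X + Y) ^ k - X ^ k) * (X + Y)‖ ≤ ((1 + ω) ^ k - 1) * (1 + ω) :=
      (norm_mul_le _ _).trans (mul_le_mul ih h1 (norm_nonneg _) ((norm_nonneg _).trans ih))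
    have h3 : ‖X ^ k * Y‖ ≤ 1 * ω :=
      (norm_mul_le _ _).trans (mul_le_mul (hXk k) hY (norm_nonneg _) zero_le_one)
    refine (norm_add_le _ _).trans ((add_le_add h2 h3).trans (le_of_eq ?_))
    ring

lemma exists_min_pos (g : ℕ → ℝ) (hg : ∀ k, 0 < g k) (N : ℕ) : ∃ s : ℝ, 0 < s ∧
    ∀ k ≤ N, s ≤ g k := by
  induction N with
  | zero => exact ⟨g 0, hg 0, fun k hk => by rw [Nat.le_zero.1 hk]⟩
  | succ N ih =>
    obtain ⟨s, hs, h⟩ := ih
    refine ⟨min s (g (N + 1)), lt_min hs (hg _), fun k hk => ?_⟩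
    rcases Nat.lt_or_ge k (N + 1) with h1 | h1
    · exact (min_le_left _ _).trans (h k (by omega))
    · have : k = N + 1 := by omega
      rw [this]
      exact min_le_right _ _

/-- small couplings preserve the growth condition -/
lemma exists_omega (hp : 0 < p) (hPA : P * A = A) (hAP : A * P = A) (hn : 0 < n)
    (hA0 : A ^ n = 0) (hA1 : ‖A‖ ≤ 1) {c : ℝ} (hc0 : 0 ≤ c) (hc1 : c < 1) {g : ℕ → ℝ}
    (hg : ∀ k, 0 < g k) (hA : ∀ k, 0 < k → ‖A ^ k‖ ≤ c ^ k * g k) (m : ℕ) :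
    ∃ ω : ℝ, 0 < ω ∧ ω ≤ 1 ∧ ∀ wt : ℕ → ℝ, (∀ j, 0 ≤ wt j) → (∀ j, wt j ≤ ω) →
      ∀ U V : ℕ → E →L[ℂ] E, Cop p P U V (m + 1) → bigW A U V m wt ∈ PG g := by
  obtain ⟨s, hs, hsg⟩ := exists_min_pos g hg (n + m + 1)
  have hlim : Tendsto (fun ω : ℝ => (1 + ω) ^ (n + m + 1) - 1) (𝓝 0) (𝓝 0) := by
    have h1 : Continuous fun ω : ℝ => (1 + ω) ^ (n + m + 1) - 1 := by fun_prop
    have h2 := h1.tendsto 0
    simpa using h2
  have h1 : ∀ᶠ ω in 𝓝[>] (0 : ℝ), (1 + ω) ^ (n + m + 1) - 1 ≤ (1 - c) * s :=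
    (hlim.eventually (ge_mem_nhds (mul_pos (by linarith) hs))).filter_mono nhdsWithin_le_nhds
  have h2 : ∀ᶠ ω in 𝓝[>] (0 : ℝ), ω ∈ Set.Ioc (0 : ℝ) 1 := Ioc_mem_nhdsGT one_pos
  obtain ⟨ω, hω1, hω2⟩ := (h1.and h2).exists
  refine ⟨ω, hω2.1, hω2.2, fun wt hwt0 hwt U V h k hk => ?_⟩
  have hX : ‖blk U V m A‖ ≤ 1 := (norm_blk h hp A).trans hA1
  have hY : ‖cpl U V m wt‖ ≤ ω := norm_cpl h hp hwt0 hwt
  rcases Nat.lt_or_ge (n + m + 1) k with hk2 | hk2
  · have h3 : bigW A U V m wt ^ k = 0 := by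
      rw [bigW_eq]
      refine (blk_comm_cpl h hPA hAP).add_pow_eq_zero_of_add_le_succ_of_pow_eq_zero
        (m := n) (n := m + 1) ?_ (cpl_nil h) (by omega)
      obtain ⟨l, rfl⟩ : ∃ l, n = l + 1 := ⟨n - 1, by omega⟩
      rw [blk_pow h hPA, hA0]
      unfold blk
      simp
    rw [h3, norm_zero]
    exact (hg k).le
  · have h3 : ‖bigW A U V m wt ^ k‖ ≤ ‖blk U V m A ^ k‖ + ((1 + ω) ^ k - 1) := by
      have e : bigW A U V m wt ^ k = blk U V m A ^ k +
          ((blk U V m A + cpl U V m wt) ^ k - blk U V m A ^ k) := by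
        rw [bigW_eq]
        abel
      rw [e]
      exact (norm_add_le _ _).trans (add_le_add le_rfl (norm_pow_sub_le hX hY k))
    have h4 : ‖blk U V m A ^ k‖ ≤ c ^ k * g k := by
      obtain ⟨l, rfl⟩ : ∃ l, k = l + 1 := ⟨k - 1, by omega⟩
      rw [blk_pow h hPA]
      exact (norm_blk h hp _).trans (hA _ hk)
    have h5 : c ^ k * g k ≤ c * g k := by
      refine mul_le_mul_of_nonneg_right ?_ (hg k).le
      calc c ^ k ≤ c ^ 1 := pow_le_pow_of_le_one hc0 hc1.le hk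
        _ = c := pow_one c
    have h6 : (1 + ω) ^ k ≤ (1 + ω) ^ (n + m + 1) :=
      pow_le_pow_right₀ (by linarith [hω2.1]) hk2
    have h7 : (1 - c) * s ≤ (1 - c) * g k :=
      mul_le_mul_of_nonneg_left (hsg k hk2) (by linarith)
    linarith

end

section

variable {p q : ℝ}

/-- **The density of the nilpotent operators with room.** -/
theorem densN_PG {K : Set (E →L[ℂ] E)} (hK : KC K) (hpq : p.HolderConjugate q)
    (hB : Bin p q K) (hR : RoomD p K) {g : ℕ → ℝ}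
    (hg : ∀ k, 0 < g k) (hg1 : g 1 ≤ 1) :
    @DensN E _ _ (PG g ∩ K : Set (E →L[ℂ] E)) (sotStar (PG g ∩ K)) p
      (fun T => (T : E →L[ℂ] E)) := by
  classical
  have hp := hpq.pos
  intro O w0 hO hw0 x y ε hε
  obtain ⟨X0, Y0, ε0, hε0, hnear⟩ := nhdS_sotStar (PG g ∩ K) w0 O hO hw0
  set T : E →L[ℂ] E := w0.1 with hT
  have hTg : ∀ k, 0 < k → ‖T ^ k‖ ≤ g k := w0.2.1
  obtain ⟨c, n, B, hBK, hc0, hc1, hn, hBn, hBk, hBx, hBy⟩ := hB.nil hK hpq T w0.2.2 X0 Y0
    (show 0 < ε0 / 8 by positivity)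
  set ε2 : ℝ := min (ε / 2) (ε0 / 8) with hε2
  have hε20 : 0 < ε2 := lt_min (by positivity) (by positivity)
  have hε2a : ε2 ≤ ε / 2 := min_le_left _ _
  have hε2b : ε2 ≤ ε0 / 8 := min_le_right _ _
  obtain ⟨Ψ, Φ, hΨK, hΦK, hΦΨ, hΨ1, hΦ1, hX, hY, hcop⟩ := hR (insert x (X0 ∪ X0.image T))
    (insert y (Y0 ∪ Y0.image fun y => y.comp T)) ε2 hε20
  have hb : ∀ {G : E →L[ℂ] E}, ‖G‖ ≤ 1 → ∀ w, ‖G w‖ ≤ ‖w‖ := fun hG w =>
    ((ContinuousLinearMap.le_opNorm _ w).trans (mul_le_of_le_one_left (norm_nonneg _) hG))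
  have hb' : ∀ {G : E →L[ℂ] E}, ‖G‖ ≤ 1 → ∀ w : StrongDual ℂ E, ‖w.comp G‖ ≤ ‖w‖ := fun hG w =>
    ((ContinuousLinearMap.opNorm_comp_le _ _).trans (mul_le_of_le_one_right (norm_nonneg _) hG))
  have hB1 : ‖B‖ ≤ 1 := by
    have h1 := hBk 1 one_pos
    have h2 := hTg 1 one_pos
    rw [pow_one, pow_one, pow_one] at h1
    rw [pow_one] at h2
    have h3 : c * ‖T‖ ≤ 1 * 1 := mul_le_mul hc1.le (h2.trans hg1) (norm_nonneg _) zero_le_one
    linarith
  set A : E →L[ℂ] E := Ψ * B * Φ with hA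
  have hAk : ∀ k, A ^ (k + 1) = Ψ * B ^ (k + 1) * Φ := by
    intro k
    induction k with
    | zero => rw [zero_add, pow_one, pow_one]
    | succ k ih =>
      rw [pow_succ', ih, hA, pow_succ' B (k + 1)]
      have e : Ψ * B * Φ * (Ψ * B ^ (k + 1) * Φ) = Ψ * B * (Φ * Ψ) * B ^ (k + 1) * Φ := by
        simp only [mul_assoc]
      rw [e, hΦΨ, mul_one]
      simp only [mul_assoc]
  have hAg : ∀ k, 0 < k → ‖A ^ k‖ ≤ c ^ k * g k := by
    intro k hk
    obtain ⟨l, rfl⟩ : ∃ l, k = l + 1 := ⟨k - 1, by omega⟩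
    rw [hAk]
    have h1 : ‖Ψ * B ^ (l + 1) * Φ‖ ≤ ‖B ^ (l + 1)‖ := by
      refine (norm_mul_le _ _).trans ?_
      refine (mul_le_of_le_one_right (norm_nonneg _) hΦ1).trans ?_
      refine (norm_mul_le _ _).trans ?_
      exact mul_le_of_le_one_left (norm_nonneg _) hΨ1
    refine h1.trans ((hBk _ hk).trans ?_)
    exact mul_le_mul_of_nonneg_left (hTg _ hk) (by positivity)
  have hA0 : A ^ n = 0 := by
    obtain ⟨l, rfl⟩ : ∃ l, n = l + 1 := ⟨n - 1, by omega⟩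
    rw [hAk, hBn, mul_zero, zero_mul]
  have hAK : A ∈ K := hK.mul (hK.mul hΨK hBK) hΦK
  have hAmem : A ∈ (PG g : Set (E →L[ℂ] E)) := by
    intro k hk
    refine (hAg k hk).trans ?_
    exact mul_le_of_le_one_left (hg k).le (pow_le_one₀ hc0 hc1.le)
  have hA1 : ‖A‖ ≤ 1 := by
    have := hAmem 1 one_pos
    rw [pow_one] at this
    exact this.trans hg1
  have hPA : Ψ * Φ * A = A := by
    have e : Ψ * Φ * (Ψ * B * Φ) = Ψ * (Φ * Ψ) * B * Φ := by simp only [mul_assoc]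
    rw [hA, e, hΦΨ, mul_one]
  have hAP : A * (Ψ * Φ) = A := by
    have e : Ψ * B * Φ * (Ψ * Φ) = Ψ * B * (Φ * Ψ) * Φ := by simp only [mul_assoc]
    rw [hA, e, hΦΨ, mul_one]
  refine ⟨⟨A, hAmem, hAK⟩, ?_, Ψ * Φ, ?_, ?_, ?_, ?_, hPA, hAP, hA1, ⟨n, hA0⟩, ?_⟩
  · apply hnear
    · intro z hz
      have h1 := hX z (mem_insert_of_mem (mem_union_left _ hz))
      have h2 := hX (T z) (mem_insert_of_mem (mem_union_right _ (mem_image_of_mem _ hz)))
      have h3 := hBx z hz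
      have e : A z - T z = Ψ (B (Φ z - z)) + Ψ (B z - T z) + (Ψ (T z) - T z) := by
        rw [hA]
        show Ψ (B (Φ z)) - T z = _
        simp only [map_sub]
        abel
      show ‖A z - T z‖ < ε0
      rw [e]
      have a1 : ‖Ψ (B (Φ z - z))‖ ≤ ε2 := (hb hΨ1 _).trans ((hb hB1 _).trans h1.2)
      have a2 : ‖Ψ (B z - T z)‖ ≤ ε0 / 8 := (hb hΨ1 _).trans h3
      have b1 := norm_add_le (Ψ (B (Φ z - z)) + Ψ (B z - T z)) (Ψ (T z) - T z)
      have b2 := norm_add_le (Ψ (B (Φ z - z))) (Ψ (B z - T z))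
      linarith [h2.1]
    · intro z hz
      have h1 := hY z (mem_insert_of_mem (mem_union_left _ hz))
      have h2 := hY (z.comp T) (mem_insert_of_mem (mem_union_right _
        (mem_image_of_mem (fun y : StrongDual ℂ E => y.comp T) hz)))
      have h3 := hBy z hz
      have e : z.comp A - z.comp T = ((z.comp Ψ - z).comp B).comp Φ +
          (z.comp B - z.comp T).comp Φ + ((z.comp T).comp Φ - z.comp T) := by
        ext v
        have : (z.comp A) v = z (Ψ (B (Φ v))) := rfl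
        simp only [_root_.sub_apply, _root_.add_apply, ContinuousLinearMap.comp_apply] at this ⊢
        rw [this]
        ring
      show ‖z.comp A - z.comp T‖ < ε0
      rw [e]
      have a1 : ‖((z.comp Ψ - z).comp B).comp Φ‖ ≤ ε2 :=
        (hb' hΦ1 _).trans ((hb' hB1 _).trans h1.1)
      have a2 : ‖(z.comp B - z.comp T).comp Φ‖ ≤ ε0 / 8 := (hb' hΦ1 _).trans h3
      have b1 := norm_add_le (((z.comp Ψ - z).comp B).comp Φ + (z.comp B - z.comp T).comp Φ)
        ((z.comp T).comp Φ - z.comp T)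
      have b2 := norm_add_le (((z.comp Ψ - z).comp B).comp Φ) ((z.comp B - z.comp T).comp Φ)
      linarith [h2.2]
  · have e : Ψ * Φ * (Ψ * Φ) = Ψ * (Φ * Ψ) * Φ := by simp only [mul_assoc]
    rw [e, hΦΨ, mul_one]
  · exact (norm_mul_le _ _).trans (mul_le_one₀ hΨ1 (norm_nonneg _) hΦ1)
  · have h1 := hX x (mem_insert_self _ _)
    have e : (Ψ * Φ) x - x = Ψ (Φ x - x) + (Ψ x - x) := by
      show Ψ (Φ x) - x = _
      rw [map_sub]
      abel
    rw [e]
    have a1 : ‖Ψ (Φ x - x)‖ ≤ ε2 := (hb hΨ1 _).trans h1.2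
    have b1 := norm_add_le (Ψ (Φ x - x)) (Ψ x - x)
    linarith [h1.1]
  · have h1 := hY y (mem_insert_self _ _)
    have e : y.comp (Ψ * Φ) - y = (y.comp Ψ - y).comp Φ + (y.comp Φ - y) := by
      ext v
      have : (y.comp (Ψ * Φ)) v = y (Ψ (Φ v)) := rfl
      simp only [_root_.sub_apply, _root_.add_apply, ContinuousLinearMap.comp_apply] at this ⊢
      rw [this]
      ring
    rw [e]
    have a1 : ‖(y.comp Ψ - y).comp Φ‖ ≤ ε2 := (hb' hΦ1 _).trans h1.1
    have b1 := norm_add_le ((y.comp Ψ - y).comp Φ) (y.comp Φ - y)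
    linarith [h1.2]
  · intro m
    obtain ⟨ω, hω0, hω1, hω⟩ := exists_omega (n := n) hp hPA hAP hn hA0 hA1 hc0 hc1 hg hAg m
    refine ⟨ω, hω0, hω1, fun wt hwt0 hwt X' Y' ε' hε' => ?_⟩
    obtain ⟨U, V, hU, hV, hCop, hfar⟩ := hcop m X' Y' ε' hε'
    refine ⟨U, V, hCop, hfar, ⟨bigW A U V m wt, hω wt hwt0 hwt U V hCop, ?_⟩, rfl⟩
    exact hK.add (hK.sum _ fun i _ => hK.mul (hK.mul (hU _) hAK) (hV _))
      (hK.sum _ fun i _ => hK.smul (hwt0 _) (hK.mul (hU _) (hV _)))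

lemma PG_closed {g : ℕ → ℝ} (hg1 : g 1 ≤ 1) (w : ℕ → E →L[ℂ] E) (T0 : E →L[ℂ] E)
    (hw : ∀ m, w m ∈ (PG g : Set (E →L[ℂ] E)))
    (h : ∀ x, Tendsto (fun m => w m x) atTop (𝓝 (T0 x))) :
    T0 ∈ (PG g : Set (E →L[ℂ] E)) := by
  have hw1 : ∀ m, ‖w m‖ ≤ 1 := fun m => by
    have := hw m 1 one_pos
    rw [pow_one] at this
    exact this.trans hg1
  have h1 : ∀ k : ℕ, ∀ x, Tendsto (fun m => (w m ^ k) x) atTop (𝓝 ((T0 ^ k) x)) := by
    intro k
    induction k with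
    | zero => intro x; exact tendsto_const_nhds
    | succ k ih =>
      intro x
      have h2 := ih x
      have h3 := h ((T0 ^ k) x)
      have e : ∀ m, (w m ^ (k + 1)) x = w m ((w m ^ k) x - (T0 ^ k) x) + w m ((T0 ^ k) x) := by
        intro m
        rw [pow_succ', map_sub, sub_add_cancel]
        rfl
      have e2 : (T0 ^ (k + 1)) x = 0 + T0 ((T0 ^ k) x) := by
        rw [pow_succ', zero_add]
        rfl
      simp only [e, e2]
      refine Tendsto.add ?_ h3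
      refine squeeze_zero_norm (a := fun m => ‖(w m ^ k) x - (T0 ^ k) x‖) (fun m => ?_) ?_
      · exact ((w m).le_opNorm _).trans (mul_le_of_le_one_left (norm_nonneg _) (hw1 m))
      · have := (h2.sub_const ((T0 ^ k) x)).norm
        rwa [sub_self, norm_zero] at this
  intro k hk
  have hgk : 0 ≤ g k := (norm_nonneg _).trans (hw 0 k hk)
  refine ContinuousLinearMap.opNorm_le_bound _ hgk fun x => ?_
  refine le_of_tendsto (h1 k x).norm (Eventually.of_forall fun m => ?_)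
  exact ((w m ^ k).le_opNorm x).trans (mul_le_mul_of_nonneg_right (hw m k hk) (norm_nonneg _))

end

end Run7.h667.NG
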