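import Pool.Agent.Run7.h667.PC.Refl

/-!
# Finite differences
-/

set_option autoImplicit false
open Finset Filter Topology

namespace Run7.h667.NG

/-- the forward difference -/
def dif {V : Type*} [AddCommGroup V] (g : ℕ → V) : ℕ → V := fun j => g (j + 1) - g j

section

variable {V : Type*} [AddCommGroup V]

lemma dif_succ (r : ℕ) (g : ℕ → V) (j : ℕ) :
    (dif^[r + 1] g) j = (dif^[r] g) (j + 1) - (dif^[r] g) j := by
  rw [Function.iterate_succ_apply']
  rfl

lemma dif_map {V' : Type*} [AddCommGroup V'] (φ : V →+ V') (g : ℕ → V) (r j : ℕ) :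
    (dif^[r] fun j => φ (g j)) j = φ ((dif^[r] g) j) := by
  induction r generalizing j with
  | zero => rfl
  | succ r ih => rw [dif_succ, dif_succ, ih, ih, map_sub]

end

lemma dif_tendsto {V : Type*} [AddCommGroup V] [TopologicalSpace V] [IsTopologicalAddGroup V]
    {ι : Type*} {l : Filter ι} {s : ι → ℕ → V} {s0 : ℕ → V}
    (h : ∀ j, Tendsto (fun n => s n j) l (𝓝 (s0 j))) (r j : ℕ) :
    Tendsto (fun n => (dif^[r] (s n)) j) l (𝓝 ((dif^[r] s0) j)) := by
  induction r generalizing j with
  | zero => exact h j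
  | succ r ih =>
    simp only [dif_succ]
    exact (ih (j + 1)).sub (ih j)

/-- Bounded sequences with vanishing differences of some order are constant. -/
lemma const_of_dif (D : ℕ) : ∀ (s : ℕ → ℂ) (B : ℝ), (∀ j, ‖s j‖ ≤ B) → (∀ j, (dif^[D] s) j = 0) →
    ∀ j, s j = s 0 := by
  induction D with
  | zero =>
    intro s B _ h j
    have h1 : s j = 0 := h j
    have h2 : s 0 = 0 := h 0
    rw [h1, h2]
  | succ D ih =>
    intro s B hB h j
    have h1 := ih (dif s) (B + B) (fun j => (norm_sub_le _ _).trans (add_le_add (hB _) (hB _)))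
      (fun j => by
        have := h j
        rwa [Function.iterate_succ_apply] at this)
    set c := dif s 0 with hc
    have h2 : ∀ j : ℕ, s j = s 0 + j * c := by
      intro j
      induction j with
      | zero => simp
      | succ j ihj =>
        have h3 : s (j + 1) - s j = c := h1 j
        have h4 : s (j + 1) = s j + c := by rw [← h3]; ring
        rw [h4, ihj]
        push_cast
        ring
    have h3 : c = 0 := by
      by_contra hc0
      have hcp : 0 < ‖c‖ := norm_pos_iff.2 hc0
      obtain ⟨n, hn⟩ := exists_nat_gt ((B + B) / ‖c‖)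
      rw [div_lt_iff₀ hcp] at hn
      have h4 : (n : ℂ) * c = s n - s 0 := by rw [h2 n]; ring
      have h5 : ‖(n : ℂ) * c‖ ≤ B + B := by
        rw [h4]
        exact (norm_sub_le _ _).trans (add_le_add (hB _) (hB _))
      rw [norm_mul, Complex.norm_natCast] at h5
      linarith
    rw [h2 j, h3, mul_zero, add_zero]

section back

variable {V : Type*} [NormedAddCommGroup V]

lemma dif_lead (D : ℕ) (s : ℕ → V) : ∀ (j : ℕ) {M : ℝ}, (∀ k, 1 ≤ k → k ≤ D → ‖s (j + k)‖ ≤ M) →
    ‖(dif^[D] s) j - (-1 : ℤ) ^ D • s j‖ ≤ (2 ^ D - 1) * M ∧ (‖s j‖ ≤ M →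
      ‖(dif^[D] s) j‖ ≤ 2 ^ D * M) := by
  induction D with
  | zero =>
    intro j M h
    refine ⟨?_, ?_⟩
    · simp
    · intro hj
      simpa using hj
  | succ D ih =>
    intro j M h
    obtain ⟨h1, h1'⟩ := ih j (M := M) fun k hk hk' => h k hk (by omega)
    obtain ⟨-, h2⟩ := ih (j + 1) (M := M) fun k hk hk' => by
      have := h (k + 1) (by omega) (by omega)
      rwa [show j + 1 + k = j + (k + 1) by ring]
    have h3 := h2 (h 1 le_rfl (by omega))
    have e : (dif^[D + 1] s) j - (-1 : ℤ) ^ (D + 1) • s j = (dif^[D] s) (j + 1) -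
        ((dif^[D] s) j - (-1 : ℤ) ^ D • s j) := by
      rw [dif_succ, pow_succ, mul_neg, mul_one, neg_smul]
      abel
    refine ⟨?_, fun hj => ?_⟩
    · rw [e]
      refine (norm_sub_le _ _).trans ((add_le_add h3 h1).trans (le_of_eq ?_))
      rw [pow_succ]
      ring
    · rw [dif_succ]
      refine (norm_sub_le _ _).trans ((add_le_add h3 (h1' hj)).trans (le_of_eq ?_))
      rw [pow_succ]
      ring

/-- Extrapolation. -/
lemma back {D L : ℕ} {s : ℕ → V} {B : ℝ} (hB : 0 ≤ B) (h : ∀ j < L, (dif^[D] s) j = 0)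
    (hs : ∀ j, L ≤ j → j < L + D → ‖s j‖ ≤ B) : ∀ i, ∀ j, L ≤ j + i → j < L + D →
      ‖s j‖ ≤ (2 ^ D) ^ i * B := by
  intro i
  induction i with
  | zero =>
    intro j hj hj'
    rw [pow_zero, one_mul]
    exact hs j hj hj'
  | succ i ih =>
    intro j hj hj'
    have h2D : (1 : ℝ) ≤ 2 ^ D := one_le_pow₀ one_le_two
    have hmono : (2 ^ D) ^ i * B ≤ (2 ^ D) ^ (i + 1) * B := by
      refine mul_le_mul_of_nonneg_right ?_ hB
      exact pow_le_pow_right₀ h2D (Nat.le_succ i)
    by_cases hji : L ≤ j + i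
    · exact (ih j hji hj').trans hmono
    · have hj0 : j < L := by omega
      obtain ⟨h1, -⟩ := dif_lead D s j (M := (2 ^ D) ^ i * B) fun k hk hk' =>
        ih (j + k) (by omega) (by omega)
      rw [h j hj0, zero_sub, norm_neg] at h1
      have e : ‖(-1 : ℤ) ^ D • s j‖ = ‖s j‖ := by
        rcases neg_one_pow_eq_or ℤ D with h | h
        · rw [h, one_smul]
        · rw [h, neg_smul, one_smul, norm_neg]
      rw [e] at h1
      refine h1.trans ?_
      rw [pow_succ]
      have : 0 ≤ (2 ^ D : ℝ) ^ i * B := by positivity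
      nlinarith

end back

end Run7.h667.NG
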