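import Pool.Agent.Run7.h667.NG.Cone

/-!
# Typical operators with prescribed power growth on `L_p([0,1]; Y)`
-/

set_option autoImplicit false
open Finset Filter Topology TopologicalSpace MeasureTheory
open scoped ENNReal
open Pool.Agent.Y280 Run7.h667.TC Run7.h667.PC

namespace Run7.h667.NG

lemma Refl.of_iso {X E : Type} [NormedAddCommGroup X] [NormedSpace ℂ X] [NormedAddCommGroup E]
    [NormedSpace ℂ E] (e : X ≃ₗᵢ[ℂ] E) (hX : Refl X) : Refl E := by
  intro F
  let c : StrongDual ℂ X →L[ℂ] StrongDual ℂ E :=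
    (ContinuousLinearMap.compL ℂ E X ℂ).flip (e.symm.toContinuousLinearEquiv : E →L[ℂ] X)
  obtain ⟨x, hx⟩ := hX (F.comp c)
  refine ⟨e x, ?_⟩
  ext z
  have h1 := congrArg (fun G : StrongDual ℂ (StrongDual ℂ X) =>
    G (z.comp (e.toContinuousLinearEquiv : X →L[ℂ] E))) hx
  have h2 : c (z.comp (e.toContinuousLinearEquiv : X →L[ℂ] E)) = z := by
    ext w
    show z (e (e.symm w)) = z w
    rw [e.apply_symm_apply]
  have h3 : (F.comp c) (z.comp (e.toContinuousLinearEquiv : X →L[ℂ] E)) = F z := by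
    rw [ContinuousLinearMap.comp_apply, h2]
  rw [h3] at h1
  rw [← h1]
  rfl

lemma cj_pow {X E : Type} [NormedAddCommGroup X] [NormedSpace ℂ X] [NormedAddCommGroup E]
    [NormedSpace ℂ E] (e : X ≃ₗᵢ[ℂ] E) (T : X →L[ℂ] X) (n : ℕ) : cj e T ^ n = cj e (T ^ n) := by
  induction n with
  | zero =>
    ext x
    rw [cj_apply, pow_zero, pow_zero]
    show x = e (e.symm x)
    rw [e.apply_symm_apply]
  | succ n ih =>
    ext x
    rw [pow_succ', ih, cj_apply, pow_succ']
    show cj e T (cj e (T ^ n) x) = e (T ((T ^ n) (e.symm x)))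
    rw [cj_apply, cj_apply, e.symm_apply_apply]

/-- The general theorem: operators with prescribed power growth which preserve a cone. -/
theorem typ_cone {X : Type} [NormedAddCommGroup X] [NormedSpace ℂ X] [CompleteSpace X]
    [SeparableSpace X] [Nontrivial X] (hX : Refl X) {P : ℝ≥0∞} [hP : Fact (1 ≤ P)] (hP1 : 1 < P)
    (hPt : P ≠ ∞) {Y : Type} [NormedAddCommGroup Y] [NormedSpace ℂ Y] [CompleteSpace Y]
    {S : Set Y} (hS : CCone S) {ν : Measure ℝ} (hν : ν = volume.restrict (Set.Icc (0 : ℝ) 1))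
    (e : X ≃ₗᵢ[ℂ] Lp Y P ν) {g : ℕ → ℝ} (hg : ∀ k, 0 < g k) (C : Set (X →L[ℂ] X))
    (hC : C = {T | (∀ n, 0 < n → ‖T ^ n‖ ≤ g n) ∧
      ∀ x, (∀ᵐ t ∂ν, e x t ∈ S) → ∀ᵐ t ∂ν, e (T x) t ∈ S})
    (t : TopologicalSpace C) (ht : t = SOTStar C) :
    C.Nonempty ∧ @IsCompletelyMetrizableSpace C t ∧ @BaireSpace C t ∧
      {T : C | DenselyHyperinvariant (T : X →L[ℂ] X)} ∈ @residual C t := by
  have hmu : ν = mu := by
    rw [hν]
    exact Measure.restrict_congr_set Ico_ae_eq_Icc.symm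
  clear hν
  subst hmu
  have hp1 : 1 < P.toReal := by
    rw [← ENNReal.toReal_one]
    exact (ENNReal.toReal_lt_toReal ENNReal.one_ne_top hPt).2 hP1
  have hpq := Real.HolderConjugate.conjExponent hp1
  have hp := hpq.pos
  have hq := hpq.symm.pos
  have hE : Refl (Lp Y P mu) := Refl.of_iso e hX
  have hD := (preDy_Lp (Y := Y) hPt hpq).dy hp hE
  have hsep : SeparableSpace (Lp Y P mu) := e.surjective.denseRange.separableSpace e.continuous
  have hnt : Nontrivial (Lp Y P mu) := e.symm.surjective.nontrivial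
  subst hC
  refine transfer_hyp False e _ (PG g ∩ PosC P S) (fun T => ?_) t (Or.inl ht)
    DenselyHyperinvariant DenselyHyperinvariant (denselyHyperinvariant_cj e) fun t' ht' => ?_
  · refine and_congr ?_ ⟨fun h x hx => ?_, fun h x hx => ?_⟩
    · refine forall_congr' fun n => forall_congr' fun _ => ?_
      rw [cj_pow, norm_cj]
    · rw [cj_apply]
      refine h _ ?_
      rw [e.apply_symm_apply]
      exact hx
    · have h1 := h (e x) hx
      rwa [cj_apply, e.symm_apply_apply] at h1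
  · rcases ht' with h | ⟨-, h⟩
    · exact typ_PG hpq hE hS.kc hS.sclosed (hD.bin hS.kc (hS.UL_mem hPt) (hS.VL_mem hPt) hpq)
        (hD.room hS.kc (hS.UL_mem hPt) (hS.VL_mem hPt) hp hq) hg t' h
    · exact absurd h id

theorem typ_LpY {X : Type} [NormedAddCommGroup X] [NormedSpace ℂ X] [CompleteSpace X]
    [SeparableSpace X] [Nontrivial X] (hX : Refl X) {P : ℝ≥0∞} [hP : Fact (1 ≤ P)] (hP1 : 1 < P)
    (hPt : P ≠ ∞) {Y : Type} [NormedAddCommGroup Y] [NormedSpace ℂ Y] [CompleteSpace Y]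
    (e : X ≃ₗᵢ[ℂ] Lp Y P (volume.restrict (Set.Icc (0 : ℝ) 1))) {g : ℕ → ℝ} (hg : ∀ k, 0 < g k)
    (C : Set (X →L[ℂ] X)) (hC : C = PG g) (t : TopologicalSpace C) (ht : t = SOTStar C) :
    C.Nonempty ∧ @IsCompletelyMetrizableSpace C t ∧ @BaireSpace C t ∧
      {T : C | DenselyHyperinvariant (T : X →L[ℂ] X)} ∈ @residual C t := by
  have hS : CCone (Set.univ : Set Y) :=
    ⟨isClosed_univ, trivial, fun _ _ _ _ => trivial, fun _ _ _ _ => trivial⟩
  refine typ_cone hX hP1 hPt hS rfl e hg C ?_ t ht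
  rw [hC]
  ext T
  refine ⟨fun h => ⟨h, fun x _ => ?_⟩, fun h => h.1⟩
  exact Eventually.of_forall fun _ => trivial

end Run7.h667.NG
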