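import Pool.Agent.Run7.h667.NG.Meas

/-!
# The dyadic structure of `L_p([0,1]; Y)`, II
-/

set_option autoImplicit false
open Finset Filter Topology TopologicalSpace MeasureTheory
open scoped ENNReal

namespace Run7.h667.NG

variable {P : ℝ≥0∞} [hP : Fact (1 ≤ P)] {Y : Type} [NormedAddCommGroup Y] [NormedSpace ℂ Y]

lemma toReal_pos_of (hPt : P ≠ ∞) : 0 < P.toReal :=
  ENNReal.toReal_pos (zero_lt_one.trans_le hP.out).ne' hPt

/-- restriction to both halves -/
noncomputable def Wl (P : ℝ≥0∞) [Fact (1 ≤ P)] (Y : Type) [NormedAddCommGroup Y]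
    [NormedSpace ℂ Y] : Lp Y P mu →ₗ[ℂ] Lp Y P mu × Lp Y P mu :=
  (Vl P Y 0 two_pos).prod (Vl P Y 1 one_lt_two)

lemma Wl_bij (hPt : P ≠ ∞) : Function.Bijective (Wl P Y) := by
  constructor
  · rw [← LinearMap.ker_eq_bot, LinearMap.ker_eq_bot']
    intro x hx
    have h1 : Vl P Y 0 two_pos x = 0 := congrArg Prod.fst hx
    have h2 : Vl P Y 1 one_lt_two x = 0 := congrArg Prod.snd hx
    have h3 := norm_split_Vl hPt x
    have hp := toReal_pos_of hPt
    rw [h1, h2, norm_zero, Real.zero_rpow hp.ne', add_zero] at h3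
    exact norm_eq_zero.1 ((Real.rpow_eq_zero (norm_nonneg _) hp.ne').1 h3)
  · rintro ⟨f, g⟩
    obtain ⟨h, h1, h2⟩ := surj_Vl (P := P) (Y := Y) f g
    exact ⟨h, Prod.ext h1 h2⟩

/-- the inverse: putting two functions together -/
noncomputable def We (hPt : P ≠ ∞) : (Lp Y P mu) ≃ₗ[ℂ] Lp Y P mu × Lp Y P mu :=
  LinearEquiv.ofBijective (Wl P Y) (Wl_bij hPt)

lemma V0_We (hPt : P ≠ ∞) (f g : Lp Y P mu) : Vl P Y 0 two_pos ((We hPt).symm (f, g)) = f :=
  congrArg Prod.fst ((We hPt).apply_symm_apply (f, g))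

lemma V1_We (hPt : P ≠ ∞) (f g : Lp Y P mu) : Vl P Y 1 one_lt_two ((We hPt).symm (f, g)) = g :=
  congrArg Prod.snd ((We hPt).apply_symm_apply (f, g))

lemma We_V (hPt : P ≠ ∞) (x : Lp Y P mu) :
    (We hPt).symm (Vl P Y 0 two_pos x, Vl P Y 1 one_lt_two x) = x :=
  (We hPt).symm_apply_apply x

lemma norm_We (hPt : P ≠ ∞) (f g : Lp Y P mu) :
    ‖(We hPt).symm (f, g)‖ ^ P.toReal = ‖f‖ ^ P.toReal + ‖g‖ ^ P.toReal := by
  rw [norm_split_Vl hPt, V0_We, V1_We]

lemma norm_Vl_le (hPt : P ≠ ∞) (x : Lp Y P mu) : ‖Vl P Y 0 two_pos x‖ ≤ ‖x‖ ∧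
    ‖Vl P Y 1 one_lt_two x‖ ≤ ‖x‖ := by
  have hp := toReal_pos_of hPt
  have h := norm_split_Vl hPt x
  have h1 : 0 ≤ ‖Vl P Y 0 two_pos x‖ ^ P.toReal := by positivity
  have h2 : 0 ≤ ‖Vl P Y 1 one_lt_two x‖ ^ P.toReal := by positivity
  constructor
  · exact (Real.rpow_le_rpow_iff (norm_nonneg _) (norm_nonneg _) hp).1 (by linarith)
  · exact (Real.rpow_le_rpow_iff (norm_nonneg _) (norm_nonneg _) hp).1 (by linarith)

/-- the restrictions -/
noncomputable def VL (hPt : P ≠ ∞) (i : ℕ) : Lp Y P mu →L[ℂ] Lp Y P mu :=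
  if i = 0 then (Vl P Y 0 two_pos).mkContinuous 1 fun x => by
    rw [one_mul]; exact (norm_Vl_le hPt x).1
  else (Vl P Y 1 one_lt_two).mkContinuous 1 fun x => by
    rw [one_mul]; exact (norm_Vl_le hPt x).2

/-- the embeddings -/
noncomputable def UL (hPt : P ≠ ∞) (i : ℕ) : Lp Y P mu →L[ℂ] Lp Y P mu :=
  if i = 0 then ((We hPt).symm.toLinearMap ∘ₗ LinearMap.inl ℂ _ _).mkContinuous 1 fun x => by
    have hp := toReal_pos_of hPt
    rw [one_mul]
    refine (Real.rpow_le_rpow_iff (norm_nonneg _) (norm_nonneg _) hp).1 (le_of_eq ?_)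
    show ‖(We hPt).symm (x, 0)‖ ^ P.toReal = _
    rw [norm_We, norm_zero, Real.zero_rpow hp.ne', add_zero]
  else ((We hPt).symm.toLinearMap ∘ₗ LinearMap.inr ℂ _ _).mkContinuous 1 fun x => by
    have hp := toReal_pos_of hPt
    rw [one_mul]
    refine (Real.rpow_le_rpow_iff (norm_nonneg _) (norm_nonneg _) hp).1 (le_of_eq ?_)
    show ‖(We hPt).symm (0, x)‖ ^ P.toReal = _
    rw [norm_We, norm_zero, Real.zero_rpow hp.ne', zero_add]

lemma VL0 (hPt : P ≠ ∞) (x : Lp Y P mu) : VL hPt 0 x = Vl P Y 0 two_pos x := rfl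
lemma VL1 (hPt : P ≠ ∞) (x : Lp Y P mu) : VL hPt 1 x = Vl P Y 1 one_lt_two x := rfl
lemma UL0 (hPt : P ≠ ∞) (x : Lp Y P mu) : UL hPt 0 x = (We hPt).symm (x, 0) := rfl
lemma UL1 (hPt : P ≠ ∞) (x : Lp Y P mu) : UL hPt 1 x = (We hPt).symm (0, x) := rfl

lemma UL_add (hPt : P ≠ ∞) (x y : Lp Y P mu) :
    UL hPt 0 x + UL hPt 1 y = (We hPt).symm (x, y) := by
  rw [UL0, UL1, ← map_add, Prod.mk_add_mk, add_zero, zero_add]

lemma cz_Lp (hPt : P ≠ ∞) : Cz P.toReal (UL (Y := Y) hPt) (VL hPt) := by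
  refine ⟨?_, ?_, ?_, ?_, ?_, ?_⟩
  · ext1 x
    exact V0_We hPt x 0
  · ext1 x
    exact V0_We hPt 0 x
  · ext1 x
    exact V1_We hPt x 0
  · ext1 x
    exact V1_We hPt 0 x
  · ext1 x
    show UL hPt 0 (VL hPt 0 x) + UL hPt 1 (VL hPt 1 x) = x
    rw [UL_add, VL0, VL1, We_V]
  · intro x y
    rw [UL_add, norm_We]

variable [CompleteSpace Y]

omit [NormedSpace ℂ Y] [CompleteSpace Y] in
lemma integrable_Lp (x : Lp Y P mu) : Integrable x mu := (Lp.memLp x).integrable hP.out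

omit [CompleteSpace Y] in
lemma norm_integral_Lp (x : Lp Y P mu) : ‖∫ s, x s ∂mu‖ ≤ ‖x‖ := by
  have h1 : ‖∫ s, x s ∂mu‖ ≤ ∫ s, ‖x s‖ ∂mu := norm_integral_le_integral_norm _
  have h2 : ∫ s, ‖x s‖ ∂mu = (eLpNorm x 1 mu).toReal := by
    rw [eLpNorm_one_eq_lintegral_enorm, integral_norm_eq_lintegral_enorm
      (Lp.aestronglyMeasurable x)]
  rw [h2] at h1
  refine h1.trans ?_
  rw [Lp.norm_def]
  exact ENNReal.toReal_mono (Lp.eLpNorm_ne_top x)
    (eLpNorm_le_eLpNorm_of_exponent_le hP.out (Lp.aestronglyMeasurable x))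

/-- the mean value -/
noncomputable def JL (P : ℝ≥0∞) [Fact (1 ≤ P)] (hPt : P ≠ ∞) (Y : Type) [NormedAddCommGroup Y]
    [NormedSpace ℂ Y] : Lp Y P mu →L[ℂ] Lp Y P mu :=
  LinearMap.mkContinuous
    { toFun := fun x => Lp.const P mu (∫ s, x s ∂mu)
      map_add' := fun x y => by
        rw [← map_add]
        congr 1
        rw [← integral_add ((Lp.memLp x).integrable Fact.out) ((Lp.memLp y).integrable Fact.out)]
        exact integral_congr_ae (Lp.coeFn_add x y)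
      map_smul' := fun c x => by
        have h1 : ∫ s, (c • x : Lp Y P mu) s ∂mu = c • ∫ s, x s ∂mu := by
          rw [← integral_smul]
          exact integral_congr_ae (Lp.coeFn_smul c x)
        rw [h1, RingHom.id_apply]
        exact map_smul (Lp.constₗ P mu ℂ) c _ }
    1 fun x => by
      rw [one_mul]
      show ‖Lp.const P mu (∫ s, x s ∂mu)‖ ≤ _
      rw [Lp.norm_const' _ _ _ (zero_lt_one.trans_le (Fact.out : 1 ≤ P)).ne' hPt]
      simp only [probReal_univ, Real.one_rpow, mul_one]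
      exact norm_integral_Lp x

omit [CompleteSpace Y] in
lemma JL_apply (hPt : P ≠ ∞) (x : Lp Y P mu) :
    JL P hPt Y x = Lp.const P mu (∫ s, x s ∂mu) := rfl

omit [CompleteSpace Y] in
lemma JL_ae (hPt : P ≠ ∞) (x : Lp Y P mu) : JL P hPt Y x =ᵐ[mu] fun _ => ∫ s, x s ∂mu := by
  rw [JL_apply]
  exact Lp.coeFn_const P mu _

omit [CompleteSpace Y] in
lemma Vl_const {b : ℕ} (hb : b < 2) (k : Y) :
    Vl P Y b hb (Lp.const P mu k) = (cc P : ℂ) • Lp.const P mu k := by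
  ext1
  filter_upwards [Vl_ae hb (Lp.const P mu k), (qmp_sg hb).ae_eq_comp (Lp.coeFn_const P mu k),
    Lp.coeFn_smul (cc P : ℂ) (Lp.const P mu k), Lp.coeFn_const P mu k] with s a1 a2 a3 a4
  simp only [Function.comp_apply, Function.const_apply, Pi.smul_apply] at a2 a3 a4
  rw [a1, a2, a3, a4]

omit [CompleteSpace Y] in
lemma UJ_Lp (hPt : P ≠ ∞) : avU P.toReal 2 (UL hPt) * JL P hPt Y = JL P hPt Y := by
  have hp := toReal_pos_of hPt
  ext1 x
  set k := ∫ s, x s ∂mu with hk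
  have hJ : JL P hPt Y x = Lp.const P mu k := rfl
  show avU P.toReal 2 (UL hPt) (JL P hPt Y x) = JL P hPt Y x
  rw [hJ, avU_apply, sum_range_succ, sum_range_one, UL_add]
  apply (We hPt).injective
  rw [map_smul, LinearEquiv.apply_symm_apply]
  have e : We hPt (Lp.const P mu k) = (Vl P Y 0 two_pos (Lp.const P mu k),
      Vl P Y 1 one_lt_two (Lp.const P mu k)) := rfl
  rw [e, Vl_const, Vl_const]
  unfold cc
  norm_num

omit [CompleteSpace Y] in
lemma integral_Vl {b : ℕ} (hb : b < 2) (x : Lp Y P mu) :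
    ∫ s, Vl P Y b hb x s ∂mu = (cc P : ℂ) • (2 : ℝ) • ∫ s in Jb b, x s := by
  have h1 : ∫ s, Vl P Y b hb x s ∂mu = ∫ s, (cc P : ℂ) • x (sg b s) ∂mu :=
    integral_congr_ae (Vl_ae hb x)
  rw [h1, integral_smul]
  congr 1
  have hx : StronglyMeasurable x := Lp.stronglyMeasurable x
  have h2 := integral_map (μ := mu) (measurable_sg b).aemeasurable
    (f := x) hx.aestronglyMeasurable
  rw [← h2, (mp_sg b).map_eq, integral_smul_measure]
  simp

omit [CompleteSpace Y] in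
lemma JV_Lp (hPt : P ≠ ∞) {q : ℝ} (hpq : P.toReal.HolderConjugate q) :
    JL P hPt Y * avU q 2 (VL hPt) = JL P hPt Y := by
  have hp := toReal_pos_of hPt
  ext1 x
  show JL P hPt Y (avU q 2 (VL hPt) x) = JL P hPt Y x
  rw [avU_apply, sum_range_succ, sum_range_one, map_smul, map_add, JL_apply, JL_apply, JL_apply,
    VL0, VL1, integral_Vl, integral_Vl, ← map_add, ← smul_add, ← smul_add]
  have h2 : mu = volume.restrict (Jb 0 ∪ Jb 1) := by rw [Jb_union]; rfl
  have h3 : (∫ s in Jb 0, x s) + ∫ s in Jb 1, x s = ∫ s, x s ∂mu := by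
    have h4 : ∀ f : ℝ → Y, ∫ a, f a ∂mu = ∫ a in Jb 0 ∪ Jb 1, f a := fun f => by rw [h2]
    have hi := integrable_Lp x
    have h5 : ∀ b < 2, IntegrableOn x (Jb b) volume := fun b hb =>
      hi.mono_measure (Measure.restrict_mono (Jb_subset hb) le_rfl)
    rw [h4, setIntegral_union Jb_disjoint measurableSet_Ico (h5 0 two_pos) (h5 1 one_lt_two)]
  rw [h3]
  have h6 : (cc P : ℂ) • (2 : ℝ) • ∫ s, x s ∂mu = ((cc P * 2 : ℝ) : ℂ) • ∫ s, x s ∂mu := by
    rw [Complex.ofReal_mul, ← smul_smul]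
    congr 1
  have h7 : Lp.const P mu (((cc P * 2 : ℝ) : ℂ) • ∫ s, x s ∂mu) =
      ((cc P * 2 : ℝ) : ℂ) • Lp.const P mu (∫ s, x s ∂mu) :=
    map_smul (Lp.constₗ P mu ℂ) _ _
  rw [h6, h7, smul_smul, ← Complex.ofReal_mul]
  have h8 : (((2 : ℕ) : ℝ) ^ (-1 / q) * (cc P * 2) : ℝ) = 1 := by
    unfold cc
    rw [Nat.cast_ofNat, ← mul_assoc, ← Real.rpow_add two_pos]
    have h9 : -1 / q + -1 / P.toReal = -1 := by
      have := hpq.inv_add_inv_eq_one
      rw [neg_div, neg_div, one_div, one_div]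
      linarith
    rw [h9, Real.rpow_neg_one]
    norm_num
  rw [h8, Complex.ofReal_one, one_smul]

lemma JJ_Lp (hPt : P ≠ ∞) : JL P hPt Y * JL P hPt Y = JL P hPt Y := by
  ext1 x
  show JL P hPt Y (JL P hPt Y x) = JL P hPt Y x
  rw [JL_apply hPt (JL P hPt Y x), integral_congr_ae (JL_ae hPt x)]
  simp
  rfl

/-- **Uniformly continuous functions are close to their conditional expectations.** -/
lemma cond_close (hPt : P ≠ ∞) (N : ℕ) : ∀ (x : Lp Y P mu) (F : ℝ → Y) (η : ℝ), x =ᵐ[mu] F →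
    0 ≤ η → (∀ s ∈ Set.Ico (0 : ℝ) 1, ∀ t ∈ Set.Ico (0 : ℝ) 1, |s - t| ≤ (1 / 2) ^ N →
      ‖F s - F t‖ ≤ η) → ‖((lv (UL hPt) (VL hPt))^[N] (JL P hPt Y)) x - x‖ ≤ η := by
  have hp := toReal_pos_of hPt
  have hmem : ∀ᵐ s ∂mu, s ∈ Set.Ico (0 : ℝ) 1 := by
    rw [mu]
    exact ae_restrict_mem measurableSet_Ico
  induction N with
  | zero =>
    intro x F η hx hη hF
    rw [Function.iterate_zero, id]
    have hFi : Integrable F mu := (integrable_Lp x).congr hx
    have h1 : ∀ᵐ s ∂mu, ‖(JL P hPt Y x - x : Lp Y P mu) s‖ ≤ η := by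
      filter_upwards [Lp.coeFn_sub (JL P hPt Y x) x, JL_ae hPt x, hx, hmem] with s a1 a2 a3 a4
      simp only [Pi.sub_apply] at a1
      rw [a1, a2, a3, integral_congr_ae hx]
      have e : ∫ t, F t ∂mu - F s = ∫ t, (F t - F s) ∂mu := by
        rw [integral_sub hFi (integrable_const _)]
        simp
      rw [e]
      have h2 := norm_integral_le_of_norm_le_const (μ := mu) (f := fun t => F t - F s) (C := η) (by
        filter_upwards [hmem] with t ht
        refine hF t ht s a4 ?_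
        rw [pow_zero, abs_le]
        rw [Set.mem_Ico] at ht a4
        constructor <;> linarith [ht.1, ht.2, a4.1, a4.2])
      simpa using h2
    have h2 := Lp.norm_le_of_ae_bound hη h1
    have h3 : measureUnivNNReal mu = 1 := by
      unfold measureUnivNNReal
      simp
    rwa [h3, NNReal.coe_one, Real.one_rpow, one_mul] at h2
  | succ N ih =>
    intro x F η hx hη hF
    rw [Function.iterate_succ_apply']
    set G := (lv (UL hPt) (VL hPt))^[N] (JL P hPt Y) with hG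
    have e : lv (UL hPt) (VL hPt) G x - x = UL hPt 0 (G (VL hPt 0 x) - VL hPt 0 x) +
        UL hPt 1 (G (VL hPt 1 x) - VL hPt 1 x) := by
      have h1 := (cz_Lp (Y := Y) hPt).split x
      have h2 : lv (UL hPt) (VL hPt) G x = UL hPt 0 (G (VL hPt 0 x)) +
        UL hPt 1 (G (VL hPt 1 x)) := rfl
      have h3 : ∀ a b c d : Lp Y P mu, a + b - (c + d) = a - c + (b - d) := by
        intro a b c d; abel
      rw [map_sub, map_sub, h2, ← h3, h1]
    have hb : ∀ (b : ℕ) (hb : b < 2), ‖G (Vl P Y b hb x) - Vl P Y b hb x‖ ≤ cc P * η := by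
      intro b hb
      refine ih (Vl P Y b hb x) (fun s => (cc P : ℂ) • F (sg b s)) (cc P * η) ?_
        (mul_nonneg cc_pos.le hη) ?_
      · filter_upwards [Vl_ae hb x, (qmp_sg hb).ae_eq_comp hx] with s a1 a2
        simp only [Function.comp_apply] at a2
        rw [a1, a2]
      · intro s hs t ht hst
        rw [← smul_sub, norm_smul, Complex.norm_real, Real.norm_of_nonneg cc_pos.le]
        refine mul_le_mul_of_nonneg_left ?_ cc_pos.le
        refine hF _ (Jb_subset hb (sg_mem.2 hs)) _ (Jb_subset hb (sg_mem.2 ht)) ?_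
        have e1 : sg b s - sg b t = (s - t) * (1 / 2) := by unfold sg; ring
        rw [e1, abs_mul, pow_succ, abs_of_pos (show (0 : ℝ) < 1 / 2 by norm_num)]
        exact mul_le_mul_of_nonneg_right hst (by norm_num)
    rw [e]
    refine (Real.rpow_le_rpow_iff (norm_nonneg _) hη hp).1 ?_
    rw [(cz_Lp (Y := Y) hPt).norm, VL0, VL1]
    have h1 := Real.rpow_le_rpow (norm_nonneg _) (hb 0 two_pos) hp.le
    have h2 := Real.rpow_le_rpow (norm_nonneg _) (hb 1 one_lt_two) hp.le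
    rw [Real.mul_rpow cc_pos.le hη, cc_rpow hp] at h1 h2
    linarith

lemma tend_Lp (hPt : P ≠ ∞) (x : Lp Y P mu) :
    Tendsto (fun N => ((lv (UL hPt) (VL hPt))^[N] (JL P hPt Y)) x) atTop (𝓝 x) := by
  have hp := toReal_pos_of hPt
  rw [Metric.tendsto_atTop]
  intro ε hε
  obtain ⟨g, hg, hgm⟩ := (Lp.memLp x).exists_boundedContinuous_eLpNorm_sub_le hPt
    (ε := ENNReal.ofReal (ε / 4)) (by
      rw [Ne, ENNReal.ofReal_eq_zero]
      push Not
      positivity)
  set v : Lp Y P mu := hgm.toLp with hv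
  have hxv : ‖x - v‖ ≤ ε / 4 := by
    have h1 : x - v = ((Lp.memLp x).sub hgm).toLp := by
      rw [MemLp.toLp_sub (Lp.memLp x) hgm, Lp.toLp_coeFn x (Lp.memLp x)]
    rw [h1, Lp.norm_toLp]
    exact ENNReal.toReal_le_of_le_ofReal (by positivity) hg
  have huc : UniformContinuousOn g (Set.Icc (0 : ℝ) 1) :=
    isCompact_Icc.uniformContinuousOn_of_continuous g.continuous.continuousOn
  rw [Metric.uniformContinuousOn_iff] at huc
  obtain ⟨δ, hδ, huc⟩ := huc (ε / 4) (by positivity)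
  obtain ⟨N0, hN0⟩ := exists_pow_lt_of_lt_one hδ (show (1 / 2 : ℝ) < 1 by norm_num)
  refine ⟨N0, fun N hN => ?_⟩
  have h1 : ‖((lv (UL hPt) (VL hPt))^[N] (JL P hPt Y)) v - v‖ ≤ ε / 4 := by
    refine cond_close hPt N v g (ε / 4) hgm.coeFn_toLp (by positivity) ?_
    intro s hs t ht hst
    have h2 := huc s (Set.Ico_subset_Icc_self hs) t (Set.Ico_subset_Icc_self ht) (by
      rw [Real.dist_eq]
      refine hst.trans_lt (lt_of_le_of_lt ?_ hN0)
      exact pow_le_pow_of_le_one (by norm_num) (by norm_num) hN)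
    rw [dist_eq_norm] at h2
    exact h2.le
  rw [dist_eq_norm]
  set G := (lv (UL hPt) (VL hPt))^[N] (JL P hPt Y) with hG
  have hGn : ∀ z, ‖G z‖ ≤ ‖z‖ := (cz_Lp (Y := Y) hPt).norm_iter_le hp (fun z => by
    have := (JL P hPt Y).le_opNorm z
    have h3 : ‖JL P hPt Y‖ ≤ 1 := LinearMap.mkContinuous_norm_le _ zero_le_one _
    exact this.trans (mul_le_of_le_one_left (norm_nonneg _) h3)) N
  have e : G x - x = G (x - v) + (G v - v) - (x - v) := by
    rw [map_sub]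
    abel
  rw [e]
  have t1 := norm_sub_le (G (x - v) + (G v - v)) (x - v)
  have t2 := norm_add_le (G (x - v)) (G v - v)
  have t3 := hGn (x - v)
  linarith

theorem preDy_Lp (hPt : P ≠ ∞) {q : ℝ} (hpq : P.toReal.HolderConjugate q) :
    PreDy P.toReal q (UL (Y := Y) hPt) (VL hPt) (JL P hPt Y) where
  cz := cz_Lp hPt
  J_norm := fun x => by
    have := (JL P hPt Y).le_opNorm x
    have h3 : ‖JL P hPt Y‖ ≤ 1 := LinearMap.mkContinuous_norm_le _ zero_le_one _
    exact this.trans (mul_le_of_le_one_left (norm_nonneg _) h3)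
  JJ := JJ_Lp hPt
  UJ := UJ_Lp hPt
  JV := JV_Lp hPt hpq
  tend := tend_Lp hPt

end Run7.h667.NG
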