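import Pool.Agent.Run7.h667.NG.Asm

/-!
# The dyadic structure of `L_p([0,1]; Y)`
-/

set_option autoImplicit false
open Finset Filter Topology TopologicalSpace MeasureTheory
open scoped ENNReal

namespace Run7.h667.NG

/-- Lebesgue measure on `[0,1)` -/
noncomputable def mu : Measure ℝ := volume.restrict (Set.Ico 0 1)

instance : IsProbabilityMeasure mu := ⟨by simp [mu]⟩

/-- the halves of `[0,1)` -/
def Jb (b : ℕ) : Set ℝ := Set.Ico ((b : ℝ) / 2) (((b : ℝ) + 1) / 2)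

/-- the map onto a half -/
noncomputable def sg (b : ℕ) (s : ℝ) : ℝ := (s + b) / 2

/-- the inverse -/
noncomputable def tau (b : ℕ) (t : ℝ) : ℝ := 2 * t - b

lemma measurable_sg (b : ℕ) : Measurable (sg b) := by unfold sg; fun_prop

lemma measurable_tau (b : ℕ) : Measurable (tau b) := by unfold tau; fun_prop

lemma tau_sg (b : ℕ) (s : ℝ) : tau b (sg b s) = s := by unfold tau sg; ring

lemma map_sg (b : ℕ) : Measure.map (sg b) volume = (2 : ℝ≥0∞) • (volume : Measure ℝ) := by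
  have e : sg b = (fun x : ℝ => x + (b : ℝ) / 2) ∘ fun x : ℝ => (1 / 2 : ℝ) * x := by
    funext s
    simp only [sg, Function.comp_apply]
    ring
  have h1 : Measure.map (fun x : ℝ => (1 / 2 : ℝ) * x) volume = (2 : ℝ≥0∞) • volume := by
    rw [Real.map_volume_mul_left (by norm_num)]
    congr 1
    rw [show |((1 : ℝ) / 2)⁻¹| = 2 by norm_num]
    simp
  have h2 : Measure.map (fun x : ℝ => x + (b : ℝ) / 2) volume = volume :=
    map_add_right_eq_self volume _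
  rw [e, ← Measure.map_map (by fun_prop) (by fun_prop), h1, Measure.map_smul, h2]

lemma map_tau (b : ℕ) : Measure.map (tau b) volume = (1 / 2 : ℝ≥0∞) • (volume : Measure ℝ) := by
  have e : tau b = (fun x : ℝ => x + (-(b : ℝ))) ∘ fun x : ℝ => (2 : ℝ) * x := by
    funext s
    simp only [tau, Function.comp_apply]
    ring
  have h1 : Measure.map (fun x : ℝ => (2 : ℝ) * x) volume = (1 / 2 : ℝ≥0∞) • volume := by
    rw [Real.map_volume_mul_left (by norm_num)]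
    congr 1
    rw [show |(2 : ℝ)⁻¹| = 2⁻¹ by norm_num, ENNReal.ofReal_inv_of_pos two_pos]
    simp
  have h2 : Measure.map (fun x : ℝ => x + (-(b : ℝ))) volume = volume :=
    map_add_right_eq_self volume _
  rw [e, ← Measure.map_map (by fun_prop) (by fun_prop), h1, Measure.map_smul, h2]

lemma sg_mem {b : ℕ} {s : ℝ} : sg b s ∈ Jb b ↔ s ∈ Set.Ico (0 : ℝ) 1 := by
  unfold sg Jb
  simp only [Set.mem_Ico]
  constructor
  · rintro ⟨h1, h2⟩
    constructor <;> linarith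
  · rintro ⟨h1, h2⟩
    constructor <;> linarith

lemma tau_mem {b : ℕ} {s : ℝ} : tau b s ∈ Set.Ico (0 : ℝ) 1 ↔ s ∈ Jb b := by
  unfold tau Jb
  simp only [Set.mem_Ico]
  constructor
  · rintro ⟨h1, h2⟩
    constructor <;> linarith
  · rintro ⟨h1, h2⟩
    constructor <;> linarith

lemma mp_sg (b : ℕ) : MeasurePreserving (sg b) mu ((2 : ℝ≥0∞) • volume.restrict (Jb b)) := by
  have h : MeasurePreserving (sg b) volume ((2 : ℝ≥0∞) • volume) := ⟨measurable_sg b, map_sg b⟩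
  have h2 := h.restrict_preimage (s := Jb b) measurableSet_Ico
  have e : sg b ⁻¹' Jb b = Set.Ico 0 1 := by
    ext s
    exact sg_mem
  rw [e, Measure.restrict_smul] at h2
  exact h2

lemma mp_tau (b : ℕ) : MeasurePreserving (tau b) (volume.restrict (Jb b)) ((1 / 2 : ℝ≥0∞) • mu) := by
  have h : MeasurePreserving (tau b) volume ((1 / 2 : ℝ≥0∞) • volume) :=
    ⟨measurable_tau b, map_tau b⟩
  have h2 := h.restrict_preimage (s := Set.Ico (0 : ℝ) 1) measurableSet_Ico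
  have e : tau b ⁻¹' Set.Ico (0 : ℝ) 1 = Jb b := by
    ext s
    exact tau_mem
  rw [e, Measure.restrict_smul] at h2
  exact h2

lemma Jb_subset {b : ℕ} (hb : b < 2) : Jb b ⊆ Set.Ico (0 : ℝ) 1 := by
  intro s hs
  unfold Jb at hs
  have hb' : (b : ℝ) ≤ 1 := by exact_mod_cast Nat.lt_succ_iff.1 hb
  have hb0 : (0 : ℝ) ≤ b := Nat.cast_nonneg b
  rw [Set.mem_Ico] at hs ⊢
  constructor <;> linarith [hs.1, hs.2]

lemma Jb_union : Jb 0 ∪ Jb 1 = Set.Ico (0 : ℝ) 1 := by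
  unfold Jb
  norm_num

lemma Jb_disjoint : Disjoint (Jb 0) (Jb 1) := by
  unfold Jb
  rw [Set.Ico_disjoint_Ico]
  norm_num

lemma qmp_sg {b : ℕ} (hb : b < 2) : Measure.QuasiMeasurePreserving (sg b) mu mu := by
  refine (mp_sg b).quasiMeasurePreserving.mono_right ?_
  refine Measure.AbsolutelyContinuous.smul_left ?_ _
  exact (Measure.restrict_mono (Jb_subset hb) le_rfl).absolutelyContinuous

variable {P : ℝ≥0∞} [hP : Fact (1 ≤ P)] {Y : Type} [NormedAddCommGroup Y] [NormedSpace ℂ Y]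

/-- the normalising factor -/
noncomputable def cc (P : ℝ≥0∞) : ℝ := (2 : ℝ) ^ (-1 / P.toReal)

omit hP in
lemma cc_pos : 0 < cc P := by unfold cc; positivity

omit hP in
lemma cc_rpow (hp : 0 < P.toReal) : cc P ^ P.toReal = 1 / 2 := by
  unfold cc
  rw [← Real.rpow_mul two_pos.le, div_mul_cancel₀ _ hp.ne', Real.rpow_neg_one]
  norm_num

omit hP in
lemma memLp_sg {b : ℕ} (hb : b < 2) {f : ℝ → Y} (hf : MemLp f P mu) :
    MemLp (fun s => (cc P : ℂ) • f (sg b s)) P mu := by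
  have h1 : MemLp f P (volume.restrict (Jb b)) :=
    hf.mono_measure (Measure.restrict_mono (Jb_subset hb) le_rfl)
  have h2 : MemLp f P ((2 : ℝ≥0∞) • volume.restrict (Jb b)) :=
    h1.smul_measure ENNReal.ofNat_ne_top
  exact (h2.comp_measurePreserving (mp_sg b)).const_smul (cc P : ℂ)

/-- restriction to a half, as a linear map -/
noncomputable def Vl (P : ℝ≥0∞) [Fact (1 ≤ P)] (Y : Type) [NormedAddCommGroup Y]
    [NormedSpace ℂ Y] (b : ℕ) (hb : b < 2) : Lp Y P mu →ₗ[ℂ] Lp Y P mu where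
  toFun f := (memLp_sg hb (Lp.memLp f)).toLp
  map_add' f g := by
    ext1
    have h1 := (memLp_sg (P := P) hb (Lp.memLp (f + g))).coeFn_toLp
    have h2 := (memLp_sg (P := P) hb (Lp.memLp f)).coeFn_toLp
    have h3 := (memLp_sg (P := P) hb (Lp.memLp g)).coeFn_toLp
    have h4 := Lp.coeFn_add ((memLp_sg (P := P) hb (Lp.memLp f)).toLp)
      ((memLp_sg (P := P) hb (Lp.memLp g)).toLp)
    have h5 := (qmp_sg hb).ae_eq_comp (Lp.coeFn_add f g)
    filter_upwards [h1, h2, h3, h4, h5] with s a1 a2 a3 a4 a5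
    simp only [Function.comp_apply, Pi.add_apply] at a5 a4
    rw [a1, a4, a2, a3, a5, smul_add]
  map_smul' c f := by
    ext1
    have h1 := (memLp_sg (P := P) hb (Lp.memLp (c • f))).coeFn_toLp
    have h2 := (memLp_sg (P := P) hb (Lp.memLp f)).coeFn_toLp
    have h4 := Lp.coeFn_smul c ((memLp_sg (P := P) hb (Lp.memLp f)).toLp)
    have h5 := (qmp_sg hb).ae_eq_comp (Lp.coeFn_smul c f)
    filter_upwards [h1, h2, h4, h5] with s a1 a2 a4 a5
    simp only [Function.comp_apply, Pi.smul_apply] at a5 a4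
    rw [a1, RingHom.id_apply, a4, a2, a5, smul_comm]

lemma Vl_ae {b : ℕ} (hb : b < 2) (f : Lp Y P mu) :
    Vl P Y b hb f =ᵐ[mu] fun s => (cc P : ℂ) • f (sg b s) :=
  (memLp_sg hb (Lp.memLp f)).coeFn_toLp

omit [NormedSpace ℂ Y] in
lemma norm_rpow_eq (hPt : P ≠ ∞) (x : Lp Y P mu) :
    ‖x‖ ^ P.toReal = (∫⁻ a, ‖x a‖ₑ ^ P.toReal ∂mu).toReal := by
  have h0 : P ≠ 0 := (zero_lt_one.trans_le hP.out).ne'
  have hp : 0 < P.toReal := ENNReal.toReal_pos h0 hPt
  rw [Lp.norm_def, eLpNorm_eq_lintegral_rpow_enorm_toReal h0 hPt, ← ENNReal.toReal_rpow,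
    ← Real.rpow_mul ENNReal.toReal_nonneg, one_div, inv_mul_cancel₀ hp.ne', Real.rpow_one]

omit [NormedSpace ℂ Y] in
lemma lintegral_fin (hPt : P ≠ ∞) (x : Lp Y P mu) : ∫⁻ a, ‖x a‖ₑ ^ P.toReal ∂mu ≠ ∞ := by
  have h0 : P ≠ 0 := (zero_lt_one.trans_le hP.out).ne'
  exact (lintegral_rpow_enorm_lt_top_of_eLpNorm_lt_top h0 hPt (Lp.eLpNorm_lt_top x)).ne

lemma norm_Vl (hPt : P ≠ ∞) {b : ℕ} (hb : b < 2) (x : Lp Y P mu) :
    ‖Vl P Y b hb x‖ ^ P.toReal = (∫⁻ a in Jb b, ‖x a‖ₑ ^ P.toReal).toReal := by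
  have h0 : P ≠ 0 := (zero_lt_one.trans_le hP.out).ne'
  have hp : 0 < P.toReal := ENNReal.toReal_pos h0 hPt
  rw [norm_rpow_eq hPt]
  have hm : Measurable fun a => ‖x a‖ₑ ^ P.toReal :=
    (Lp.stronglyMeasurable x).enorm.pow_const _
  have e1 : ∫⁻ a, ‖Vl P Y b hb x a‖ₑ ^ P.toReal ∂mu =
      ∫⁻ a, ‖(cc P : ℂ)‖ₑ ^ P.toReal * ‖x (sg b a)‖ₑ ^ P.toReal ∂mu := by
    refine lintegral_congr_ae ?_
    filter_upwards [Vl_ae hb x] with a ha
    rw [ha, enorm_smul, ENNReal.mul_rpow_of_nonneg _ _ hp.le]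
  have e2 : ∫⁻ a, ‖x (sg b a)‖ₑ ^ P.toReal ∂mu = 2 * ∫⁻ a in Jb b, ‖x a‖ₑ ^ P.toReal := by
    have := (mp_sg b).lintegral_comp hm
    rw [this, lintegral_smul_measure, smul_eq_mul]
  have e3 := lintegral_const_mul (μ := mu) (‖(cc P : ℂ)‖ₑ ^ P.toReal)
    (hm.comp (measurable_sg b))
  simp only [Function.comp_apply] at e3
  rw [e1, e3, e2, ENNReal.toReal_mul,
    ENNReal.toReal_mul, ← ENNReal.toReal_rpow, toReal_enorm, Complex.norm_real,
    Real.norm_of_nonneg cc_pos.le, cc_rpow hp]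
  norm_num
  ring

lemma norm_split_Vl (hPt : P ≠ ∞) (x : Lp Y P mu) : ‖x‖ ^ P.toReal =
    ‖Vl P Y 0 two_pos x‖ ^ P.toReal + ‖Vl P Y 1 one_lt_two x‖ ^ P.toReal := by
  have h2 : mu = volume.restrict (Jb 0 ∪ Jb 1) := by rw [Jb_union]; rfl
  have h3 := lintegral_fin hPt x
  have h4 : ∀ f : ℝ → ℝ≥0∞, ∫⁻ a, f a ∂mu = ∫⁻ a in Jb 0 ∪ Jb 1, f a := fun f => by rw [h2]
  have e : ∫⁻ a, ‖x a‖ₑ ^ P.toReal ∂mu = (∫⁻ a in Jb 0, ‖x a‖ₑ ^ P.toReal) +
      (∫⁻ a in Jb 1, ‖x a‖ₑ ^ P.toReal) := by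
    rw [h4]
    exact lintegral_union measurableSet_Ico Jb_disjoint
  rw [norm_Vl hPt, norm_Vl hPt, norm_rpow_eq hPt, e, ENNReal.toReal_add]
  · exact fun h => h3 (by rw [e, h, top_add])
  · exact fun h => h3 (by rw [e, h, add_top])

lemma surj_Vl (f g : Lp Y P mu) : ∃ h : Lp Y P mu, Vl P Y 0 two_pos h = f ∧
    Vl P Y 1 one_lt_two h = g := by
  classical
  set c : ℂ := (cc P : ℂ) with hc
  have hc0 : c ≠ 0 := Complex.ofReal_ne_zero.2 cc_pos.ne'
  have hm : ∀ (b : ℕ) (f : Lp Y P mu), MemLp (fun t => c⁻¹ • f (tau b t)) P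
      (volume.restrict (Jb b)) := by
    intro b f
    have h2 : MemLp f P ((1 / 2 : ℝ≥0∞) • mu) := (Lp.memLp f).smul_measure (by simp)
    exact (h2.comp_measurePreserving (mp_tau b)).const_smul c⁻¹
  have hI : mu.restrict (Set.Iio (1 / 2)) = volume.restrict (Jb 0) := by
    rw [mu, Measure.restrict_restrict measurableSet_Iio]
    congr 1
    ext s
    unfold Jb
    simp only [Set.mem_inter_iff, Set.mem_Iio, Set.mem_Ico]
    norm_num
    constructor
    · rintro ⟨h1, h2, h3⟩; exact ⟨h2, h1⟩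
    · rintro ⟨h1, h2⟩; exact ⟨h2, h1, by linarith⟩
  have hI' : mu.restrict (Set.Iio (1 / 2))ᶜ = volume.restrict (Jb 1) := by
    rw [mu, Measure.restrict_restrict measurableSet_Iio.compl]
    congr 1
    ext s
    unfold Jb
    simp only [Set.mem_inter_iff, Set.mem_compl_iff, Set.mem_Iio, Set.mem_Ico]
    norm_num
    intro h1 h2
    linarith
  have hh : MemLp ((Set.Iio (1 / 2 : ℝ)).piecewise (fun t => c⁻¹ • f (tau 0 t))
      (fun t => c⁻¹ • g (tau 1 t))) P mu := by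
    refine MemLp.piecewise measurableSet_Iio ?_ ?_
    · rw [hI]; exact hm 0 f
    · rw [hI']; exact hm 1 g
  have hmem : ∀ᵐ s ∂mu, s ∈ Set.Ico (0 : ℝ) 1 := by
    rw [mu]
    exact ae_restrict_mem measurableSet_Ico
  refine ⟨hh.toLp, ?_, ?_⟩
  · ext1
    filter_upwards [Vl_ae two_pos hh.toLp, (qmp_sg two_pos).ae_eq_comp hh.coeFn_toLp, hmem] with
      s a1 a2 a3
    simp only [Function.comp_apply] at a2
    rw [a1, a2, Set.piecewise_eq_of_mem, tau_sg, ← hc, smul_smul, mul_inv_cancel₀ hc0, one_smul]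
    rw [Set.mem_Iio]
    unfold sg
    rw [Set.mem_Ico] at a3
    push_cast
    linarith [a3.2]
  · ext1
    filter_upwards [Vl_ae one_lt_two hh.toLp, (qmp_sg one_lt_two).ae_eq_comp hh.coeFn_toLp,
      hmem] with s a1 a2 a3
    simp only [Function.comp_apply] at a2
    rw [a1, a2, Set.piecewise_eq_of_notMem, tau_sg, ← hc, smul_smul, mul_inv_cancel₀ hc0,
      one_smul]
    rw [Set.mem_Iio]
    unfold sg
    rw [Set.mem_Ico] at a3
    push_cast
    linarith [a3.1]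

end Run7.h667.NG
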