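import Pool.Agent.Run7.h667.NG.Cz

/-!
# Room in the spaces with a dyadic structure
-/

set_option autoImplicit false
open Finset Filter Topology TopologicalSpace
open Pool.Agent.Y280 Run7.h667.TC Run7.h667.PC

namespace Run7.h667.NG

variable {E : Type*} [NormedAddCommGroup E] [NormedSpace ℂ E]

section

variable {p q : ℝ} {U V : ℕ → E →L[ℂ] E}

lemma Cz.VU_pow (h : Cz p U V) (k : ℕ) : V 1 ^ k * U 1 ^ k = 1 := by
  induction k with
  | zero => rw [pow_zero, pow_zero, mul_one]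
  | succ k ih =>
    rw [pow_succ, pow_succ']
    have e : V 1 ^ k * V 1 * (U 1 * U 1 ^ k) = V 1 ^ k * (V 1 * U 1) * U 1 ^ k := by
      simp only [mul_assoc]
    rw [e, h.v11, mul_one, ih]

lemma Cz.VU_pow1 (h : Cz p U V) (k j : ℕ) : V 1 ^ k * U 1 ^ (k + j) = U 1 ^ j := by
  rw [pow_add, ← mul_assoc, h.VU_pow, one_mul]

lemma Cz.VU_pow2 (h : Cz p U V) (k j : ℕ) : V 1 ^ (k + j) * U 1 ^ k = V 1 ^ j := by
  rw [add_comm k j, pow_add, mul_assoc, h.VU_pow, mul_one]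

/-- the projections -/
noncomputable def Pn (U V : ℕ → E →L[ℂ] E) (N : ℕ) : E →L[ℂ] E := 1 - U 1 ^ N * V 1 ^ N

lemma Cz.Pn_U (h : Cz p U V) {N k : ℕ} (hk : N ≤ k) : Pn U V N * U 1 ^ k = 0 := by
  obtain ⟨j, rfl⟩ := Nat.exists_eq_add_of_le hk
  rw [Pn, sub_mul, one_mul, mul_assoc, h.VU_pow1, ← pow_add, sub_self]

lemma Cz.V_Pn (h : Cz p U V) {N k : ℕ} (hk : N ≤ k) : V 1 ^ k * Pn U V N = 0 := by
  obtain ⟨j, rfl⟩ := Nat.exists_eq_add_of_le hk
  rw [Pn, mul_sub, mul_one, ← mul_assoc, h.VU_pow2, ← pow_add, add_comm j N, sub_self]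

lemma Cz.Pn_Pn (h : Cz p U V) (N : ℕ) : Pn U V N * Pn U V N = Pn U V N := by
  conv_lhs => rw [Pn, sub_mul, one_mul, mul_assoc, ← Pn, h.V_Pn le_rfl, mul_zero, sub_zero]

lemma Cz.Pn_succ (h : Cz p U V) (N : ℕ) :
    Pn U V (N + 1) = U 0 * V 0 + U 1 * Pn U V N * V 1 := by
  unfold Pn
  rw [mul_sub, mul_one, sub_mul, ← add_sub_assoc, h.full, pow_succ' (U 1), pow_succ (V 1)]
  simp only [mul_assoc]

lemma Cz.orth (h : Cz p U V) (hp : 0 < p) (N : ℕ) :
    ∀ x y, ‖Pn U V N x + (U 1 ^ N) y‖ ^ p = ‖Pn U V N x‖ ^ p + ‖y‖ ^ p := by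
  induction N with
  | zero =>
    intro x y
    have e : Pn U V 0 = 0 := by unfold Pn; simp
    rw [e]
    simp [Real.zero_rpow hp.ne']
  | succ N ih =>
    intro x y
    have e1 : Pn U V (N + 1) x = U 0 (V 0 x) + U 1 (Pn U V N (V 1 x)) := by
      rw [h.Pn_succ]
      rfl
    have e2 : Pn U V (N + 1) x + (U 1 ^ (N + 1)) y =
        U 0 (V 0 x) + U 1 (Pn U V N (V 1 x) + (U 1 ^ N) y) := by
      rw [e1, map_add, ← add_assoc, pow_succ']
      rfl
    rw [e2, h.norm, ih, e1, h.norm, add_assoc]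

lemma Cz.norm_split (h : Cz p U V) (hp : 0 < p) (N : ℕ) (x : E) :
    ‖x‖ ^ p = ‖Pn U V N x‖ ^ p + ‖(V 1 ^ N) x‖ ^ p := by
  rw [← h.orth hp]
  congr 2
  have : (U 1 ^ N) ((V 1 ^ N) x) = (U 1 ^ N * V 1 ^ N) x := rfl
  rw [this, Pn, _root_.sub_apply]
  simp

lemma Cz.norm_U_pow (h : Cz p U V) (hp : 0 < p) (N : ℕ) (x : E) : ‖(U 1 ^ N) x‖ = ‖x‖ := by
  induction N with
  | zero => rfl
  | succ N ih =>
    rw [pow_succ']
    exact (h.norm_U1 hp _).trans ih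

lemma Cz.norm_V_pow (h : Cz p U V) (hp : 0 < p) (N : ℕ) (x : E) : ‖(V 1 ^ N) x‖ ≤ ‖x‖ := by
  induction N with
  | zero => exact le_rfl
  | succ N ih =>
    rw [pow_succ']
    exact (h.norm_V1 hp _).trans ih

lemma Cz.norm_Pn (h : Cz p U V) (hp : 0 < p) (N : ℕ) (x : E) : ‖Pn U V N x‖ ≤ ‖x‖ := by
  refine (Real.rpow_le_rpow_iff (norm_nonneg _) (norm_nonneg _) hp).1 ?_
  have h1 := h.norm_split hp N x
  have : 0 ≤ ‖(V 1 ^ N) x‖ ^ p := by positivity
  linarith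

lemma Cz.sumU (h : Cz p U V) (hp : 0 < p) (n : ℕ) : ∀ z : ℕ → E,
    ‖∑ j ∈ range n, (U 1 ^ j) (U 0 (z j))‖ ^ p = ∑ j ∈ range n, ‖z j‖ ^ p := by
  induction n with
  | zero => intro z; simp [Real.zero_rpow hp.ne']
  | succ n ih =>
    intro z
    rw [sum_range_succ', sum_range_succ']
    have e : ∑ k ∈ range n, (U 1 ^ (k + 1)) (U 0 (z (k + 1))) + (U 1 ^ 0) (U 0 (z 0)) =
        U 0 (z 0) + U 1 (∑ j ∈ range n, (U 1 ^ j) (U 0 (z (j + 1)))) := by
      rw [map_sum, add_comm]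
      congr 1
      refine sum_congr rfl fun k _ => ?_
      rw [pow_succ']
      rfl
    rw [e, h.norm, ih, add_comm]

lemma Cz.sumV (h : Cz p U V) (n : ℕ) : ∀ x : E,
    ∑ j ∈ range n, ‖V 0 ((V 1 ^ j) x)‖ ^ p ≤ ‖x‖ ^ p := by
  induction n with
  | zero => intro x; rw [sum_range_zero]; positivity
  | succ n ih =>
    intro x
    rw [sum_range_succ', h.normV x, add_comm (‖V 0 x‖ ^ p)]
    refine add_le_add ?_ le_rfl
    refine le_trans (le_of_eq ?_) (ih (V 1 x))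
    refine sum_congr rfl fun k _ => ?_
    rw [pow_succ]
    rfl

/-- the copies -/
noncomputable def cU (U V : ℕ → E →L[ℂ] E) (N M : ℕ) (j : ℕ) : E →L[ℂ] E :=
  if j = 0 then Pn U V N else U 1 ^ (M + j) * U 0 * Pn U V N

/-- the projections onto the copies -/
noncomputable def cV (U V : ℕ → E →L[ℂ] E) (N M : ℕ) (j : ℕ) : E →L[ℂ] E :=
  if j = 0 then Pn U V N else Pn U V N * (V 0 * V 1 ^ (M + j))

lemma Cz.cop (h : Cz p U V) (hp : 0 < p) {N M : ℕ} (hM : N ≤ M) (n : ℕ) :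
    Cop p (Pn U V N) (cU U V N M) (cV U V N M) (n + 1) := by
  refine ⟨if_pos rfl, if_pos rfl, h.Pn_Pn N, ?_, ?_, ?_, ?_, ?_⟩
  · intro i _ j _
    unfold cU cV
    by_cases hi : i = 0
    · by_cases hj : j = 0
      · rw [if_pos hi, if_pos hj, h.Pn_Pn, if_pos (by rw [hi, hj])]
      · rw [if_pos hi, if_neg hj, if_neg (by omega), ← mul_assoc, ← mul_assoc,
          h.Pn_U (by omega), zero_mul, zero_mul]
    · by_cases hj : j = 0
      · rw [if_neg hi, if_pos hj, if_neg (by omega), mul_assoc, mul_assoc, h.V_Pn (by omega),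
          mul_zero, mul_zero]
      · rw [if_neg hi, if_neg hj]
        have e : Pn U V N * (V 0 * V 1 ^ (M + i)) * (U 1 ^ (M + j) * U 0 * Pn U V N) =
            Pn U V N * (V 0 * (V 1 ^ (M + i) * U 1 ^ (M + j)) * U 0) * Pn U V N := by
          simp only [mul_assoc]
        rw [e]
        rcases lt_trichotomy i j with hij | hij | hij
        · obtain ⟨d, rfl⟩ := Nat.exists_eq_add_of_lt hij
          rw [if_neg (by omega), show M + (i + d + 1) = M + i + (d + 1) by omega, h.VU_pow1,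
            pow_succ', ← mul_assoc (V 0), h.v01, zero_mul, zero_mul, mul_zero, zero_mul]
        · rw [hij, if_pos rfl, h.VU_pow, mul_one, h.v00, mul_one, h.Pn_Pn]
        · obtain ⟨d, rfl⟩ := Nat.exists_eq_add_of_lt hij
          rw [if_neg (by omega), show M + (j + d + 1) = M + j + (d + 1) by omega, h.VU_pow2,
            pow_succ, mul_assoc (V 0), mul_assoc (V 1 ^ d), h.v10, mul_zero, mul_zero, mul_zero,
            zero_mul]
  · intro i _
    unfold cV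
    split_ifs
    · exact h.Pn_Pn N
    · rw [← mul_assoc, h.Pn_Pn]
  · intro i _
    unfold cU
    split_ifs
    · exact h.Pn_Pn N
    · rw [mul_assoc, h.Pn_Pn]
  · intro z
    rw [sum_range_succ', sum_range_succ']
    have e : ∑ k ∈ range n, cU U V N M (k + 1) (z (k + 1)) + cU U V N M 0 (z 0) =
        Pn U V N (z 0) + (U 1 ^ N) ((U 1 ^ (M + 1 - N))
          (∑ k ∈ range n, (U 1 ^ k) (U 0 (Pn U V N (z (k + 1)))))) := by
      rw [add_comm]
      congr 1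
      rw [map_sum, map_sum]
      refine sum_congr rfl fun k _ => ?_
      unfold cU
      rw [if_neg (Nat.succ_ne_zero k)]
      have e1 : U 1 ^ (M + (k + 1)) = U 1 ^ N * (U 1 ^ (M + 1 - N) * U 1 ^ k) := by
        rw [← pow_add, ← pow_add]
        congr 1
        omega
      rw [e1]
      rfl
    rw [e, h.orth hp, h.norm_U_pow hp, h.sumU hp, add_comm]
    refine add_le_add ?_ ?_
    · exact sum_le_sum fun k _ =>
        Real.rpow_le_rpow (norm_nonneg _) (h.norm_Pn hp N _) hp.le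
    · exact Real.rpow_le_rpow (norm_nonneg _) (h.norm_Pn hp N _) hp.le
  · intro x
    rw [sum_range_succ', h.norm_split hp N x, add_comm (‖Pn U V N x‖ ^ p)]
    refine add_le_add ?_ (le_of_eq ?_)
    · have h1 := h.sumV n ((V 1 ^ (M + 1)) x)
      have h2 : ‖(V 1 ^ (M + 1)) x‖ ≤ ‖(V 1 ^ N) x‖ := by
        have e1 : V 1 ^ (M + 1) = V 1 ^ (M + 1 - N) * V 1 ^ N := by
          rw [← pow_add]
          congr 1
          omega
        rw [e1]
        exact h.norm_V_pow hp _ _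
      refine le_trans (sum_le_sum fun k _ => ?_) (h1.trans
        (Real.rpow_le_rpow (norm_nonneg _) h2 hp.le))
      refine Real.rpow_le_rpow (norm_nonneg _) ?_ hp.le
      unfold cV
      rw [if_neg (Nat.succ_ne_zero k)]
      refine (h.norm_Pn hp N _).trans (le_of_eq ?_)
      have e1 : V 1 ^ (M + (k + 1)) = V 1 ^ k * V 1 ^ (M + 1) := by
        rw [← pow_add]
        congr 1
        omega
      show ‖V 0 ((V 1 ^ (M + (k + 1))) x)‖ = _
      rw [e1]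
      rfl
    · unfold cV
      rw [if_pos rfl]

end

section

variable {p q : ℝ} {U V : ℕ → E →L[ℂ] E} {J : E →L[ℂ] E}

lemma pow_lt_one_aux {s : ℝ} (hs : 0 < s) : 0 < (2 : ℝ) ^ (-1 / s) ∧ (2 : ℝ) ^ (-1 / s) < 1 := by
  refine ⟨by positivity, ?_⟩
  refine Real.rpow_lt_one_of_one_lt_of_neg one_lt_two ?_
  rw [neg_div]
  have : 0 < 1 / s := by positivity
  linarith

lemma Dy.V_small (h : Dy p q U V J) (hp : 0 < p) (x : E) {ε : ℝ} (hε : 0 < ε) :
    ∃ M, ∀ k, M ≤ k → ‖(V 1 ^ k) x‖ ≤ ε := by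
  obtain ⟨N, hN, -⟩ := h.exists_level {x} ∅ (show 0 < ε / 2 by positivity)
  have hxv := hN x (mem_singleton_self _)
  obtain ⟨hc0, hc1⟩ := pow_lt_one_aux hp
  set c : ℝ := (2 : ℝ) ^ (-1 / p) with hc
  have h2 : ∀ k : ℕ, V 1 ^ k * J = ((c ^ k : ℝ) : ℂ) • J := by
    intro k
    induction k with
    | zero => simp
    | succ k ih =>
      rw [pow_succ', mul_assoc, ih, mul_smul_comm, h.V1J, smul_smul, ← Complex.ofReal_mul,
        ← pow_succ]
  have h4 : Tendsto (fun k : ℕ => c ^ k * ‖x‖) atTop (𝓝 0) := by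
    have := (tendsto_pow_atTop_nhds_zero_of_lt_one hc0.le hc1).mul_const ‖x‖
    rwa [zero_mul] at this
  obtain ⟨K, hK⟩ := (h4.eventually (ge_mem_nhds (show 0 < ε / 2 by positivity))).exists
  have h5 : ‖(V 1 ^ (K + N)) x‖ ≤ ε := by
    set v := ((lv U V)^[N] J) x with hv
    have e : (V 1 ^ (K + N)) x = (V 1 ^ (K + N)) v - (V 1 ^ (K + N)) (v - x) := by
      rw [← map_sub, sub_sub_cancel]
    rw [e]
    refine (norm_sub_le _ _).trans ?_
    have h6 : ‖(V 1 ^ (K + N)) (v - x)‖ ≤ ε / 2 := (h.cz.norm_V_pow hp _ _).trans hxv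
    have h7 : ‖(V 1 ^ (K + N)) v‖ ≤ ε / 2 := by
      have e1 : V 1 ^ (K + N) * (lv U V)^[N] J = ((c ^ K : ℝ) : ℂ) • (J * V 1 ^ N) := by
        rw [pow_add, mul_assoc, h.cz.V1_iter, ← mul_assoc, h2, smul_mul_assoc]
      have e2 : (V 1 ^ (K + N)) v = ((c ^ K : ℝ) : ℂ) • J ((V 1 ^ N) x) :=
        congrArg (fun T : E →L[ℂ] E => T x) e1
      rw [e2, norm_smul, Complex.norm_real, Real.norm_of_nonneg (by positivity)]
      refine le_trans (mul_le_mul_of_nonneg_left ?_ (by positivity)) hK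
      exact (h.J_norm _).trans (h.cz.norm_V_pow hp _ _)
    linarith
  refine ⟨K + N, fun k hk => ?_⟩
  obtain ⟨j, rfl⟩ := Nat.exists_eq_add_of_le hk
  rw [add_comm, pow_add]
  exact (h.cz.norm_V_pow hp _ _).trans h5

lemma Dy.U_small (h : Dy p q U V J) (hp : 0 < p) (hq : 0 < q) (y : StrongDual ℂ E) {ε : ℝ}
    (hε : 0 < ε) : ∃ M, ∀ k, M ≤ k → ‖y.comp (U 1 ^ k)‖ ≤ ε := by
  obtain ⟨N, -, hN⟩ := h.exists_level ∅ {y} (show 0 < ε / 2 by positivity)
  have hyv := hN y (mem_singleton_self _)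
  obtain ⟨hc0, hc1⟩ := pow_lt_one_aux hq
  set c : ℝ := (2 : ℝ) ^ (-1 / q) with hc
  have hU1 : ∀ k : ℕ, ‖U 1 ^ k‖ ≤ 1 := fun k =>
    ContinuousLinearMap.opNorm_le_bound _ zero_le_one fun x => by
      rw [one_mul, h.cz.norm_U_pow hp]
  have hJ1 : ‖J‖ ≤ 1 := ContinuousLinearMap.opNorm_le_bound _ zero_le_one fun x => by
    rw [one_mul]; exact h.J_norm x
  have h2 : ∀ k : ℕ, J * U 1 ^ k = ((c ^ k : ℝ) : ℂ) • J := by
    intro k
    induction k with
    | zero => simp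
    | succ k ih =>
      rw [pow_succ, ← mul_assoc, ih, smul_mul_assoc, h.JU1, smul_smul, ← Complex.ofReal_mul,
        ← pow_succ]
  have h4 : Tendsto (fun k : ℕ => c ^ k * ‖y‖) atTop (𝓝 0) := by
    have := (tendsto_pow_atTop_nhds_zero_of_lt_one hc0.le hc1).mul_const ‖y‖
    rwa [zero_mul] at this
  obtain ⟨K, hK⟩ := (h4.eventually (ge_mem_nhds (show 0 < ε / 2 by positivity))).exists
  have h5 : ‖y.comp (U 1 ^ (N + K))‖ ≤ ε := by
    have e : y.comp (U 1 ^ (N + K)) = y.comp ((lv U V)^[N] J * U 1 ^ (N + K)) -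
        (y.comp ((lv U V)^[N] J) - y).comp (U 1 ^ (N + K)) := by
      rw [ContinuousLinearMap.sub_comp]
      have : y.comp ((lv U V)^[N] J * U 1 ^ (N + K)) =
        (y.comp ((lv U V)^[N] J)).comp (U 1 ^ (N + K)) := rfl
      rw [this]
      abel
    rw [e]
    refine (norm_sub_le _ _).trans ?_
    have h6 : ‖(y.comp ((lv U V)^[N] J) - y).comp (U 1 ^ (N + K))‖ ≤ ε / 2 :=
      (ContinuousLinearMap.opNorm_comp_le _ _).trans
        ((mul_le_of_le_one_right (norm_nonneg _) (hU1 _)).trans hyv)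
    have h7 : ‖y.comp ((lv U V)^[N] J * U 1 ^ (N + K))‖ ≤ ε / 2 := by
      have e1 : (lv U V)^[N] J * U 1 ^ (N + K) = ((c ^ K : ℝ) : ℂ) • (U 1 ^ N * J) := by
        rw [pow_add, ← mul_assoc, h.cz.iter_U1, mul_assoc, h2, mul_smul_comm]
      rw [e1]
      refine (ContinuousLinearMap.opNorm_comp_le _ _).trans ?_
      rw [norm_smul, Complex.norm_real, Real.norm_of_nonneg (by positivity)]
      have h8 : ‖U 1 ^ N * J‖ ≤ 1 := (norm_mul_le _ _).trans
        (mul_le_one₀ (hU1 N) (norm_nonneg _) hJ1)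
      calc ‖y‖ * (c ^ K * ‖U 1 ^ N * J‖) ≤ ‖y‖ * (c ^ K * 1) := by gcongr
        _ = c ^ K * ‖y‖ := by ring
        _ ≤ ε / 2 := hK
    linarith
  refine ⟨N + K, fun k hk => ?_⟩
  obtain ⟨j, rfl⟩ := Nat.exists_eq_add_of_le hk
  have e : y.comp (U 1 ^ (N + K + j)) = (y.comp (U 1 ^ (N + K))).comp (U 1 ^ j) := by
    rw [pow_add]
    rfl
  rw [e]
  exact (ContinuousLinearMap.opNorm_comp_le _ _).trans
    ((mul_le_of_le_one_right (norm_nonneg _) (hU1 _)).trans h5)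

/-- finite sets at once -/
lemma Dy.small (h : Dy p q U V J) (hp : 0 < p) (hq : 0 < q) (X : Finset E)
    (Y : Finset (StrongDual ℂ E)) {ε : ℝ} (hε : 0 < ε) :
    ∃ M, ∀ k, M ≤ k → (∀ x ∈ X, ‖(V 1 ^ k) x‖ ≤ ε) ∧ ∀ y ∈ Y, ‖y.comp (U 1 ^ k)‖ ≤ ε := by
  classical
  choose N1 h1 using fun x => h.V_small hp x hε
  choose N2 h2 using fun y => h.U_small hp hq y hε
  refine ⟨X.sup N1 + Y.sup N2, fun N hN => ⟨fun x hx => ?_, fun y hy => ?_⟩⟩
  · exact h1 x _ ((Finset.le_sup hx).trans (by omega))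
  · exact h2 y _ ((Finset.le_sup hy).trans (by omega))

/-- **Room.** -/
theorem Dy.room (h : Dy p q U V J) {K : Set (E →L[ℂ] E)} (hK : KC K) (hU : ∀ i, U i ∈ K)
    (hV : ∀ i, V i ∈ K) (hp : 0 < p) (hq : 0 < q) : RoomD p K := by
  intro X Y ε hε
  have hPK : ∀ N, Pn U V N ∈ K := by
    intro N
    induction N with
    | zero =>
      have e : Pn U V 0 = 0 := by unfold Pn; simp
      rw [e]
      exact hK.zero
    | succ N ih =>
      rw [h.cz.Pn_succ]
      exact hK.add (hK.mul (hU _) (hV _)) (hK.mul (hK.mul (hU _) ih) (hV _))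
  obtain ⟨N, hN⟩ := h.small hp hq X Y (show 0 < ε / 2 by positivity)
  obtain ⟨hX, hY⟩ := hN N le_rfl
  set P := Pn U V N with hP
  have c1 : ∀ x, ‖(U 1 ^ N) x‖ = ‖x‖ := h.cz.norm_U_pow hp N
  have hPV : ∀ x, (V 1 ^ N) (P x) = 0 := fun x =>
    congrArg (fun T : E →L[ℂ] E => T x) (h.cz.V_Pn le_rfl)
  have hΨx : ∀ x, (P + U 1 ^ N * U 0 * V 1 ^ N) x = P x + (U 1 ^ N) (U 0 ((V 1 ^ N) x)) :=
    fun _ => rfl
  have hΦx : ∀ x, (P + U 1 ^ N * V 0 * V 1 ^ N) x = P x + (U 1 ^ N) (V 0 ((V 1 ^ N) x)) :=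
    fun _ => rfl
  have hPx : ∀ x, P x = x - (U 1 ^ N) ((V 1 ^ N) x) := fun _ => rfl
  have key : (P + U 1 ^ N * V 0 * V 1 ^ N) * (P + U 1 ^ N * U 0 * V 1 ^ N) = 1 := by
    have e : (P + U 1 ^ N * V 0 * V 1 ^ N) * (P + U 1 ^ N * U 0 * V 1 ^ N) =
        P * P + P * U 1 ^ N * U 0 * V 1 ^ N + U 1 ^ N * V 0 * (V 1 ^ N * P) +
        U 1 ^ N * V 0 * (V 1 ^ N * U 1 ^ N) * U 0 * V 1 ^ N := by
      simp only [add_mul, mul_add, mul_assoc]
      abel
    rw [e, hP, h.cz.Pn_Pn, h.cz.Pn_U le_rfl, h.cz.V_Pn le_rfl, h.cz.VU_pow, zero_mul, zero_mul,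
      mul_zero, add_zero, add_zero, mul_one, mul_assoc (U 1 ^ N), h.cz.v00, mul_one, Pn,
      sub_add_cancel]
  have key2 : (P + U 1 ^ N * U 0 * V 1 ^ N) * (P + U 1 ^ N * V 0 * V 1 ^ N) = Pn U V (N + 1) := by
    have e : (P + U 1 ^ N * U 0 * V 1 ^ N) * (P + U 1 ^ N * V 0 * V 1 ^ N) =
        P * P + P * U 1 ^ N * V 0 * V 1 ^ N + U 1 ^ N * U 0 * (V 1 ^ N * P) +
        U 1 ^ N * U 0 * (V 1 ^ N * U 1 ^ N) * V 0 * V 1 ^ N := by
      simp only [add_mul, mul_add, mul_assoc]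
      abel
    rw [e, hP, h.cz.Pn_Pn, h.cz.Pn_U le_rfl, h.cz.V_Pn le_rfl, h.cz.VU_pow, zero_mul, zero_mul,
      mul_zero, add_zero, add_zero, mul_one, mul_assoc (U 1 ^ N)]
    have e2 : U 0 * V 0 = 1 - U 1 * V 1 := eq_sub_of_add_eq h.cz.full
    rw [e2, mul_sub, mul_one, sub_mul, Pn, Pn, pow_succ (U 1), pow_succ' (V 1)]
    simp only [mul_assoc]
    abel
  refine ⟨P + U 1 ^ N * U 0 * V 1 ^ N, P + U 1 ^ N * V 0 * V 1 ^ N,
    hK.add (hPK N) (hK.mul (hK.mul (hK.pow (hU _) _) (hU _)) (hK.pow (hV _) _)),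
    hK.add (hPK N) (hK.mul (hK.mul (hK.pow (hU _) _) (hV _)) (hK.pow (hV _) _)),
    key, ?_, ?_, ?_, ?_, ?_⟩
  · refine ContinuousLinearMap.opNorm_le_bound _ zero_le_one fun x => ?_
    rw [one_mul, hΨx]
    refine (Real.rpow_le_rpow_iff (norm_nonneg _) (norm_nonneg _) hp).1 ?_
    rw [h.cz.orth hp, h.cz.norm_U0 hp, h.cz.norm_split hp N x]
  · refine ContinuousLinearMap.opNorm_le_bound _ zero_le_one fun x => ?_
    rw [one_mul, hΦx]
    refine (Real.rpow_le_rpow_iff (norm_nonneg _) (norm_nonneg _) hp).1 ?_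
    rw [h.cz.orth hp, h.cz.norm_split hp N x]
    exact add_le_add le_rfl (Real.rpow_le_rpow (norm_nonneg _) (h.cz.norm_V0 hp _) hp.le)
  · intro x hx
    have h1 := hX x hx
    constructor
    · rw [hΨx, hPx]
      have e : x - (U 1 ^ N) ((V 1 ^ N) x) + (U 1 ^ N) (U 0 ((V 1 ^ N) x)) - x =
          (U 1 ^ N) (U 0 ((V 1 ^ N) x)) - (U 1 ^ N) ((V 1 ^ N) x) := by abel
      rw [e]
      refine (norm_sub_le _ _).trans ?_
      rw [c1, c1, h.cz.norm_U0 hp]
      linarith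
    · rw [hΦx, hPx]
      have e : x - (U 1 ^ N) ((V 1 ^ N) x) + (U 1 ^ N) (V 0 ((V 1 ^ N) x)) - x =
          (U 1 ^ N) (V 0 ((V 1 ^ N) x)) - (U 1 ^ N) ((V 1 ^ N) x) := by abel
      rw [e]
      refine (norm_sub_le _ _).trans ?_
      rw [c1, c1]
      have := h.cz.norm_V0 hp ((V 1 ^ N) x)
      linarith
  · intro y hy
    have h1 := hY y hy
    have hU0 : ‖U 0‖ ≤ 1 := ContinuousLinearMap.opNorm_le_bound _ zero_le_one fun x => by
      rw [one_mul, h.cz.norm_U0 hp]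
    have hV0 : ‖V 0‖ ≤ 1 := ContinuousLinearMap.opNorm_le_bound _ zero_le_one fun x => by
      rw [one_mul]; exact h.cz.norm_V0 hp x
    have hVN : ‖V 1 ^ N‖ ≤ 1 := ContinuousLinearMap.opNorm_le_bound _ zero_le_one fun x => by
      rw [one_mul]; exact h.cz.norm_V_pow hp N x
    have gen : ∀ G : E →L[ℂ] E, ‖G‖ ≤ 1 →
        ‖y.comp (P + U 1 ^ N * G * V 1 ^ N) - y‖ ≤ ε := by
      intro G hG
      have e : y.comp (P + U 1 ^ N * G * V 1 ^ N) - y =
          (y.comp (U 1 ^ N)).comp (G * V 1 ^ N) - (y.comp (U 1 ^ N)).comp (V 1 ^ N) := by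
        ext x
        have e1 : (y.comp (P + U 1 ^ N * G * V 1 ^ N)) x =
            y (x - (U 1 ^ N) ((V 1 ^ N) x) + (U 1 ^ N) (G ((V 1 ^ N) x))) := rfl
        have e2 : ((y.comp (U 1 ^ N)).comp (G * V 1 ^ N)) x = y ((U 1 ^ N) (G ((V 1 ^ N) x))) :=
          rfl
        have e3 : ((y.comp (U 1 ^ N)).comp (V 1 ^ N)) x = y ((U 1 ^ N) ((V 1 ^ N) x)) := rfl
        rw [_root_.sub_apply, _root_.sub_apply, e1, e2, e3, map_add, map_sub]
        ring
      rw [e]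
      refine (norm_sub_le _ _).trans ?_
      have h2 : ‖(y.comp (U 1 ^ N)).comp (G * V 1 ^ N)‖ ≤ ε / 2 := by
        refine (ContinuousLinearMap.opNorm_comp_le _ _).trans ?_
        refine (mul_le_of_le_one_right (norm_nonneg _) ?_).trans h1
        exact (norm_mul_le _ _).trans (mul_le_one₀ hG (norm_nonneg _) hVN)
      have h3 : ‖(y.comp (U 1 ^ N)).comp (V 1 ^ N)‖ ≤ ε / 2 := by
        refine (ContinuousLinearMap.opNorm_comp_le _ _).trans ?_
        exact (mul_le_of_le_one_right (norm_nonneg _) hVN).trans h1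
      linarith
    exact ⟨gen _ hU0, gen _ hV0⟩
  · intro n X' Y' ε' hε'
    obtain ⟨M, hM⟩ := h.small hp hq X' Y' hε'
    have hle : N + 1 ≤ M + (N + 1) := by omega
    refine ⟨cU U V (N + 1) (M + (N + 1)), cV U V (N + 1) (M + (N + 1)), fun i => ?_,
      fun i => ?_, ?_, ?_⟩
    · unfold cU
      split_ifs
      · exact hPK _
      · exact hK.mul (hK.mul (hK.pow (hU _) _) (hU _)) (hPK _)
    · unfold cV
      split_ifs
      · exact hPK _
      · exact hK.mul (hPK _) (hK.mul (hV _) (hK.pow (hV _) _))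
    · rw [key2]
      exact h.cz.cop hp hle n
    · intro i _ hi
      obtain ⟨h1, h2⟩ := hM (M + (N + 1) + i) (by omega)
      refine ⟨fun x hx => ?_, fun y hy => ?_⟩
      · unfold cV
        rw [if_neg (by omega)]
        refine (h.cz.norm_Pn hp _ _).trans ?_
        exact (h.cz.norm_V0 hp _).trans (h1 x hx)
      · unfold cU
        rw [if_neg (by omega)]
        have e : y.comp (U 1 ^ (M + (N + 1) + i) * U 0 * Pn U V (N + 1)) =
            (y.comp (U 1 ^ (M + (N + 1) + i))).comp (U 0 * Pn U V (N + 1)) := rfl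
        rw [e]
        refine (ContinuousLinearMap.opNorm_comp_le _ _).trans ?_
        refine (mul_le_of_le_one_right (norm_nonneg _) ?_).trans (h2 y hy)
        refine ContinuousLinearMap.opNorm_le_bound _ zero_le_one fun x => ?_
        rw [one_mul]
        show ‖U 0 (Pn U V (N + 1) x)‖ ≤ _
        rw [h.cz.norm_U0 hp]
        exact h.cz.norm_Pn hp _ _

end

end Run7.h667.NG
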