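import Pool.Agent.Run7.h667.NG.Step

/-!
# Splittings and nilpotent approximants
-/

set_option autoImplicit false
open Finset Filter Topology TopologicalSpace
open Pool.Agent.Y280 Run7.h667.TC Run7.h667.PC

namespace Run7.h667.NG

variable {E : Type*} [NormedAddCommGroup E] [NormedSpace ℂ E]

/-- a cone of operators which is closed under multiplication -/
structure KC (K : Set (E →L[ℂ] E)) : Prop where
  zero : 0 ∈ K
  one : 1 ∈ K
  add : ∀ {S T : E →L[ℂ] E}, S ∈ K → T ∈ K → S + T ∈ K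
  mul : ∀ {S T : E →L[ℂ] E}, S ∈ K → T ∈ K → S * T ∈ K
  smul : ∀ {r : ℝ} {T : E →L[ℂ] E}, 0 ≤ r → T ∈ K → (r : ℂ) • T ∈ K

lemma KC.sum {K : Set (E →L[ℂ] E)} (hK : KC K) {ι : Type*} (s : Finset ι) {f : ι → E →L[ℂ] E}
    (hf : ∀ i ∈ s, f i ∈ K) : ∑ i ∈ s, f i ∈ K := by
  classical
  induction s using Finset.induction_on with
  | empty => rw [sum_empty]; exact hK.zero
  | insert a s ha ih =>
    rw [sum_insert ha]
    exact hK.add (hf a (mem_insert_self _ _)) (ih fun i hi => hf i (mem_insert_of_mem hi))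

lemma KC.pow {K : Set (E →L[ℂ] E)} (hK : KC K) {T : E →L[ℂ] E} (hT : T ∈ K) (n : ℕ) :
    T ^ n ∈ K := by
  induction n with
  | zero => rw [pow_zero]; exact hK.one
  | succ n ih => rw [pow_succ]; exact hK.mul ih hT

lemma KC.univ : KC (Set.univ : Set (E →L[ℂ] E)) :=
  ⟨trivial, trivial, fun _ _ => trivial, fun _ _ => trivial, fun _ _ => trivial⟩

/-- `n` copies of the whole space -/
structure Spl (p : ℝ) (n : ℕ) (U V : ℕ → E →L[ℂ] E) : Prop where
  VU : ∀ i < n, ∀ j < n, V i * U j = if i = j then 1 else 0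
  up : ∀ z : ℕ → E, ‖∑ i ∈ range n, U i (z i)‖ ^ p ≤ ∑ i ∈ range n, ‖z i‖ ^ p
  lo : ∀ x, ∑ i ∈ range n, ‖V i x‖ ^ p ≤ ‖x‖ ^ p

section

variable {p q : ℝ} {n m : ℕ} {U V : ℕ → E →L[ℂ] E}

lemma Spl.norm_sum (h : Spl p n U V) (hp : 0 < p) {r : ℝ} (hr : 0 ≤ r) {z : ℕ → E} {x : E}
    (hz : ∑ i ∈ range n, ‖z i‖ ^ p ≤ r ^ p * ‖x‖ ^ p) :
    ‖∑ i ∈ range n, U i (z i)‖ ≤ r * ‖x‖ := by
  have h1 := (h.up z).trans hz
  rw [← Real.mul_rpow hr (norm_nonneg _)] at h1
  exact (Real.rpow_le_rpow_iff (norm_nonneg _) (by positivity) hp).1 h1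

lemma Spl.norm_U (h : Spl p n U V) (hp : 0 < p) {i : ℕ} (hi : i < n) (z : E) :
    ‖U i z‖ ≤ ‖z‖ := by
  have h1 := h.up fun j => if j = i then z else 0
  have e1 : ∑ j ∈ range n, U j (if j = i then z else 0) = U i z := by
    rw [sum_eq_single i]
    · rw [if_pos rfl]
    · intro b _ hb
      rw [if_neg hb, map_zero]
    · intro h'
      exact absurd (mem_range.2 hi) h'
  have e2 : ∑ j ∈ range n, ‖if j = i then z else 0‖ ^ p = ‖z‖ ^ p := by
    rw [sum_eq_single i]
    · rw [if_pos rfl]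
    · intro b _ hb
      rw [if_neg hb, norm_zero, Real.zero_rpow hp.ne']
    · intro h'
      exact absurd (mem_range.2 hi) h'
  rw [e1, e2] at h1
  exact (Real.rpow_le_rpow_iff (norm_nonneg _) (norm_nonneg _) hp).1 h1

lemma Spl.norm_V (h : Spl p n U V) (hp : 0 < p) {i : ℕ} (hi : i < n) (z : E) :
    ‖V i z‖ ≤ ‖z‖ := by
  have h1 := h.lo z
  have h2 := single_le_sum (f := fun i => ‖V i z‖ ^ p) (fun _ _ => by positivity)
    (mem_range.2 hi)
  exact (Real.rpow_le_rpow_iff (norm_nonneg _) (norm_nonneg _) hp).1 (h2.trans h1)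

lemma Spl.norm_V' (h : Spl p n U V) (hp : 0 < p) {i : ℕ} (hi : i < n) : ‖V i‖ ≤ 1 :=
  ContinuousLinearMap.opNorm_le_bound _ zero_le_one fun z => by
    rw [one_mul]; exact h.norm_V hp hi z

/-- the average of the copies -/
noncomputable def avU (p : ℝ) (n : ℕ) (U : ℕ → E →L[ℂ] E) : E →L[ℂ] E :=
  (((n : ℝ) ^ (-1 / p) : ℝ) : ℂ) • ∑ i ∈ range n, U i

lemma avU_apply (x : E) : avU p n U x =
    (((n : ℝ) ^ (-1 / p) : ℝ) : ℂ) • ∑ i ∈ range n, U i x := by
  rw [avU, _root_.smul_apply, _root_.sum_apply]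

lemma Spl.norm_avU (h : Spl p n U V) (hp : 0 < p) (hn : 0 < n) (x : E) : ‖avU p n U x‖ ≤ ‖x‖ := by
  have h1 := h.up fun _ => x
  rw [sum_const, card_range, nsmul_eq_mul] at h1
  rw [avU_apply, norm_smul, Complex.norm_real, Real.norm_of_nonneg (by positivity)]
  have hn' : (0 : ℝ) < n := by exact_mod_cast hn
  rw [← Real.rpow_le_rpow_iff (by positivity) (norm_nonneg _) hp,
    Real.mul_rpow (by positivity) (norm_nonneg _), ← Real.rpow_mul hn'.le]
  have e : -1 / p * p = -1 := by field_simp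
  rw [e, Real.rpow_neg_one]
  calc (n : ℝ)⁻¹ * ‖∑ i ∈ range n, U i x‖ ^ p ≤ (n : ℝ)⁻¹ * (n * ‖x‖ ^ p) :=
        mul_le_mul_of_nonneg_left h1 (by positivity)
    _ = ‖x‖ ^ p := by field_simp

lemma Spl.norm_avV (h : Spl p n U V) (hpq : p.HolderConjugate q) (hn : 0 < n) (x : E) :
    ‖avU q n V x‖ ≤ ‖x‖ := by
  have hp := hpq.pos
  have hq := hpq.symm.pos
  have hn' : (0 : ℝ) < n := by exact_mod_cast hn
  have h2 := Real.inner_le_Lp_mul_Lq (range n) (fun _ => (1 : ℝ)) (fun b => ‖V b x‖)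
    hpq.symm
  simp only [abs_norm, one_mul, abs_one, Real.one_rpow, sum_const, card_range, nsmul_eq_mul,
    mul_one] at h2
  have h3 := h.lo x
  have h4 := Real.rpow_le_rpow (sum_nonneg fun _ _ => by positivity) h3
    (show 0 ≤ 1 / p by positivity)
  rw [← Real.rpow_mul (norm_nonneg x), mul_one_div_cancel hp.ne', Real.rpow_one] at h4
  rw [avU_apply, norm_smul, Complex.norm_real, Real.norm_of_nonneg (by positivity)]
  have h5 : ‖∑ i ∈ range n, V i x‖ ≤ (n : ℝ) ^ (1 / q) * ‖x‖ :=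
    (norm_sum_le _ _).trans (h2.trans (mul_le_mul_of_nonneg_left h4 (by positivity)))
  calc (n : ℝ) ^ (-1 / q) * ‖∑ i ∈ range n, V i x‖ ≤
      (n : ℝ) ^ (-1 / q) * ((n : ℝ) ^ (1 / q) * ‖x‖) :=
        mul_le_mul_of_nonneg_left h5 (by positivity)
    _ = ‖x‖ := by
      rw [← mul_assoc, ← Real.rpow_add hn', neg_div, neg_add_cancel, Real.rpow_zero, one_mul]

/-- the shifted sums -/
noncomputable def shf (n : ℕ) (U V : ℕ → E →L[ℂ] E) (k : ℕ) (T : E →L[ℂ] E) : E →L[ℂ] E :=
  ∑ j ∈ range (n - k), U (j + k) * T * V j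

lemma Spl.shf_mul (h : Spl p n U V) (k : ℕ) (T S : E →L[ℂ] E) :
    shf n U V 1 T * shf n U V k S = shf n U V (k + 1) (T * S) := by
  unfold shf
  rw [sum_mul_sum, sum_comm]
  have h1 : ∀ j ∈ range (n - k), ∑ i ∈ range (n - 1), U (i + 1) * T * V i *
      (U (j + k) * S * V j) = if j + k < n - 1 then U (j + (k + 1)) * (T * S) * V j else 0 := by
    intro j hj
    rw [mem_range] at hj
    split_ifs with hjk
    · rw [sum_eq_single (j + k)]
      · have e1 : U (j + k + 1) * T * V (j + k) * (U (j + k) * S * V j) =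
            U (j + k + 1) * T * (V (j + k) * U (j + k)) * S * V j := by
          simp only [mul_assoc]
        rw [e1, h.VU _ (by omega) _ (by omega), if_pos rfl, mul_one]
        simp only [mul_assoc, add_assoc]
      · intro i hi hij
        rw [mem_range] at hi
        have e1 : U (i + 1) * T * V i * (U (j + k) * S * V j) =
            U (i + 1) * T * (V i * U (j + k)) * S * V j := by
          simp only [mul_assoc]
        rw [e1, h.VU _ (by omega) _ (by omega), if_neg hij, mul_zero, zero_mul, zero_mul]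
      · intro h'
        exact absurd (mem_range.2 hjk) h'
    · apply sum_eq_zero
      intro i hi
      rw [mem_range] at hi
      have e1 : U (i + 1) * T * V i * (U (j + k) * S * V j) =
          U (i + 1) * T * (V i * U (j + k)) * S * V j := by
        simp only [mul_assoc]
      rw [e1, h.VU _ (by omega) _ (by omega), if_neg (by omega), mul_zero, zero_mul, zero_mul]
  rw [sum_congr rfl h1, ← sum_filter]
  refine sum_congr ?_ fun _ _ => rfl
  ext j
  simp only [mem_filter, mem_range]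
  omega

lemma Spl.shf_pow (h : Spl p n U V) (T : E →L[ℂ] E) (k : ℕ) :
    (shf n U V 1 T) ^ (k + 1) = shf n U V (k + 1) (T ^ (k + 1)) := by
  induction k with
  | zero => rw [zero_add, pow_one, pow_one]
  | succ k ih => rw [pow_succ', ih, h.shf_mul, ← pow_succ']

lemma Spl.norm_shf (h : Spl p n U V) (hp : 0 < p) (k : ℕ) (T : E →L[ℂ] E) :
    ‖shf n U V k T‖ ≤ ‖T‖ := by
  refine ContinuousLinearMap.opNorm_le_bound _ (norm_nonneg _) fun x => ?_
  have e1 : shf n U V k T x = ∑ i ∈ range n, U i (if i < k then 0 else T (V (i - k) x)) := by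
    unfold shf
    rw [_root_.sum_apply]
    by_cases hk : k ≤ n
    · have e2 : n = k + (n - k) := by omega
      conv_rhs => rw [e2, sum_range_add]
      rw [sum_eq_zero (s := range k)]
      · rw [zero_add]
        refine sum_congr rfl fun j _ => ?_
        rw [if_neg (by omega), Nat.add_sub_cancel_left, add_comm j k]
        rfl
      · intro i hi
        rw [mem_range] at hi
        rw [if_pos hi, map_zero]
    · rw [show n - k = 0 by omega, sum_range_zero, sum_eq_zero]
      intro i hi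
      rw [mem_range] at hi
      rw [if_pos (by omega), map_zero]
  rw [e1]
  refine h.norm_sum hp (norm_nonneg _) ?_
  refine le_trans ?_ (mul_le_mul_of_nonneg_left (h.lo x) (by positivity))
  have h1 : ∀ i ∈ range n, ‖if i < k then 0 else T (V (i - k) x)‖ ^ p ≤
      ‖T‖ ^ p * (if i < k then 0 else ‖V (i - k) x‖ ^ p) := by
    intro i _
    split_ifs
    · rw [norm_zero, Real.zero_rpow hp.ne', mul_zero]
    · rw [← Real.mul_rpow (norm_nonneg _) (norm_nonneg _)]
      exact Real.rpow_le_rpow (norm_nonneg _) (T.le_opNorm _) hp.le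
  refine (sum_le_sum h1).trans ?_
  rw [← mul_sum]
  refine mul_le_mul_of_nonneg_left ?_ (by positivity)
  by_cases hk : k ≤ n
  · have e2 : n = k + (n - k) := by omega
    conv_lhs => rw [e2, sum_range_add]
    rw [sum_eq_zero (s := range k)]
    · rw [zero_add]
      refine le_trans (le_of_eq ?_) (sum_le_sum_of_subset_of_nonneg
        (range_mono (show n - k ≤ n by omega)) fun _ _ _ => by positivity)
      refine sum_congr rfl fun j _ => ?_
      rw [if_neg (by omega), Nat.add_sub_cancel_left]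
    · intro i hi
      rw [mem_range] at hi
      rw [if_pos hi]
  · rw [sum_eq_zero]
    · exact sum_nonneg fun _ _ => by positivity
    · intro i hi
      rw [mem_range] at hi
      rw [if_pos (by omega)]

/-- **The nilpotent approximant.** -/
theorem Spl.nil (h : Spl p n U V) (hpq : p.HolderConjugate q) (hn : 0 < n) (T : E →L[ℂ] E)
    {c : ℝ} (hc0 : 0 ≤ c) (hc1 : c ≤ 1) :
    ∃ B : E →L[ℂ] E, (∀ K : Set (E →L[ℂ] E), KC K → (∀ i, U i ∈ K) → (∀ i, V i ∈ K) →
        T ∈ K → B ∈ K) ∧ B ^ n = 0 ∧ (∀ k, 0 < k → ‖B ^ k‖ ≤ c ^ k * ‖T ^ k‖) ∧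
      (∀ x, ‖B x - T x‖ ≤ ‖T‖ * ‖avU p n U x - x‖ + ‖avU p n U (T x) - T x‖ +
        ((n : ℝ) ^ (-1 / p) + (1 - c)) * ‖T x‖) ∧
      ∀ y : StrongDual ℂ E, ‖y.comp B - y.comp T‖ ≤ ‖T‖ * ‖y.comp (avU q n V) - y‖ +
        ‖(y.comp T).comp (avU q n V) - y.comp T‖ +
        ((n : ℝ) ^ (-1 / q) + (1 - c)) * ‖y.comp T‖ := by
  have hp := hpq.pos
  have hq := hpq.symm.pos
  have hn' : (0 : ℝ) < n := by exact_mod_cast hn
  set S := shf n U V 1 T with hS
  have hSn : ‖S‖ ≤ ‖T‖ := h.norm_shf hp 1 T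
  set a : ℝ := (n : ℝ) ^ (-1 / p) with ha
  have ha0 : 0 ≤ a := by positivity
  set b : ℝ := (n : ℝ) ^ (-1 / q) with hb
  have hb0 : 0 ≤ b := by positivity
  have hVD : ∀ j < n, ∀ x, V j (avU p n U x) = (a : ℂ) • x := by
    intro j hj x
    rw [avU_apply, map_smul, map_sum, sum_eq_single j]
    · have := congrArg (fun T : E →L[ℂ] E => T x) (h.VU j hj j hj)
      simp only at this
      rw [show V j (U j x) = x from this]
    · intro i hi hij
      rw [mem_range] at hi
      have := congrArg (fun T : E →L[ℂ] E => T x) (h.VU j hj i hi)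
      simp only [if_neg hij.symm] at this
      exact this
    · intro h'
      exact absurd (mem_range.2 hj) h'
  have hVU : ∀ j < n, ∀ x, avU q n V (U j x) = (b : ℂ) • x := by
    intro j hj x
    rw [avU_apply, sum_eq_single j]
    · have := congrArg (fun T : E →L[ℂ] E => T x) (h.VU j hj j hj)
      simp only at this
      rw [show V j (U j x) = x from this]
    · intro i hi hij
      rw [mem_range] at hi
      have := congrArg (fun T : E →L[ℂ] E => T x) (h.VU i hi j hj)
      simp only [if_neg hij] at this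
      exact this
    · intro h'
      exact absurd (mem_range.2 hj) h'
  have hSD : ∀ x, S (avU p n U x) = avU p n U (T x) - (a : ℂ) • U 0 (T x) := by
    intro x
    obtain ⟨l, hl⟩ : ∃ l, n = l + 1 := ⟨n - 1, by omega⟩
    rw [avU_apply (x := T x), hl, sum_range_succ', ← hl, smul_add, add_sub_cancel_right, hS, shf,
      _root_.sum_apply, smul_sum, show n - 1 = l by omega]
    refine sum_congr rfl fun j hj => ?_
    rw [mem_range] at hj
    show U (j + 1) (T (V j (avU p n U x))) = _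
    rw [hVD j (by omega), map_smul, map_smul]
  have hDS' : ∀ x, avU q n V (S x) = (b : ℂ) • ∑ j ∈ range (n - 1), T (V j x) := by
    intro x
    rw [hS, shf, _root_.sum_apply, map_sum, smul_sum]
    refine sum_congr rfl fun j hj => ?_
    rw [mem_range] at hj
    show avU q n V (U (j + 1) (T (V j x))) = _
    rw [hVU (j + 1) (by omega)]
  refine ⟨(c : ℂ) • S, fun K hK hU hV hT => hK.smul hc0 (hK.sum _ fun i _ =>
    hK.mul (hK.mul (hU _) hT) (hV _)), ?_, ?_, ?_, ?_⟩
  · obtain ⟨l, hl⟩ : ∃ l, n = l + 1 := ⟨n - 1, by omega⟩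
    rw [smul_pow]
    have : S ^ n = 0 := by
      rw [hS]
      conv_lhs => rw [hl]
      rw [← hl]
      conv_lhs => rw [show n = l + 1 from hl]
      have := h.shf_pow T l
      rw [← hl] at this
      rw [← hl, this]
      unfold shf
      rw [Nat.sub_self, sum_range_zero]
    rw [this, smul_zero]
  · intro k hk
    obtain ⟨l, rfl⟩ : ∃ l, k = l + 1 := ⟨k - 1, by omega⟩
    rw [smul_pow, norm_smul, norm_pow, Complex.norm_real, Real.norm_of_nonneg hc0, hS, h.shf_pow]
    exact mul_le_mul_of_nonneg_left (h.norm_shf hp _ _) (by positivity)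
  · intro x
    have e1 : ((c : ℂ) • S) x - T x = -((c : ℂ) • S (avU p n U x - x)) +
        ((c : ℂ) • (avU p n U (T x) - T x) - ((c : ℂ) • (a : ℂ) • U 0 (T x) +
          ((1 - c : ℝ) : ℂ) • T x)) := by
      rw [map_sub, hSD, _root_.smul_apply]
      push_cast
      module
    rw [e1]
    have h1 : ‖(c : ℂ) • S (avU p n U x - x)‖ ≤ ‖T‖ * ‖avU p n U x - x‖ := by
      rw [norm_smul, Complex.norm_real, Real.norm_of_nonneg hc0]
      refine (mul_le_of_le_one_left (norm_nonneg _) hc1).trans ?_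
      exact (S.le_opNorm _).trans (mul_le_mul_of_nonneg_right hSn (norm_nonneg _))
    have h2 : ‖(c : ℂ) • (avU p n U (T x) - T x)‖ ≤ ‖avU p n U (T x) - T x‖ := by
      rw [norm_smul, Complex.norm_real, Real.norm_of_nonneg hc0]
      exact mul_le_of_le_one_left (norm_nonneg _) hc1
    have h3 : ‖(c : ℂ) • (a : ℂ) • U 0 (T x)‖ ≤ a * ‖T x‖ := by
      rw [norm_smul, norm_smul, Complex.norm_real, Complex.norm_real, Real.norm_of_nonneg hc0,
        Real.norm_of_nonneg ha0]
      refine (mul_le_of_le_one_left (by positivity) hc1).trans ?_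
      exact mul_le_mul_of_nonneg_left (h.norm_U hp hn _) ha0
    have h4 : ‖((1 - c : ℝ) : ℂ) • T x‖ = (1 - c) * ‖T x‖ := by
      rw [norm_smul, Complex.norm_real, Real.norm_of_nonneg (by linarith)]
    have t1 := norm_add_le (-((c : ℂ) • S (avU p n U x - x)))
      ((c : ℂ) • (avU p n U (T x) - T x) - ((c : ℂ) • (a : ℂ) • U 0 (T x) +
          ((1 - c : ℝ) : ℂ) • T x))
    have t2 := norm_sub_le ((c : ℂ) • (avU p n U (T x) - T x)) ((c : ℂ) • (a : ℂ) • U 0 (T x) +
          ((1 - c : ℝ) : ℂ) • T x)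
    have t3 := norm_add_le ((c : ℂ) • (a : ℂ) • U 0 (T x)) (((1 - c : ℝ) : ℂ) • T x)
    rw [norm_neg] at t1
    linarith
  · intro y
    have e1 : y.comp ((c : ℂ) • S) - y.comp T = -((c : ℂ) • (y.comp (avU q n V) - y).comp S) +
        ((c : ℂ) • ((y.comp T).comp (avU q n V) - y.comp T) -
        ((c : ℂ) • (b : ℂ) • (y.comp T).comp (V (n - 1)) + ((1 - c : ℝ) : ℂ) • y.comp T)) := by
      ext x
      have e2 : (y.comp T) (avU q n V x) = y (avU q n V (S x)) + b * y (T (V (n - 1) x)) := by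
        rw [hDS' x, ContinuousLinearMap.comp_apply, avU_apply]
        obtain ⟨l, hl⟩ : ∃ l, n = l + 1 := ⟨n - 1, by omega⟩
        rw [hl, sum_range_succ, ← hl, show n - 1 = l by omega, map_smul, map_add, map_sum,
          smul_add, map_add, map_smul, map_smul, smul_eq_mul, smul_eq_mul]
      simp only [_root_.sub_apply, _root_.add_apply, _root_.smul_apply, _root_.neg_apply,
        ContinuousLinearMap.comp_apply, map_smul, smul_eq_mul] at e2 ⊢
      rw [e2]
      push_cast
      ring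
    rw [e1]
    have h1 : ‖(c : ℂ) • (y.comp (avU q n V) - y).comp S‖ ≤ ‖T‖ * ‖y.comp (avU q n V) - y‖ := by
      rw [norm_smul, Complex.norm_real, Real.norm_of_nonneg hc0]
      refine (mul_le_of_le_one_left (norm_nonneg _) hc1).trans ?_
      refine (ContinuousLinearMap.opNorm_comp_le _ _).trans ?_
      rw [mul_comm]
      exact mul_le_mul_of_nonneg_right hSn (norm_nonneg _)
    have h2 : ‖(c : ℂ) • ((y.comp T).comp (avU q n V) - y.comp T)‖ ≤
        ‖(y.comp T).comp (avU q n V) - y.comp T‖ := by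
      rw [norm_smul, Complex.norm_real, Real.norm_of_nonneg hc0]
      exact mul_le_of_le_one_left (norm_nonneg _) hc1
    have h3 : ‖(c : ℂ) • (b : ℂ) • (y.comp T).comp (V (n - 1))‖ ≤ b * ‖y.comp T‖ := by
      rw [norm_smul, norm_smul, Complex.norm_real, Complex.norm_real, Real.norm_of_nonneg hc0,
        Real.norm_of_nonneg hb0]
      refine (mul_le_of_le_one_left (by positivity) hc1).trans ?_
      refine mul_le_mul_of_nonneg_left ?_ hb0
      refine (ContinuousLinearMap.opNorm_comp_le _ _).trans ?_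
      exact mul_le_of_le_one_right (norm_nonneg _) (h.norm_V' hp (by omega))
    have h4 : ‖((1 - c : ℝ) : ℂ) • y.comp T‖ = (1 - c) * ‖y.comp T‖ := by
      rw [norm_smul, Complex.norm_real, Real.norm_of_nonneg (by linarith)]
    have t1 := norm_add_le (-((c : ℂ) • (y.comp (avU q n V) - y).comp S))
      ((c : ℂ) • ((y.comp T).comp (avU q n V) - y.comp T) -
        ((c : ℂ) • (b : ℂ) • (y.comp T).comp (V (n - 1)) + ((1 - c : ℝ) : ℂ) • y.comp T))
    have t2 := norm_sub_le ((c : ℂ) • ((y.comp T).comp (avU q n V) - y.comp T))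
      ((c : ℂ) • (b : ℂ) • (y.comp T).comp (V (n - 1)) + ((1 - c : ℝ) : ℂ) • y.comp T)
    have t3 := norm_add_le ((c : ℂ) • (b : ℂ) • (y.comp T).comp (V (n - 1)))
      (((1 - c : ℝ) : ℂ) • y.comp T)
    rw [norm_neg] at t1
    linarith

end

end Run7.h667.NG
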