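import Pool.Agent.Run7.h667.NG.Big

/-!
# The density step for classes with nilpotent approximants
-/

set_option autoImplicit false
open Finset Filter Topology TopologicalSpace
open Pool.Agent.Y280 Run7.h667.TC Run7.h667.PC

namespace Run7.h667.NG

variable {E : Type*} [NormedAddCommGroup E] [NormedSpace ℂ E]
variable {W : Type*} [TopologicalSpace W] {Φ : W → E →L[ℂ] E}

/-- The nilpotent operators which can be coupled with copies of themselves are dense. -/
def DensN (p : ℝ) (Φ : W → E →L[ℂ] E) : Prop :=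
  ∀ (O : Set W) (w0 : W), IsOpen O → w0 ∈ O → ∀ (x : E) (y : StrongDual ℂ E) (ε : ℝ), 0 < ε →
    ∃ w1 ∈ O, ∃ P : E →L[ℂ] E, P * P = P ∧ ‖P‖ ≤ 1 ∧ ‖P x - x‖ ≤ ε ∧ ‖y.comp P - y‖ ≤ ε ∧
      P * Φ w1 = Φ w1 ∧ Φ w1 * P = Φ w1 ∧ ‖Φ w1‖ ≤ 1 ∧ (∃ n : ℕ, Φ w1 ^ n = 0) ∧
      ∀ m : ℕ, ∃ ω : ℝ, 0 < ω ∧ ω ≤ 1 ∧ ∀ wt : ℕ → ℝ, (∀ j, 0 ≤ wt j) → (∀ j, wt j ≤ ω) →
        ∀ (X' : Finset E) (Y' : Finset (StrongDual ℂ E)) (ε' : ℝ), 0 < ε' →
        ∃ U V : ℕ → E →L[ℂ] E, Cop p P U V (m + 1) ∧ (∀ i < m + 1, 0 < i →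
          (∀ x ∈ X', ‖V i x‖ ≤ ε') ∧ ∀ y ∈ Y', ‖y.comp (U i)‖ ≤ ε') ∧
          ∃ w3 : W, Φ w3 = bigW (Φ w1) U V m wt

theorem step_nil {p q : ℝ} (hpq : p.HolderConjugate q)
    (hE : Refl E) (hnhd : NhdS Φ) (hsemi : SemiS Φ) (hdens : DensN p Φ) {x : E}
    {y : StrongDual ℂ E}
    {ρ : ℝ} (hρ : 0 < ρ) {w0 : W} (hw0 : w0 ∈ interior (HS Φ x y ρ)) {V : Set W} (hV : IsOpen V)
    (hwV : w0 ∈ V) {d : ℕ → E} (hd : DenseRange d) {d' : ℕ → StrongDual ℂ E}
    (hd' : DenseRange d') {ε : ℝ} (hε : 0 < ε) (x0 : E) :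
    ∃ w2 ∈ V, ∃ i j : ℕ, w2 ∈ interior (HS Φ (d i) (d' j) ε) ∧
      ‖d i - x‖ ≤ (2 * ρ) ^ (1 / p) + ε ∧ ‖d' j - y‖ ≤ (2 * ρ) ^ (1 / q) + ε ∧
      ‖d' j x0 - y x0‖ ≤ ε := by
  classical
  have hp := hpq.pos
  -- a block operator
  set ε1 : ℝ := min (ε / 8 / (1 + ‖x0‖)) (ρ / (1 + ‖x‖ + ‖y‖)) with hε1
  have hε10 : 0 < ε1 := lt_min (by positivity) (by positivity)
  have hε1a : ε1 * (1 + ‖x0‖) ≤ ε / 8 := by
    have : ε1 ≤ ε / 8 / (1 + ‖x0‖) := min_le_left _ _
    rwa [le_div_iff₀ (by positivity)] at this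
  have hε1b : ε1 * (1 + ‖x‖ + ‖y‖) ≤ ρ := by
    have : ε1 ≤ ρ / (1 + ‖x‖ + ‖y‖) := min_le_right _ _
    rwa [le_div_iff₀ (by positivity)] at this
  have hε1c : ε1 ≤ ε / 8 := by
    have := norm_nonneg x0
    nlinarith
  have hOo : IsOpen (interior (HS Φ x y ρ) ∩ V) := isOpen_interior.inter hV
  obtain ⟨w1, hw1, P, hPP, hP1, hx, hy, hPA, hAP, hA1, ⟨n, hn⟩, hext⟩ :=
    hdens _ w0 hOo ⟨hw0, hwV⟩ x y ε1 hε10
  set A := Φ w1 with hA
  set r : ℝ := ‖A‖ with hr
  have hr0 : 0 ≤ r := norm_nonneg _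
  have hHM : HC A (P x) (y.comp P) (2 * ρ) := by
    have h1 : HC (Φ w1) x y ρ := interior_subset hw1.1
    refine (h1.lip (x' := P x) (y' := y.comp P)).mono ?_
    have h2 : ‖P x‖ ≤ ‖x‖ := (P.le_opNorm x).trans (mul_le_of_le_one_left (norm_nonneg _) hP1)
    have h3 : ‖y.comp P - y‖ * ‖P x‖ ≤ ε1 * ‖x‖ := mul_le_mul hy h2 (norm_nonneg _) hε10.le
    have h4 : ‖y‖ * ‖P x - x‖ ≤ ‖y‖ * ε1 := mul_le_mul_of_nonneg_left hx (norm_nonneg _)
    nlinarith
  -- the functional on the commutant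
  obtain ⟨m, u, f, hm, hu0, hf0, hu, hf, hrep⟩ := rep_nat hpq hE
    (show 0 < 2 * ρ by positivity) hHM (show 0 < ε / 32 by positivity)
  -- the neighbourhood of `w1`
  obtain ⟨X, Y, ε4, hε4, hnear⟩ := hnhd w1 _ hOo hw1
  set M : ℝ := ∑ x ∈ X, ‖x‖ + 1 with hM
  have hMX : ∀ x ∈ X, ‖x‖ ≤ M := fun x hx => by have := le_sum_norm X hx; linarith
  have hM0 : 0 < M := by
    have h1 : 0 ≤ ∑ x ∈ X, ‖x‖ := sum_nonneg fun _ _ => norm_nonneg _
    linarith
  -- the chain
  obtain ⟨D, hD⟩ := exists_ad_pow hn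
  obtain ⟨L, M', hKL, hLM, hchain⟩ := chain hE hD m u f (show ε / 32 < ε / 16 by linarith) hrep
  obtain ⟨ω, hω, hω1, hext⟩ := hext M'
  obtain ⟨δ0, hδ00, hδ0ω, hch⟩ := hchain ω hω hω1
  -- the small weight
  obtain ⟨δ1, hδ10, hδ1, _⟩ := exists_small (a := M) (b := ε4 / 4) hM0.le (by positivity)
  set δ : ℝ := min δ1 δ0 with hδ
  have hδ0 : 0 < δ := lt_min hδ10 hδ00
  have hδa : δ * M ≤ ε4 / 4 := (mul_le_mul_of_nonneg_right (min_le_left _ _) hM0.le).trans hδ1
  have hδc : δ ≤ ω := (min_le_right _ _).trans hδ0ω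
  have hm' : 0 < M' := by omega
  have hwl0 : ∀ j, 0 ≤ wl L δ ω j := fun j => (wl_pos hδ0 hω j).le
  have hwlω : ∀ j, wl L δ ω j ≤ ω := by
    intro j
    unfold wl
    split_ifs
    · exact hδc
    · exact le_rfl
  have hwl00 : wl L δ ω 0 = δ := by
    unfold wl
    rw [if_pos (by omega)]
  -- the small number
  set K : ℝ := 2 * ((M' : ℝ) + 1) + ∑ a ∈ range (m + 1), ‖f a‖ with hK
  have hK0 : 0 ≤ K := by
    have h1 : 0 ≤ ∑ a ∈ range (m + 1), ‖f a‖ := sum_nonneg fun _ _ => norm_nonneg _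
    positivity
  obtain ⟨ε', hε'0, hε'1, _⟩ := exists_small (a := K) (b := min (ε4 / 4) (ε / 16)) hK0
    (lt_min (by positivity) (by positivity))
  have hε'2 : ε' * K ≤ ε4 / 4 := hε'1.trans (min_le_left _ _)
  have hε'3 : ε' * K ≤ ε / 16 := hε'1.trans (min_le_right _ _)
  have hsf : 0 ≤ ∑ a ∈ range (m + 1), ‖f a‖ := sum_nonneg fun _ _ => norm_nonneg _
  have hm0 : (0 : ℝ) ≤ M' := Nat.cast_nonneg M'
  have hmε : 2 * ((M' : ℝ) + 1) * ε' ≤ ε' * K := by
    rw [hK]
    nlinarith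
  obtain ⟨U, Vv, hCop, hfar, w3, hw3⟩ := hext (wl L δ ω) hwl0 hwlω (insert x0 X) Y ε' hε'0
  have hw3O : w3 ∈ interior (HS Φ x y ρ) ∩ V := by
    apply hnear
    · intro z hz
      rw [hw3]
      have h1 := closeW_x hCop hp hPA hAP hA1 hm' hwl0 (fun j => (hwlω j).trans hω1) (z := z)
        (fun i hi hi0 => (hfar i hi hi0).1 z (mem_insert_of_mem hz))
      refine h1.trans_lt ?_
      rw [hwl00]
      have h2 := mul_le_mul_of_nonneg_left (hMX z hz) hδ0.le
      linarith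
    · intro z hz
      rw [hw3]
      have h1 := closeW_y hCop hp hPA hAP hA1 hm' hwl0 (fun j => (hwlω j).trans hω1) (y := z)
        (fun i hi hi0 => (hfar i hi hi0).2 z hz)
      refine h1.trans_lt ?_
      linarith
  -- the new pair
  have hCop2 : Cop p P U Vv (m + 2) := cop_mono hCop hp (by omega)
  set x' := ∑ b ∈ range (m + 1), U b (u b) with hx'
  set y' := ∑ a ∈ range (m + 1), (f a).comp (Vv a) with hy'
  have hPx2 : P (P x) = P x := congrArg (fun T : E →L[ℂ] E => T x) hPP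
  have b1 : ‖x' - x‖ ≤ (2 * ρ) ^ (1 / p) + ε / 4 := by
    have e1 : x' - x = ∑ b ∈ range m, U (b + 1) (u (b + 1)) + (P x - x) := by
      rw [hx', sum_range_succ', hCop.U0, hu0, hPx2]
      abel
    rw [e1]
    refine (norm_add_le _ _).trans ?_
    have := norm_xs hCop2 hp hu
    linarith
  have hyP2 : (y.comp P).comp P = y.comp P := by
    rw [ContinuousLinearMap.comp_assoc]
    congr 1
  have b2 : ‖y' - y‖ ≤ (2 * ρ) ^ (1 / q) + ε / 4 := by
    have e1 : y' - y = ∑ b ∈ range m, (f (b + 1)).comp (Vv (b + 1)) + (y.comp P - y) := by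
      rw [hy', sum_range_succ', hCop.V0, hf0, hyP2]
      abel
    rw [e1]
    refine (norm_add_le _ _).trans ?_
    have := norm_ys hCop2 hpq hf
    linarith
  have b3 : ‖y' x0 - y x0‖ ≤ ε / 4 := by
    have e1 : y' x0 - y x0 = ∑ b ∈ range m, (f (b + 1)) (Vv (b + 1) x0) + (y.comp P - y) x0 := by
      rw [hy', sum_range_succ', hCop.V0, hf0, hyP2, _root_.add_apply, _root_.sum_apply,
        _root_.sub_apply]
      simp only [ContinuousLinearMap.comp_apply]
      ring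
    rw [e1]
    have h1 : ‖∑ b ∈ range m, (f (b + 1)) (Vv (b + 1) x0)‖ ≤ ε' * K := by
      refine (norm_sum_le _ _).trans ?_
      have h2 : ∑ b ∈ range m, ‖(f (b + 1)) (Vv (b + 1) x0)‖ ≤
          ∑ b ∈ range m, ‖f (b + 1)‖ * ε' := by
        refine sum_le_sum fun b hb => ?_
        rw [mem_range] at hb
        refine ((f (b + 1)).le_opNorm _).trans (mul_le_mul_of_nonneg_left ?_ (norm_nonneg _))
        exact (hfar (b + 1) (by omega) (by omega)).1 x0 (mem_insert_self _ _)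
      refine h2.trans ?_
      rw [← sum_mul, mul_comm]
      refine mul_le_mul_of_nonneg_left ?_ hε'0.le
      rw [hK, sum_range_succ' _ m]
      have := norm_nonneg (f 0)
      linarith
    have h4 : ‖(y.comp P - y) x0‖ ≤ ε1 * (1 + ‖x0‖) := by
      refine ((y.comp P - y).le_opNorm x0).trans ?_
      refine mul_le_mul hy (by linarith) (norm_nonneg _) hε10.le
    refine (norm_add_le _ _).trans ?_
    linarith
  have hHB : HC (Φ w3) x' y' (2 * (ε / 32)) := by
    rw [hw3]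
    refine (bigW_HC hCop hp hPA hAP (by omega) fun T hT1 hT2 =>
      hch δ hδ0 (min_le_right _ _) T hT1 hT2).mono (le_of_eq (by ring))
  -- the dense sets
  set δ' : ℝ := min (min (ε / 4) (ε / 4 / (‖x0‖ + 1))) (min 1 (ε / 8 / (‖y'‖ + ‖x'‖ + 1))) with hδ'
  have hδ'0 : 0 < δ' := by
    rw [hδ']
    exact lt_min (lt_min (by positivity) (by positivity)) (lt_min one_pos (by positivity))
  have hδ'1 : δ' ≤ ε / 4 := (min_le_left _ _).trans (min_le_left _ _)
  have hδ'2 : δ' * (‖x0‖ + 1) ≤ ε / 4 := by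
    have : δ' ≤ ε / 4 / (‖x0‖ + 1) := (min_le_left _ _).trans (min_le_right _ _)
    rwa [le_div_iff₀ (by positivity)] at this
  have hδ'3 : δ' ≤ 1 := (min_le_right _ _).trans (min_le_left _ _)
  have hδ'4 : δ' * (‖y'‖ + ‖x'‖ + 1) ≤ ε / 8 := by
    have : δ' ≤ ε / 8 / (‖y'‖ + ‖x'‖ + 1) := (min_le_right _ _).trans (min_le_right _ _)
    rwa [le_div_iff₀ (by positivity)] at this
  obtain ⟨i, hi⟩ := hd.exists_dist_lt x' hδ'0
  obtain ⟨j, hj⟩ := hd'.exists_dist_lt y' hδ'0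
  rw [dist_eq_norm] at hi hj
  have hi' : ‖d i - x'‖ < δ' := by rwa [norm_sub_rev] at hi
  have hj' : ‖d' j - y'‖ < δ' := by rwa [norm_sub_rev] at hj
  refine ⟨w3, hw3O.2, i, j, ?_, ?_, ?_, ?_⟩
  · have h1 : HC (Φ w3) (d i) (d' j) (2 * (ε / 32) + ε / 4) := by
      refine (hHB.lip (x' := d i) (y' := d' j)).mono ?_
      have h2 : ‖d i‖ ≤ ‖x'‖ + 1 := by
        have : d i = x' + (d i - x') := by abel
        rw [this]
        exact (norm_add_le _ _).trans (by linarith)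
      have h3 : ‖d' j - y'‖ * ‖d i‖ ≤ δ' * (‖x'‖ + 1) :=
        mul_le_mul hj'.le h2 (norm_nonneg _) hδ'0.le
      have h4 : ‖y'‖ * ‖d i - x'‖ ≤ ‖y'‖ * δ' := mul_le_mul_of_nonneg_left hi'.le (norm_nonneg _)
      linarith
    exact hsemi _ _ _ _ _ h1 (by linarith)
  · have e1 : d i - x = (x' - x) + (d i - x') := by abel
    rw [e1]
    exact (norm_add_le _ _).trans (by linarith)
  · have e1 : d' j - y = (y' - y) + (d' j - y') := by abel
    rw [e1]
    exact (norm_add_le _ _).trans (by linarith)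
  · have e1 : d' j x0 - y x0 = (y' x0 - y x0) + (d' j - y') x0 := by
      rw [_root_.sub_apply]
      ring
    rw [e1]
    refine (norm_add_le _ _).trans ?_
    have h1 : ‖(d' j - y') x0‖ ≤ δ' * (‖x0‖ + 1) := by
      refine ((d' j - y').le_opNorm _).trans ?_
      exact mul_le_mul hj'.le (by linarith) (norm_nonneg _) hδ'0.le
    linarith

/-- **Typical contractions have dense vectors which are not cyclic for the commutant.** -/
theorem typ_nil [CompleteSpace E] [Nontrivial E] [SeparableSpace E]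
    [SeparableSpace (StrongDual ℂ E)] {p q : ℝ}
    (hq : p.HolderConjugate q) (hE : Refl E) (hnhd : NhdS Φ) (hsemi : SemiS Φ)
    (hdens : DensN p Φ) :
    {w | GoodH (Φ w)} ∈ residual W := by
  classical
  have hp := hq.pos
  haveI : Nonempty E := ⟨0⟩
  haveI : Nonempty (StrongDual ℂ E) := ⟨0⟩
  set d := denseSeq E with hd_def
  set d' := denseSeq (StrongDual ℂ E) with hd'_def
  have hd : DenseRange d := denseRange_denseSeq _
  have hd' : DenseRange d' := denseRange_denseSeq _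
  set U : ℕ → ℕ → ℝ → Set W := fun i j ρ => interior (HS Φ (d i) (d' j) ρ) with hU
  set rr : ℕ → ℝ := fun a => 1 / ((a : ℝ) + 1) with hrr
  have hrr0 : ∀ a, 0 < rr a := fun a => by simp only [hrr]; positivity
  set O : ℕ → ℕ → ℕ → ℕ → ℕ → Set W := fun i j a b l =>
    ⋃ (i' : ℕ) (j' : ℕ) (_ : ‖d i' - d i‖ ≤ (2 * rr a) ^ (1 / p) + rr b ∧
      ‖d' j' - d' j‖ ≤ (2 * rr a) ^ (1 / q) + rr b ∧ ‖d' j' (d l) - d' j (d l)‖ ≤ rr b),
      U i' j' (rr b) with hO
  have hGmem : ∀ i j a b l, O i j a b l ∪ (closure (U i j (rr a)))ᶜ ∈ residual W := by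
    intro i j a b l
    apply residual_of_dense_open
    · refine IsOpen.union ?_ isClosed_closure.isOpen_compl
      exact isOpen_iUnion fun i' => isOpen_iUnion fun j' => isOpen_iUnion fun _ =>
        isOpen_interior
    · rw [dense_iff_inter_open]
      intro V hV hVne
      by_cases hVU : (V ∩ U i j (rr a)).Nonempty
      · obtain ⟨w0, hw0V, hw0U⟩ := hVU
        obtain ⟨w2, hw2V, i', j', h1, h2, h3, h4⟩ := step_nil hq hE hnhd hsemi hdens (hrr0 a) hw0U hV hw0V
          hd hd' (hrr0 b) (d l)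
        refine ⟨w2, hw2V, Or.inl ?_⟩
        simp only [hO, Set.mem_iUnion]
        exact ⟨i', j', ⟨h2, h3, h4⟩, h1⟩
      · obtain ⟨w0, hw0⟩ := hVne
        refine ⟨w0, hw0, Or.inr ?_⟩
        intro hcl
        exact hVU (mem_closure_iff.1 hcl V hV hw0)
  have hG : ∀ᶠ w in residual W, ∀ i j a b l, w ∈ O i j a b l ∪ (closure (U i j (rr a)))ᶜ := by
    rw [eventually_countable_forall]; intro i
    rw [eventually_countable_forall]; intro j
    rw [eventually_countable_forall]; intro a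
    rw [eventually_countable_forall]; intro b
    rw [eventually_countable_forall]; intro l
    exact hGmem i j a b l
  filter_upwards [hG] with w hw
  set T := Φ w with hT
  intro x₀ ε hε
  -- a nonzero vector of the dense sequence
  obtain ⟨l, hl0, hlx⟩ : ∃ l, d l ≠ 0 ∧ ‖d l - x₀‖ < ε / 2 := by
    have hop : IsOpen ({z : E | z ≠ 0} ∩ Metric.ball x₀ (ε / 2)) :=
      isOpen_ne.inter Metric.isOpen_ball
    have hne : ({z : E | z ≠ 0} ∩ Metric.ball x₀ (ε / 2)).Nonempty := by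
      by_cases hx : x₀ = 0
      · obtain ⟨z, hz⟩ := exists_ne (0 : E)
        have hz0 : 0 < ‖z‖ := norm_pos_iff.2 hz
        refine ⟨((ε / 4 / ‖z‖ : ℝ) : ℂ) • z, ?_, ?_⟩
        · exact smul_ne_zero (by rw [Ne, Complex.ofReal_eq_zero]; positivity) hz
        · rw [Metric.mem_ball, hx, dist_zero_right, norm_smul,
            Complex.norm_real, Real.norm_of_nonneg (by positivity), div_mul_cancel₀ _ hz0.ne']
          linarith
      · exact ⟨x₀, hx, Metric.mem_ball_self (by positivity)⟩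
    obtain ⟨l, hl⟩ := hd.exists_mem_open hop hne
    refine ⟨l, hl.1, ?_⟩
    have := hl.2
    rwa [Metric.mem_ball, dist_eq_norm] at this
  have hX0 : 0 < ‖d l‖ := norm_pos_iff.2 hl0
  set ε' := min (ε / 2) (‖d l‖) with hε'
  have hε'0 : 0 < ε' := lt_min (by positivity) hX0
  set δ : ℕ → ℝ := fun k => ε' / 2 / 2 / 2 ^ k with hδ
  have hδ0 : ∀ k, 0 < δ k := fun k => by simp only [hδ]; positivity
  choose a ha1 ha2 ha3 using fun k => exists_rho'' hq (δ := δ k / 2) (by have := hδ0 k; positivity)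
  -- the first functional
  obtain ⟨j0, hj0, hj0'⟩ : ∃ j0, ‖d' j0‖ * ‖d l‖ < rr (a 0) ∧ d' j0 (d l) ≠ 0 := by
    have hop : IsOpen ({y : StrongDual ℂ E | ‖y‖ * ‖d l‖ < rr (a 0)} ∩
        {y : StrongDual ℂ E | y (d l) ≠ 0}) := by
      refine IsOpen.inter (isOpen_lt (continuous_norm.mul continuous_const) continuous_const) ?_
      have hc : Continuous fun y : StrongDual ℂ E => y (d l) :=
        (ContinuousLinearMap.apply ℂ ℂ (d l)).continuous
      exact isOpen_ne.preimage hc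
    have hne : ({y : StrongDual ℂ E | ‖y‖ * ‖d l‖ < rr (a 0)} ∩
        {y : StrongDual ℂ E | y (d l) ≠ 0}).Nonempty := by
      obtain ⟨y1, hy1, hy1'⟩ := exists_dual_vector ℂ (d l) hX0.ne'
      set s : ℝ := rr (a 0) / (2 * ‖d l‖) with hs
      have hs0 : 0 < s := by have := hrr0 (a 0); positivity
      refine ⟨(s : ℂ) • y1, ?_, ?_⟩
      · show ‖(s : ℂ) • y1‖ * ‖d l‖ < rr (a 0)
        rw [norm_smul, hy1, mul_one, Complex.norm_real, Real.norm_of_nonneg hs0.le, hs]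
        have := hrr0 (a 0)
        rw [div_mul_eq_mul_div, div_lt_iff₀ (by positivity)]
        nlinarith
      · show ((s : ℂ) • y1) (d l) ≠ 0
        rw [_root_.smul_apply, hy1', smul_eq_mul]
        refine mul_ne_zero (by rw [Ne, Complex.ofReal_eq_zero]; exact hs0.ne') ?_
        exact Complex.ofReal_ne_zero.2 hX0.ne'
    obtain ⟨j0, h1, h2⟩ := hd'.exists_mem_open hop hne
    exact ⟨j0, h1, h2⟩
  set τ : ℝ := ‖d' j0 (d l)‖ / 2 with hτ
  have hτ0 : 0 < τ := by have := norm_pos_iff.2 hj0'; positivity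
  have hinit : w ∈ U l j0 (rr (a 0)) := by
    have : HS Φ (d l) (d' j0) (rr (a 0)) = Set.univ := by
      rw [Set.eq_univ_iff_forall]
      intro v
      exact (HC.top (Φ v) (d l) (d' j0)).mono hj0.le
    simp only [hU]
    rw [this, interior_univ]
    trivial
  -- one step
  have hstep : ∀ k (v : {v : ℕ × ℕ // w ∈ U v.1 v.2 (rr (a k))}),
      ∃ v' : {v : ℕ × ℕ // w ∈ U v.1 v.2 (rr (a (k + 1)))},
        ‖d v'.1.1 - d v.1.1‖ ≤ δ k ∧ ‖d' v'.1.2 - d' v.1.2‖ ≤ δ k ∧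
        ‖d' v'.1.2 (d l) - d' v.1.2 (d l)‖ ≤ τ / 2 / 2 ^ k := by
    rintro k ⟨⟨i, j⟩, hij⟩
    obtain ⟨b, hb⟩ := exists_nat_one_div_lt (show 0 < min (min (rr (a (k + 1))) (δ k / 2))
      (τ / 2 / 2 ^ k) from lt_min (lt_min (hrr0 _) (by have := hδ0 k; positivity))
        (by positivity))
    have hb1 : rr b ≤ rr (a (k + 1)) := hb.le.trans ((min_le_left _ _).trans (min_le_left _ _))
    have hb2 : rr b ≤ δ k / 2 := hb.le.trans ((min_le_left _ _).trans (min_le_right _ _))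
    have hb3 : rr b ≤ τ / 2 / 2 ^ k := hb.le.trans (min_le_right _ _)
    rcases hw i j (a k) b l with hwO | hwO
    · simp only [hO, Set.mem_iUnion] at hwO
      obtain ⟨i', j', ⟨h1, h2, h3⟩, h4⟩ := hwO
      refine ⟨⟨(i', j'), ?_⟩, ?_, ?_, h3.trans hb3⟩
      · exact interior_mono (fun v hv => HC.mono hv hb1) h4
      · have := ha2 k
        refine h1.trans ?_
        simp only [hrr] at this ⊢
        simp only [hrr] at hb2
        linarith
      · have := ha3 k
        refine h2.trans ?_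
        simp only [hrr] at this ⊢
        simp only [hrr] at hb2
        linarith
    · exact absurd (subset_closure hij) hwO
  choose F hF1 hF2 hF3 using hstep
  let S : (k : ℕ) → {v : ℕ × ℕ // w ∈ U v.1 v.2 (rr (a k))} := fun k =>
    Nat.rec (motive := fun k => {v : ℕ × ℕ // w ∈ U v.1 v.2 (rr (a k))})
      ⟨(l, j0), hinit⟩ (fun k v => F k v) k
  have hS0 : (S 0).1 = (l, j0) := rfl
  have hSs : ∀ k, S (k + 1) = F k (S k) := fun k => rfl
  have hx : ∀ k, dist (d (S k).1.1) (d (S (k + 1)).1.1) ≤ ε' / 2 / 2 / 2 ^ k := by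
    intro k
    rw [dist_comm, dist_eq_norm, hSs]
    exact hF1 k (S k)
  have hy : ∀ k, dist (d' (S k).1.2) (d' (S (k + 1)).1.2) ≤ ε' / 2 / 2 / 2 ^ k := by
    intro k
    rw [dist_comm, dist_eq_norm, hSs]
    exact hF2 k (S k)
  have hz : ∀ k, dist (d' (S k).1.2 (d l)) (d' (S (k + 1)).1.2 (d l)) ≤ τ / 2 / 2 ^ k := by
    intro k
    rw [dist_comm, dist_eq_norm, hSs]
    exact hF3 k (S k)
  obtain ⟨x, hxl⟩ := cauchySeq_tendsto_of_complete (cauchySeq_of_le_geometric_two hx)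
  obtain ⟨y, hyl⟩ := cauchySeq_tendsto_of_complete (cauchySeq_of_le_geometric_two hy)
  have hyx₀ : Tendsto (fun k => d' (S k).1.2 (d l)) atTop (𝓝 (y (d l))) :=
    ((ContinuousLinearMap.apply ℂ ℂ (d l)).continuous.tendsto y).comp hyl
  have h1 := dist_le_of_le_geometric_two_of_tendsto₀ hx hxl
  have h2 := dist_le_of_le_geometric_two_of_tendsto₀ hz hyx₀
  rw [hS0] at h1 h2
  simp only at h1 h2
  rw [dist_comm, dist_eq_norm] at h1
  rw [dist_comm, dist_eq_norm] at h2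
  have h1a : ‖x - d l‖ ≤ ε / 4 := by
    have := min_le_left (ε / 2) ‖d l‖
    rw [← hε'] at this
    linarith
  have h1b : ‖x - d l‖ ≤ ‖d l‖ / 2 := by
    have := min_le_right (ε / 2) ‖d l‖
    rw [← hε'] at this
    linarith
  refine ⟨x, y, ?_, ?_, ?_, ?_⟩
  · intro hx0
    rw [hx0, zero_sub, norm_neg] at h1b
    linarith
  · have e : x - x₀ = (x - d l) + (d l - x₀) := by abel
    rw [e]
    refine (norm_add_le _ _).trans_lt ?_
    linarith
  · intro hy0
    rw [hy0, _root_.zero_apply, zero_sub, norm_neg] at h2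
    rw [hτ] at h2
    have := norm_pos_iff.2 hj0'
    linarith
  · -- contractions in the commutant
    have hcontr : ∀ R : E →L[ℂ] E, R * T = T * R → ‖R‖ ≤ 1 → y (R x) = 0 := by
      intro R hR hR1
      have h3 : Tendsto (fun k => d' (S k).1.2 (R (d (S k).1.1))) atTop (𝓝 (y (R x))) := by
        have hc : Continuous fun v : StrongDual ℂ E × E => v.1 (R v.2) :=
          isBoundedBilinearMap_apply.continuous.comp
            (continuous_fst.prodMk (R.continuous.comp continuous_snd))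
        exact (hc.tendsto (y, x)).comp (hyl.prodMk_nhds hxl)
      have h4 : Tendsto (fun k => d' (S k).1.2 (R (d (S k).1.1))) atTop (𝓝 0) := by
        apply squeeze_zero_norm (a := δ)
        · intro k
          have h5 : w ∈ HS Φ (d (S k).1.1) (d' (S k).1.2) (rr (a k)) := interior_subset (S k).2
          refine (h5 R hR hR1).trans ((ha1 k).trans ?_)
          have := hδ0 k
          linarith
        · have := (tendsto_pow_atTop_nhds_zero_of_lt_one (r := (1 / 2 : ℝ)) (by norm_num)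
            (by norm_num)).const_mul (ε' / 2 / 2)
          rw [mul_zero] at this
          refine this.congr fun k => ?_
          rw [hδ]
          simp only [one_div, inv_pow]
          rfl
      exact tendsto_nhds_unique h3 h4
    intro R hR
    set c : ℝ := (‖R‖ + 1)⁻¹ with hc
    have hc0 : 0 < c := by positivity
    have h5 := hcontr ((c : ℂ) • R) (by rw [smul_mul_assoc, mul_smul_comm, hR]) (by
      rw [norm_smul, Complex.norm_real, Real.norm_of_nonneg hc0.le, hc, inv_mul_le_iff₀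
        (by positivity)]
      linarith)
    rw [_root_.smul_apply, map_smul, smul_eq_mul] at h5
    rcases mul_eq_zero.1 h5 with h6 | h6
    · exact absurd (Complex.ofReal_eq_zero.1 h6) hc0.ne'
    · exact h6

end Run7.h667.NG
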